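import Pool.Agent.Y262.Hardy

/-! Hardy's inequality along the axis of the cones (end). -/

set_option autoImplicit false

open MeasureTheory Complex Filter Topology Metric
open scoped ContDiff ENNReal ComplexConjugate

namespace Pool.Agent.Y262

open BK

variable {n : ℕ}

theorem hardy (Ω : Set (En n)) (ho : IsOpen Ω) (hb : Bornology.IsBounded Ω)
    (hne : (Ωᶜ).Nonempty) : HardyS Ω := by
  classical
  obtain ⟨R0, hR0⟩ := hb.exists_norm_le
  obtain ⟨R, hR, hRΩ⟩ : ∃ R : ℝ, 0 ≤ R ∧ ∀ x ∈ Ω, ‖x‖ ≤ R :=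
    ⟨max 0 R0, le_max_left _ _, fun x hx => (hR0 x hx).trans (le_max_right _ _)⟩
  intro U ν κ s1 hU hκ hκ1 hs1 hc
  obtain ⟨C1, hC1⟩ : ∃ C1 : ℝ, C1 = 1 + (1 + ‖ν‖) / κ := ⟨_, rfl⟩
  have hC1p : 0 < C1 := by rw [hC1]; positivity
  obtain ⟨C2, hC2⟩ : ∃ C2 : ℝ≥0∞, C2 = ENNReal.ofReal (Real.exp (2 * n * R * ‖ν‖)) := ⟨_, rfl⟩
  have hC2t : C2 ≠ ⊤ := by rw [hC2]; exact ENNReal.ofReal_ne_top
  obtain ⟨K1, hK1⟩ : ∃ K1 : ℝ≥0∞, K1 = ENNReal.ofReal (C1 ^ (3 / 2 : ℝ)) * 2 * C2 := ⟨_, rfl⟩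
  have hK1t : K1 ≠ ⊤ := by
    rw [hK1]
    exact ENNReal.mul_ne_top (ENNReal.mul_ne_top ENNReal.ofReal_ne_top (by norm_num)) hC2t
  obtain ⟨K2, hK2⟩ : ∃ K2 : ℝ≥0∞, K2 = ENNReal.ofReal (2 * κ⁻¹) := ⟨_, rfl⟩
  obtain ⟨K3, hK3⟩ : ∃ K3 : ℝ≥0∞, K3 = C2 * ENNReal.ofReal κ⁻¹ ^ 2 := ⟨_, rfl⟩
  have hK2t : K2 ≠ ⊤ := by rw [hK2]; exact ENNReal.ofReal_ne_top
  have hK3t : K3 ≠ ⊤ := by
    rw [hK3]
    exact ENNReal.mul_ne_top hC2t (ENNReal.pow_ne_top ENNReal.ofReal_ne_top)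
  refine ⟨K1 * K2 + K3, ENNReal.add_ne_top.2 ⟨ENNReal.mul_ne_top hK1t hK2t, hK3t⟩, ?_⟩
  intro t ht htt h hh
  have ht0 : 0 < t := by linarith
  have ht1 : t⁻¹ ≤ s1 := by
    rw [inv_le_comm₀ ht0 hs1]
    exact htt
  -- facts along the cones
  have hmem : ∀ z ∈ Ω ∩ U, ∀ s ∈ Set.Ioc (0 : ℝ) t⁻¹, z + s • ν ∈ Ω := by
    intro z hz s hs
    apply hc z hz s hs.1 (hs.2.trans ht1)
    apply mem_ball_self
    exact mul_pos hκ hs.1
  have hdlow : ∀ z ∈ Ω ∩ U, ∀ s ∈ Set.Ioc (0 : ℝ) t⁻¹, κ * s ≤ dd Ω t (z + s • ν) :=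
    fun z hz s hs => dd_cone hne hκ hκ1 hc hz hs.1 hs.2 (hs.2.trans ht1)
  have hdist : ∀ (z : En n) (s : ℝ), 0 ≤ s → dist z (z + s • ν) = s * ‖ν‖ := by
    intro z s hs
    rw [dist_eq_norm, sub_add_cancel_left, norm_neg, norm_smul, Real.norm_eq_abs, abs_of_nonneg hs]
  have hdlow2 : ∀ z ∈ Ω ∩ U, ∀ s ∈ Set.Ioc (0 : ℝ) t⁻¹,
      (s + dd Ω t z) / C1 ≤ dd Ω t (z + s • ν) := by
    intro z hz s hs
    have h1 := hdlow z hz s hs
    have h2 := dd_lip Ω t z (z + s • ν)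
    rw [hdist z s hs.1.le] at h2
    rw [div_le_iff₀ hC1p, hC1]
    have h3 : s ≤ dd Ω t (z + s • ν) / κ := by
      rw [le_div_iff₀ hκ]
      linarith
    have h4 : (1 + ‖ν‖) * s ≤ (1 + ‖ν‖) * (dd Ω t (z + s • ν) / κ) :=
      mul_le_mul_of_nonneg_left h3 (by positivity)
    calc s + dd Ω t z ≤ dd Ω t (z + s • ν) + (1 + ‖ν‖) * s := by linarith
      _ ≤ dd Ω t (z + s • ν) + (1 + ‖ν‖) * (dd Ω t (z + s • ν) / κ) := by linarith
      _ = _ := by ring
  have hw : ∀ z ∈ Ω ∩ U, ∀ s ∈ Set.Ioc (0 : ℝ) t⁻¹, wt t z ≤ C2 * wt t (z + s • ν) := by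
    intro z hz s hs
    rw [hC2]
    apply wt_comp (hRΩ z hz.1) (hRΩ _ (hmem z hz s hs)) ht0.le
    rw [hdist z s hs.1.le]
    have h1 : t * s ≤ 1 := by
      calc t * s ≤ t * t⁻¹ := mul_le_mul_of_nonneg_left hs.2 ht0.le
        _ = 1 := mul_inv_cancel₀ ht0.ne'
    calc t * (s * ‖ν‖) = (t * s) * ‖ν‖ := by ring
      _ ≤ 1 * ‖ν‖ := mul_le_mul_of_nonneg_right h1 (norm_nonneg _)
      _ = ‖ν‖ := one_mul _
  -- the measurable representative
  obtain ⟨h', hh'⟩ : ∃ h' : En n → ℝ≥0∞, h' = Ω.indicator (fun x => ‖h x‖ₑ) := ⟨_, rfl⟩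
  have hh'm : Measurable h' := by
    rw [hh', ← Set.piecewise_eq_indicator]
    exact ContinuousOn.measurable_piecewise (hh.enorm) continuousOn_const ho.measurableSet
  have hh'e : ∀ x ∈ Ω, h' x = ‖h x‖ₑ := fun x hx => by rw [hh', Set.indicator_of_mem hx]
  have hh'0 : ∀ x, x ∉ Ω → h' x = 0 := fun x hx => by rw [hh', Set.indicator_of_notMem hx]
  obtain ⟨G, hG⟩ : ∃ G : En n → ℝ≥0∞, G = fun x => ENNReal.ofReal ((dd Ω t x) ^ (3 / 2 : ℝ)) *
    h' x ^ 2 * wt t x := ⟨_, rfl⟩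
  have hrm : ∀ q : ℝ, Measurable (fun x => ENNReal.ofReal ((dd Ω t x) ^ q)) := fun q =>
    ENNReal.measurable_ofReal.comp ((dd_cont Ω t).measurable.pow_const q)
  have hGm : Measurable G := by
    rw [hG]
    exact ((hrm _).mul (hh'm.pow_const 2)).mul (wt_cont' t).measurable
  obtain ⟨E, hE⟩ : ∃ E : En n → ℝ≥0∞, E = (Ω ∩ U).indicator
    (fun z => ENNReal.ofReal ((dd Ω t z) ^ (-(1 / 2) : ℝ))) := ⟨_, rfl⟩
  have hEm : Measurable E := by
    rw [hE]
    exact (hrm _).indicator (ho.inter hU).measurableSet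
  -- the target
  have hT : ∀ x, ENNReal.ofReal (dd Ω t x) ^ 2 * h' x ^ 2 * wt t x =
      Ω.indicator (fun x => ENNReal.ofReal (dd Ω t x) ^ 2 * ‖h x‖ₑ ^ 2 * wt t x) x := by
    intro x
    by_cases hx : x ∈ Ω
    · rw [Set.indicator_of_mem hx, hh'e x hx]
    · rw [Set.indicator_of_notMem hx, hh'0 x hx]
      simp
  have hTI : ∫⁻ x, ENNReal.ofReal (dd Ω t x) ^ 2 * h' x ^ 2 * wt t x = nd Ω t h := by
    simp_rw [hT]
    rw [lintegral_indicator ho.measurableSet]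
    rfl
  have hline : ∀ z : En n, Measurable fun s : ℝ => z + s • ν := fun z => by fun_prop
  constructor
  · -- first inequality
    have step1 : ∀ z ∈ Ω ∩ U, (∫⁻ s in Set.Ioc (0 : ℝ) t⁻¹, ‖h (z + s • ν)‖ₑ) ^ 2 * wt t z ≤
        K1 * ∫⁻ s in Set.Ioc (0 : ℝ) t⁻¹, E z * G (z + s • ν) := by
      intro z hz
      have hdz : 0 < dd Ω t z := dd_pos ho hne ht0 hz.1
      have hdzs : ∀ s ∈ Set.Ioc (0 : ℝ) t⁻¹, 0 < dd Ω t (z + s • ν) :=
        fun s hs => dd_pos ho hne ht0 (hmem z hz s hs)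
      have a1 : ∫⁻ s in Set.Ioc (0 : ℝ) t⁻¹, ‖h (z + s • ν)‖ₑ =
          ∫⁻ s in Set.Ioc (0 : ℝ) t⁻¹, h' (z + s • ν) := by
        apply setLIntegral_congr_fun measurableSet_Ioc
        intro s hs
        exact (hh'e _ (hmem z hz s hs)).symm
      have a2 := cs_lint (volume.restrict (Set.Ioc (0 : ℝ) t⁻¹))
        (fun s => ENNReal.ofReal ((dd Ω t (z + s • ν)) ^ (3 / 2 : ℝ))) (fun s => h' (z + s • ν))
        ((hrm _).comp (hline z)).aemeasurable (hh'm.comp (hline z)).aemeasurable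
        (ae_restrict_of_forall_mem measurableSet_Ioc fun s hs => by
          rw [Ne, ENNReal.ofReal_eq_zero, not_le]
          exact Real.rpow_pos_of_pos (hdzs s hs) _)
        (ae_restrict_of_forall_mem measurableSet_Ioc fun s hs => ENNReal.ofReal_ne_top)
      have a3 : ∫⁻ s in Set.Ioc (0 : ℝ) t⁻¹,
          (ENNReal.ofReal ((dd Ω t (z + s • ν)) ^ (3 / 2 : ℝ)))⁻¹ ≤
          ENNReal.ofReal (C1 ^ (3 / 2 : ℝ)) * 2 * E z := by
        calc ∫⁻ s in Set.Ioc (0 : ℝ) t⁻¹,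
            (ENNReal.ofReal ((dd Ω t (z + s • ν)) ^ (3 / 2 : ℝ)))⁻¹
            ≤ ∫⁻ s in Set.Ioc (0 : ℝ) t⁻¹, ENNReal.ofReal (C1 ^ (3 / 2 : ℝ)) *
              ENNReal.ofReal ((s + dd Ω t z) ^ (-(3 / 2) : ℝ)) := by
              apply setLIntegral_mono' measurableSet_Ioc
              intro s hs
              have hsd : 0 < s + dd Ω t z := by linarith [hs.1]
              rw [← ENNReal.ofReal_inv_of_pos (Real.rpow_pos_of_pos (hdzs s hs) _),
                ← ENNReal.ofReal_mul (Real.rpow_nonneg hC1p.le _)]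
              apply ENNReal.ofReal_le_ofReal
              rw [← Real.rpow_neg (hdzs s hs).le]
              calc (dd Ω t (z + s • ν)) ^ (-(3 / 2) : ℝ) ≤
                  ((s + dd Ω t z) / C1) ^ (-(3 / 2) : ℝ) :=
                    Real.rpow_le_rpow_of_nonpos (by positivity) (hdlow2 z hz s hs) (by norm_num)
                _ = C1 ^ (3 / 2 : ℝ) * (s + dd Ω t z) ^ (-(3 / 2) : ℝ) := by
                    rw [Real.div_rpow hsd.le hC1p.le, Real.rpow_neg hC1p.le, div_inv_eq_mul,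
                      mul_comm]
          _ = ENNReal.ofReal (C1 ^ (3 / 2 : ℝ)) * ∫⁻ s in Set.Ioc (0 : ℝ) t⁻¹,
              ENNReal.ofReal ((s + dd Ω t z) ^ (-(3 / 2) : ℝ)) :=
              lintegral_const_mul' _ _ ENNReal.ofReal_ne_top
          _ ≤ ENNReal.ofReal (C1 ^ (3 / 2 : ℝ)) * ENNReal.ofReal (2 * (dd Ω t z) ^ (-(1 / 2) : ℝ)) := by
              gcongr
              exact pI2 hdz (inv_pos.2 ht0).le
          _ = _ := by
              rw [hE, Set.indicator_of_mem hz, ENNReal.ofReal_mul (by norm_num),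
                ENNReal.ofReal_ofNat, mul_assoc]
      rw [a1]
      calc (∫⁻ s in Set.Ioc (0 : ℝ) t⁻¹, h' (z + s • ν)) ^ 2 * wt t z
          ≤ (ENNReal.ofReal (C1 ^ (3 / 2 : ℝ)) * 2 * E z) * (∫⁻ s in Set.Ioc (0 : ℝ) t⁻¹,
            ENNReal.ofReal ((dd Ω t (z + s • ν)) ^ (3 / 2 : ℝ)) * h' (z + s • ν) ^ 2) * wt t z := by
            gcongr
            exact a2.trans (mul_le_mul' a3 le_rfl)
        _ = (ENNReal.ofReal (C1 ^ (3 / 2 : ℝ)) * 2 * E z) * (∫⁻ s in Set.Ioc (0 : ℝ) t⁻¹,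
            ENNReal.ofReal ((dd Ω t (z + s • ν)) ^ (3 / 2 : ℝ)) * h' (z + s • ν) ^ 2 * wt t z) := by
            rw [mul_assoc, ← lintegral_mul_const' _ _ (by unfold wt; exact ENNReal.ofReal_ne_top)]
        _ ≤ (ENNReal.ofReal (C1 ^ (3 / 2 : ℝ)) * 2 * E z) * (∫⁻ s in Set.Ioc (0 : ℝ) t⁻¹,
            C2 * G (z + s • ν)) := by
            refine mul_le_mul' le_rfl ?_
            apply setLIntegral_mono' measurableSet_Ioc
            intro s hs
            rw [hG]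
            calc ENNReal.ofReal ((dd Ω t (z + s • ν)) ^ (3 / 2 : ℝ)) * h' (z + s • ν) ^ 2 * wt t z
                ≤ ENNReal.ofReal ((dd Ω t (z + s • ν)) ^ (3 / 2 : ℝ)) * h' (z + s • ν) ^ 2 *
                  (C2 * wt t (z + s • ν)) := by
                  gcongr
                  exact hw z hz s hs
              _ = _ := by ring
        _ = _ := by
            have hGl : Measurable fun s : ℝ => G (z + s • ν) := hGm.comp (hline z)
            rw [lintegral_const_mul' _ _ hC2t, lintegral_const_mul _ hGl, hK1]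
            ring
    have hTon : Measurable (Function.uncurry fun (z : En n) (s : ℝ) => E z * G (z + s • ν)) := by
      apply Measurable.mul
      · exact hEm.comp measurable_fst
      · apply hGm.comp
        fun_prop
    have hTon2 : Measurable (Function.uncurry fun (s : ℝ) (x : En n) => E (x - s • ν) * G x) := by
      apply Measurable.mul
      · apply hEm.comp
        fun_prop
      · exact hGm.comp measurable_snd
    have step2 : ∫⁻ z, ∫⁻ s in Set.Ioc (0 : ℝ) t⁻¹, E z * G (z + s • ν) ≤ K2 * nd Ω t h := by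
      rw [lintegral_lintegral_swap hTon.aemeasurable]
      have b1 : ∀ s : ℝ, ∫⁻ z, E z * G (z + s • ν) = ∫⁻ x, E (x - s • ν) * G x := by
        intro s
        rw [← lintegral_add_right_eq_self (μ := (volume : Measure (En n)))
          (fun x => E (x - s • ν) * G x) (s • ν)]
        simp only [add_sub_cancel_right]
      simp_rw [b1]
      rw [lintegral_lintegral_swap hTon2.aemeasurable, ← hTI, ← lintegral_const_mul' _ _ hK2t]
      apply lintegral_mono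
      intro x
      have hEl : Measurable fun s : ℝ => E (x - s • ν) := hEm.comp (by fun_prop)
      show ∫⁻ s in Set.Ioc (0 : ℝ) t⁻¹, E (x - s • ν) * G x ≤
        K2 * (ENNReal.ofReal (dd Ω t x) ^ 2 * h' x ^ 2 * wt t x)
      rw [lintegral_mul_const _ hEl]
      · by_cases hx : x ∈ Ω
        · have hdx : 0 < dd Ω t x := dd_pos ho hne ht0 hx
          have b2 := inner_bd ho hU hne hκ hκ1 hc ht0 ht1 x
          rw [← hE] at b2
          calc (∫⁻ s in Set.Ioc (0 : ℝ) t⁻¹, E (x - s • ν)) * G x ≤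
              ENNReal.ofReal (2 * κ⁻¹ * (dd Ω t x) ^ (1 / 2 : ℝ)) * G x := by gcongr
            _ = K2 * ((ENNReal.ofReal ((dd Ω t x) ^ (1 / 2 : ℝ)) *
                ENNReal.ofReal ((dd Ω t x) ^ (3 / 2 : ℝ))) * h' x ^ 2 * wt t x) := by
                rw [hG, hK2, ENNReal.ofReal_mul (by positivity)]
                ring
            _ = _ := by
                rw [← ENNReal.ofReal_mul (Real.rpow_nonneg hdx.le _), ← Real.rpow_add hdx]
                norm_num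
                rw [ENNReal.ofReal_pow hdx.le]
        · have : G x = 0 := by
            rw [hG]
            simp [hh'0 x hx]
          rw [this]
          simp
    calc ∫⁻ z in Ω ∩ U, (∫⁻ s in Set.Ioc (0 : ℝ) t⁻¹, ‖h (z + s • ν)‖ₑ) ^ 2 * wt t z
        ≤ ∫⁻ z in Ω ∩ U, K1 * ∫⁻ s in Set.Ioc (0 : ℝ) t⁻¹, E z * G (z + s • ν) :=
          setLIntegral_mono' (ho.inter hU).measurableSet step1
      _ ≤ ∫⁻ z, K1 * ∫⁻ s in Set.Ioc (0 : ℝ) t⁻¹, E z * G (z + s • ν) :=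
          setLIntegral_le_lintegral _ _
      _ = K1 * ∫⁻ z, ∫⁻ s in Set.Ioc (0 : ℝ) t⁻¹, E z * G (z + s • ν) :=
          lintegral_const_mul' _ _ hK1t
      _ ≤ K1 * (K2 * nd Ω t h) := by gcongr
      _ = (K1 * K2) * nd Ω t h := by ring
      _ ≤ _ := by
          gcongr
          exact le_self_add
  · -- second inequality
    have hti : t⁻¹ ∈ Set.Ioc (0 : ℝ) t⁻¹ := ⟨inv_pos.2 ht0, le_rfl⟩
    obtain ⟨G2, hG2⟩ : ∃ G2 : En n → ℝ≥0∞, G2 = fun x => K3 * ENNReal.ofReal t ^ 2 *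
      (ENNReal.ofReal (dd Ω t x) ^ 2 * h' x ^ 2 * wt t x) := ⟨_, rfl⟩
    calc ∫⁻ z in Ω ∩ U, ‖h (z + t⁻¹ • ν)‖ₑ ^ 2 * wt t z
        ≤ ∫⁻ z in Ω ∩ U, G2 (z + t⁻¹ • ν) := by
          apply setLIntegral_mono' (ho.inter hU).measurableSet
          intro z hz
          have c1 := hdlow z hz t⁻¹ hti
          have c2 := hw z hz t⁻¹ hti
          have c3 := hh'e _ (hmem z hz t⁻¹ hti)
          have c4 : (1 : ℝ≥0∞) ≤ ENNReal.ofReal κ⁻¹ * ENNReal.ofReal t *
              ENNReal.ofReal (dd Ω t (z + t⁻¹ • ν)) := by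
            rw [← ENNReal.ofReal_mul (by positivity), ← ENNReal.ofReal_mul (by positivity),
              ← ENNReal.ofReal_one]
            apply ENNReal.ofReal_le_ofReal
            calc (1 : ℝ) = κ⁻¹ * t * (κ * t⁻¹) := by
                  field_simp
              _ ≤ κ⁻¹ * t * dd Ω t (z + t⁻¹ • ν) := mul_le_mul_of_nonneg_left c1 (by positivity)
          rw [hG2, ← c3, hK3]
          calc h' (z + t⁻¹ • ν) ^ 2 * wt t z ≤
              (1 : ℝ≥0∞) ^ 2 * (h' (z + t⁻¹ • ν) ^ 2 * (C2 * wt t (z + t⁻¹ • ν))) := by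
                rw [one_pow, one_mul]
                gcongr
            _ ≤ (ENNReal.ofReal κ⁻¹ * ENNReal.ofReal t *
              ENNReal.ofReal (dd Ω t (z + t⁻¹ • ν))) ^ 2 *
                (h' (z + t⁻¹ • ν) ^ 2 * (C2 * wt t (z + t⁻¹ • ν))) := by
                gcongr
            _ = _ := by ring
      _ ≤ ∫⁻ z, G2 (z + t⁻¹ • ν) := setLIntegral_le_lintegral _ _
      _ = ∫⁻ x, G2 x := lintegral_add_right_eq_self (μ := (volume : Measure (En n))) G2 _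
      _ = K3 * ENNReal.ofReal t ^ 2 * nd Ω t h := by
          rw [hG2, lintegral_const_mul' _ _ (ENNReal.mul_ne_top hK3t
            (ENNReal.pow_ne_top ENNReal.ofReal_ne_top)), hTI]
      _ = K3 * (ENNReal.ofReal t ^ 2 * nd Ω t h) := by ring
      _ ≤ _ := by
          gcongr
          exact le_add_self

end Pool.Agent.Y262
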