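import Pool.Agent.Y262.Defs

/-! A finite cover by patches with cones and a partition of unity. -/

set_option autoImplicit false

open MeasureTheory Complex Filter Topology Metric
open scoped ContDiff ENNReal ComplexConjugate Manifold

namespace Pool.Agent.Y262

open BK

variable {n : ℕ}

theorem Cone.mono {Ω U : Set (En n)} {ν : En n} {κ s1 κ' s1' : ℝ} (h : Cone Ω U ν κ s1)
    (hκ : κ' ≤ κ) (hs : s1' ≤ s1) : Cone Ω U ν κ' s1' := by
  intro z hz s h0 h1
  exact (ball_subset_ball (mul_le_mul_of_nonneg_right hκ h0.le)).trans (h z hz s h0 (h1.trans hs))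

theorem cone_loc (Ω : Set (En n)) (ho : IsOpen Ω) (hL : LipB Ω) (p : En n) (hp : p ∈ closure Ω) :
    ∃ (r κ s1 : ℝ) (ν : En n), 0 < r ∧ 0 < κ ∧ κ ≤ 1 ∧ 0 < s1 ∧ Cone Ω (ball p r) ν κ s1 := by
  by_cases hpΩ : p ∈ Ω
  · obtain ⟨r, hr, hsub⟩ := Metric.isOpen_iff.1 ho p hpΩ
    refine ⟨r / 2, 1, r / 2, 0, by linarith, one_pos, le_rfl, by linarith, ?_⟩
    intro z hz s h0 h1 y hy
    apply hsub
    rw [smul_zero, add_zero, one_mul, mem_ball] at hy
    have h2 : dist z p < r / 2 := hz.2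
    rw [mem_ball]
    calc dist y p ≤ dist y z + dist z p := dist_triangle _ _ _
      _ < r := by linarith
  · have hfr : p ∈ frontier Ω := by
      rw [frontier, ho.interior_eq]
      exact ⟨hp, hpΩ⟩
    obtain ⟨U, hU, L, v, hLv, g, K, hg, hgv, hΩU⟩ := hL p hfr
    obtain ⟨r, hr, hrU⟩ := Metric.mem_nhds_iff.1 hU
    set A : ℝ := ‖L‖ + K with hA
    have hA0 : 0 ≤ A := by positivity
    set κ : ℝ := (1 + A)⁻¹ with hκ
    have hκ0 : 0 < κ := by positivity
    have hκ1 : κ ≤ 1 := inv_le_one_of_one_le₀ (by linarith)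
    have hκA : κ * A < 1 := by
      rw [hκ, inv_mul_lt_iff₀ (by linarith)]
      linarith
    have hvκ : 0 < ‖v‖ + 1 := by positivity
    refine ⟨r / 2, κ, r / (2 * (‖v‖ + 1)), -v, by linarith, hκ0, hκ1, by positivity, ?_⟩
    intro z hz s h0 h1 y hy
    have hsr : s * (‖v‖ + 1) ≤ r / 2 := by
      rw [le_div_iff₀ (by positivity)] at h1
      linarith
    -- write `y = z - s v + e`
    set e := y - (z + s • (-v)) with he
    have hye : y = z + s • (-v) + e := by rw [he]; abel
    have hen : ‖e‖ < κ * s := by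
      rw [he, ← dist_eq_norm]
      exact hy
    have hens : ‖e‖ ≤ s := by
      have : κ * s ≤ 1 * s := mul_le_mul_of_nonneg_right hκ1 h0.le
      linarith
    have hz2 : dist z p < r / 2 := hz.2
    have hyU : y ∈ U := by
      apply hrU
      rw [mem_ball]
      have h3 : dist y z ≤ s * ‖v‖ + ‖e‖ := by
        rw [dist_eq_norm, hye]
        have : z + s • (-v) + e - z = s • (-v) + e := by abel
        rw [this]
        refine (norm_add_le _ _).trans ?_
        rw [norm_smul, norm_neg, Real.norm_of_nonneg h0.le]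
      calc dist y p ≤ dist y z + dist z p := dist_triangle _ _ _
        _ < r := by nlinarith
    have hzU : z ∈ U := by
      apply hrU
      rw [mem_ball]
      linarith
    have hzL : L z < g z := by
      have : z ∈ Ω ∩ U := ⟨hz.1, hzU⟩
      rw [hΩU] at this
      exact this.2
    have h4 : L y = L z - s + L e := by
      rw [hye, map_add, map_add, map_smul, map_neg, hLv, smul_eq_mul]
      ring
    have h5 : g y ≥ g z - K * ‖e‖ := by
      have h6 : g y = g (z + e) := by
        have h7 : y = (z + e) + (-s) • v := by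
          rw [hye]
          simp only [smul_neg, neg_smul]
          abel
        rw [h7, hgv]
      have h8 := hg.dist_le_mul z (z + e)
      rw [Real.dist_eq, dist_self_add_right] at h8
      have h9 := (abs_le.1 h8).2
      rw [h6]
      linarith
    have h6 : L e ≤ ‖L‖ * ‖e‖ := (le_abs_self _).trans (by
      have := L.le_opNorm e
      rwa [Real.norm_eq_abs] at this)
    have h7 : y ∈ Ω ∩ U := by
      rw [hΩU]
      refine ⟨hyU, ?_⟩
      have h8 : A * ‖e‖ ≤ A * (κ * s) := mul_le_mul_of_nonneg_left hen.le hA0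
      have h9 : A * (κ * s) < s := by
        have : A * (κ * s) = (κ * A) * s := by ring
        rw [this]
        nlinarith
      have h10 : A * ‖e‖ = ‖L‖ * ‖e‖ + K * ‖e‖ := by rw [hA]; ring
      linarith
    exact h7.1

theorem patches (Ω : Set (En n)) (ho : IsOpen Ω) (hb : Bornology.IsBounded Ω) (hL : LipB Ω) :
    Patches Ω := by
  have hcc : IsCompact (closure Ω) := hb.isCompact_closure
  choose! r κ s1 ν hr hκ hκ1 hs1 hc using cone_loc Ω ho hL
  obtain ⟨T, hT⟩ := hcc.elim_nhds_subcover' (fun p _ => ball p (r p)) (fun p hp =>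
    ball_mem_nhds p (hr p hp))
  -- enumerate the finite set
  obtain ⟨m, e⟩ : ∃ m, Nonempty (Fin m ≃ T) := ⟨_, ⟨(Finset.equivFin T).symm⟩⟩
  obtain ⟨e⟩ := e
  let pt : Fin m → En n := fun i => ((e i : closure Ω) : En n)
  have hpt : ∀ i, pt i ∈ closure Ω := fun i => (e i : closure Ω).2
  have hcov : closure Ω ⊆ ⋃ i, ball (pt i) (r (pt i)) := by
    intro x hx
    have h1 := hT hx
    simp only [Set.mem_iUnion] at h1 ⊢
    obtain ⟨p, hp, hxp⟩ := h1
    exact ⟨e.symm ⟨p, hp⟩, by simpa [pt] using hxp⟩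
  -- common constants
  obtain ⟨κ0, hκ0, hκ01, hκ0le⟩ : ∃ κ0 : ℝ, 0 < κ0 ∧ κ0 ≤ 1 ∧ ∀ i, κ0 ≤ κ (pt i) := by
    have h1 : ∀ s : Finset (Fin m), ∃ κ0 : ℝ, 0 < κ0 ∧ κ0 ≤ 1 ∧ ∀ i ∈ s, κ0 ≤ κ (pt i) := by
      intro s
      induction s using Finset.induction_on with
      | empty => exact ⟨1, one_pos, le_rfl, fun i hi => absurd hi (Finset.notMem_empty i)⟩
      | insert a s _ ih =>
        obtain ⟨κ0, h0, h1, h2⟩ := ih
        refine ⟨min κ0 (κ (pt a)), lt_min h0 (hκ _ (hpt a)), (min_le_left _ _).trans h1, ?_⟩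
        intro i hi
        rcases Finset.mem_insert.1 hi with rfl | hi
        · exact min_le_right _ _
        · exact (min_le_left _ _).trans (h2 i hi)
    obtain ⟨κ0, h0, h1, h2⟩ := h1 Finset.univ
    exact ⟨κ0, h0, h1, fun i => h2 i (Finset.mem_univ i)⟩
  obtain ⟨s0, hs0, hs0le⟩ : ∃ s0 : ℝ, 0 < s0 ∧ ∀ i, s0 ≤ s1 (pt i) := by
    have h1 : ∀ s : Finset (Fin m), ∃ κ0 : ℝ, 0 < κ0 ∧ ∀ i ∈ s, κ0 ≤ s1 (pt i) := by
      intro s
      induction s using Finset.induction_on with
      | empty => exact ⟨1, one_pos, fun i hi => absurd hi (Finset.notMem_empty i)⟩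
      | insert a s _ ih =>
        obtain ⟨κ0, h0, h2⟩ := ih
        refine ⟨min κ0 (s1 (pt a)), lt_min h0 (hs1 _ (hpt a)), ?_⟩
        intro i hi
        rcases Finset.mem_insert.1 hi with rfl | hi
        · exact min_le_right _ _
        · exact (min_le_left _ _).trans (h2 i hi)
    obtain ⟨κ0, h0, h2⟩ := h1 Finset.univ
    exact ⟨κ0, h0, fun i => h2 i (Finset.mem_univ i)⟩
  obtain ⟨f, hf⟩ := SmoothPartitionOfUnity.exists_isSubordinate 𝓘(ℝ, En n)
    (isClosed_closure (s := Ω)) (fun i : Fin m => ball (pt i) (r (pt i))) (fun i => isOpen_ball)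
    hcov
  refine ⟨m, fun i => ball (pt i) (r (pt i)), fun i => ν (pt i), fun i => f i, κ0, s0, hκ0, hκ01,
    hs0, fun i => isOpen_ball, fun i => (hc (pt i) (hpt i)).mono (hκ0le i) (hs0le i), ?_, ?_, ?_,
    ?_, ?_⟩
  · intro i
    exact contMDiff_iff_contDiff.1 (f i).contMDiff
  · intro i
    exact isBounded_ball.isCompact_closure.of_isClosed_subset (isClosed_tsupport _)
      ((hf i).trans subset_closure)
  · intro i
    exact hf i
  · intro i x
    exact ⟨f.nonneg i x, f.le_one i x⟩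
  · intro x hx
    have h1 := f.sum_eq_one (subset_closure hx)
    rw [finsum_eq_sum_of_fintype] at h1
    exact h1

end Pool.Agent.Y262
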