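import Pool.Agent.Y262.Wey2

/-! Weyl's lemma of order one. -/

set_option autoImplicit false


open MeasureTheory Complex Filter Topology Metric
open scoped ContDiff ENNReal ComplexConjugate

namespace Pool.Agent.Y262

open BK BK.JC2 BK.JB6 BK.JB1.JKI

variable {n : ℕ}

theorem dz_congr {f g : En n → ℂ} {z : En n} (h : f =ᶠ[𝓝 z] g) (j : Fin n) :
    dz j f z = dz j g z := by
  unfold dz
  rw [h.fderiv_eq]

theorem dbar_congr {f g : En n → ℂ} {z : En n} (h : f =ᶠ[𝓝 z] g) (j : Fin n) :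
    dbar j f z = dbar j g z := by
  unfold dbar
  rw [h.fderiv_eq]

theorem sq_add_le (a b : ℝ≥0∞) : (a + b) ^ 2 ≤ 2 * (a ^ 2 + b ^ 2) := by
  have h := ENNReal.rpow_add_le_mul_rpow_add_rpow a b (p := 2) (by norm_num)
  have e : (2 : ℝ≥0∞) ^ ((2 : ℝ) - 1) = 2 := by
    norm_num
  rw [e] at h
  simpa only [ENNReal.rpow_ofNat] using h

theorem near_ball {Ω : Set (En n)} (ho : IsOpen Ω) {x : En n} {r : ℝ} (hr : 0 < r)
    (hx : closedBall x r ⊆ Ω) : ∀ᶠ y in 𝓝 x, closedBall y r ⊆ Ω := by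
  obtain ⟨δ, hδ, hsub⟩ := (isCompact_closedBall x r).exists_cthickening_subset_open ho hx
  filter_upwards [ball_mem_nhds x hδ] with y hy
  intro p hp
  apply hsub
  apply mem_cthickening_of_dist_le p (p - (y - x)) δ
  · rw [mem_closedBall, dist_eq_norm] at hp ⊢
    have : p - (y - x) - x = p - y := by abel
    rw [this]
    exact hp
  · rw [mem_ball, dist_eq_norm] at hy
    rw [dist_eq_norm, sub_sub_cancel]
    exact hy.le

theorem wey (Ω : Set (En n)) (ho : IsOpen Ω) (hb : Bornology.IsBounded Ω) : WeyS Ω := by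
  obtain ⟨C, hC, hPk⟩ := Pk_bd n
  have hfin : (volume : Measure (En n)) Ω < ⊤ := hb.measure_lt_top
  have hfm : IsFiniteMeasure ((volume : Measure (En n)).restrict Ω) :=
    ⟨by rw [Measure.restrict_apply_univ]; exact hfin⟩
  refine ⟨2 * C ^ 2, ENNReal.mul_ne_top (by norm_num) (ENNReal.pow_ne_top hC), ?_⟩
  intro c w hc hw hyp
  have hFi : Integrable (Ω.indicator c) := by
    rw [integrable_indicator_iff ho.measurableSet]
    exact hc.integrable (by norm_num)
  have hWi : ∀ k, Integrable (Ω.indicator (w k)) := by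
    intro k
    rw [integrable_indicator_iff ho.measurableSet]
    exact (hw k).integrable (by norm_num)
  have hFc : HasCompactSupport (Ω.indicator c) := by
    apply HasCompactSupport.of_support_subset_isCompact hb.isCompact_closure
    intro x hx
    apply subset_closure
    by_contra h
    exact hx (Set.indicator_of_notMem h _)
  obtain ⟨F, hF⟩ : ∃ F, F = Ω.indicator c := ⟨_, rfl⟩
  obtain ⟨W, hW⟩ : ∃ W : Fin n → En n → ℂ, W = fun k => Ω.indicator (w k) := ⟨_, rfl⟩
  have hFi' : Integrable F := by rw [hF]; exact hFi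
  have hWi' : ∀ k, Integrable (W k) := by rw [hW]; exact hWi
  have hFc' : HasCompactSupport F := by rw [hF]; exact hFc
  have hol : ∀ k (t : ℝ), 0 < t → ∀ z, closedBall z t ⊆ Ω →
      DifferentiableAt ℂ (Ak (W k) F k t) z := by
    intro k t ht z hz
    rw [hF, hW]
    exact Ak_hol ho (hWi k) hFi (fun j ρ hρ => hyp j k ρ hρ) ht hz
  -- radii
  have hr : ∀ z : En n, ∃ r : ℝ, z ∈ Ω → 0 < r ∧ closedBall z (3 * r) ⊆ Ω := by
    intro z
    by_cases hz : z ∈ Ω
    · obtain ⟨ε, hε, hsub⟩ := Metric.nhds_basis_closedBall.mem_iff.1 (ho.mem_nhds hz)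
      refine ⟨ε / 3, fun _ => ⟨by linarith, ?_⟩⟩
      rw [mul_div_cancel₀ ε three_ne_zero]
      exact hsub
    · exact ⟨0, fun h => absurd h hz⟩
  choose r hr using hr
  have hcl : ∀ k, ∀ (s : ℝ) (z : En n), 0 < s → closedBall z (2 * s) ⊆ Ω →
      Ak (W k) F k (r z) z = Ak (W k) F k s z := by
    intro k s z hs hsub
    have hz : z ∈ Ω := hsub (mem_closedBall_self (by linarith))
    obtain ⟨h1, h2⟩ := hr z hz
    apply Ak_const (hWi' k) hFi' hFc' k (hol k) h1 hs
    rcases le_or_gt s (2 * r z) with h | h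
    · exact (closedBall_subset_closedBall (by linarith)).trans h2
    · exact (closedBall_subset_closedBall (by linarith)).trans hsub
  obtain ⟨a, ha⟩ : ∃ a : Fin n → En n → ℂ, a = fun k z => Ak (W k) F k (r z) z := ⟨_, rfl⟩
  have ha1 : ∀ k, ∀ (s : ℝ) (z : En n), 0 < s → closedBall z (2 * s) ⊆ Ω →
      a k z = Ak (W k) F k s z := by
    intro k s z hs hsub
    rw [ha]
    exact hcl k s z hs hsub
  have ha2 : ∀ k, ∀ (s : ℝ) (z : En n), 0 < s → closedBall z (2 * s) ⊆ Ω →
      a k =ᶠ[𝓝 z] Ak (W k) F k s := by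
    intro k s z hs hsub
    filter_upwards [near_ball ho (by linarith) hsub] with y hy
    exact ha1 k s y hs hy
  have hball : ∀ z ∈ Ω, ∃ s : ℝ, 0 < s ∧ closedBall z (2 * s) ⊆ Ω := by
    intro z hz
    obtain ⟨h1, h2⟩ := hr z hz
    exact ⟨r z, h1, (closedBall_subset_closedBall (by linarith)).trans h2⟩
  have haD : ∀ k, ∀ z ∈ Ω, DifferentiableAt ℂ (a k) z := by
    intro k z hz
    obtain ⟨s, hs, hsub⟩ := hball z hz
    apply DifferentiableAt.congr_of_eventuallyEq _ (ha2 k s z hs hsub)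
    exact hol k s hs z ((closedBall_subset_closedBall (by linarith)).trans hsub)
  obtain ⟨b, hb'⟩ : ∃ b : Fin n → Fin n → En n → ℂ, b = fun j k x =>
    fderiv ℂ (a k) x (Pi.single j 1) - fderiv ℂ (a j) x (Pi.single k 1) := ⟨_, rfl⟩
  -- formula for `b`
  have hda : ∀ j k, ∀ (s : ℝ) (z : En n), 0 < s → closedBall z (2 * s) ⊆ Ω →
      fderiv ℂ (a k) z (Pi.single j 1) = dz j (Ak (W k) F k s) z := by
    intro j k s z hs hsub
    have hz : z ∈ Ω := hsub (mem_closedBall_self (by linarith))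
    rw [← dz_of_diffAt _ z (haD k z hz), dz_congr (ha2 k s z hs hsub)]
  have hdA : ∀ j k (s : ℝ) (z : En n), 0 < s → dz j (Ak (W k) F k s) z =
      cG (W k) (dz j (Pk s)) z + dz j (dz k (cG F (Pk s))) z := by
    intro j k s z hs
    have hPs := Pk_smooth (n := n) s
    have hPc := Pk_compact (n := n) hs
    have h1 := dz_add (f := cG (W k) (Pk s)) (g := cG F (dz k (Pk s))) (z := z)
      ((cG_smooth (hWi' k) hPs hPc).differentiable (by simp) z)
      ((cG_smooth hFi' (dz_smooth hPs k) (dz_cpt hPc k)).differentiable (by simp) z) j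
    rw [cG_dz (hWi' k) hPs hPc, ← cG_dz hFi' hPs hPc] at h1
    rw [← h1, cG_dz hFi' hPs hPc]
    rfl
  have hbf : ∀ j k, ∀ (s : ℝ) (z : En n), 0 < s → closedBall z (2 * s) ⊆ Ω →
      b j k z = cG (W k) (dz j (Pk s)) z - cG (W j) (dz k (Pk s)) z := by
    intro j k s z hs hsub
    rw [hb']
    simp only
    rw [hda j k s z hs hsub, hda k j s z hs hsub, hdA j k s z hs, hdA k j s z hs,
      dz_comm (cG_smooth hFi' (Pk_smooth s) (Pk_compact hs)) k j]
    ring
  refine ⟨a, b, fun k z hz => (haD k z hz).differentiableWithinAt, ?_, ?_, ?_, ?_, ?_⟩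
  · -- holomorphy of `b`
    intro j k z hz
    apply DifferentiableAt.differentiableWithinAt
    obtain ⟨s, hs, hsub⟩ := hball z hz
    have hPs := Pk_smooth (n := n) s
    have hPc := Pk_compact (n := n) hs
    have hpd : ∀ j k, DifferentiableAt ℂ (dz j (Ak (W k) F k s)) z := by
      intro j k
      have hAs := Ak_smooth (hWi' k) hFi' k hs
      apply diffAt_of_dbar
      · exact (dz_smooth hAs j).differentiable (by simp) z
      · intro m
        rw [dbar_dz_comm hAs j m]
        have h1 : dbar m (Ak (W k) F k s) =ᶠ[𝓝 z] fun _ => (0 : ℂ) := by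
          filter_upwards [near_ball ho (by linarith) hsub] with y hy
          exact dbar_of_diffAt _ y (hol k s hs y
            ((closedBall_subset_closedBall (by linarith)).trans hy)) m
        rw [dz_congr h1]
        simp [dz]
    have h2 : b j k =ᶠ[𝓝 z] fun y => dz j (Ak (W k) F k s) y - dz k (Ak (W j) F j s) y := by
      filter_upwards [near_ball ho (by linarith) hsub] with y hy
      rw [hb']
      simp only
      rw [hda j k s y hs hy, hda k j s y hs hy]
    apply DifferentiableAt.congr_of_eventuallyEq _ h2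
    exact (hpd j k).sub (hpd k j)
  · intro j k x hx
    rw [hb']
  · intro k ρ hρ
    apply Ak_weak ho (hWi k) hFi _ hρ
    intro s x hs hsub
    have := ha1 k s x hs hsub
    rw [hW, hF] at this
    exact this
  · intro k x s hs hsub
    rw [ha1 k s x hs hsub]
    obtain ⟨p1, p2⟩ := hPk s hs x (W k)
    obtain ⟨q1, q2⟩ := hPk s hs x F
    have hbs : ball x s ⊆ Ω :=
      (ball_subset_closedBall.trans (closedBall_subset_closedBall (by linarith))).trans hsub
    have eW : ∀ k, ∫⁻ y in ball x s, ‖W k y‖ₑ = ∫⁻ y in ball x s, ‖w k y‖ₑ := by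
      intro k
      apply setLIntegral_congr_fun measurableSet_ball
      intro y hy
      rw [hW]
      simp only
      rw [Set.indicator_of_mem (hbs hy)]
    have eF : ∫⁻ y in ball x s, ‖F y‖ₑ = ∫⁻ y in ball x s, ‖c y‖ₑ := by
      apply setLIntegral_congr_fun measurableSet_ball
      intro y hy
      rw [hF]
      simp only
      rw [Set.indicator_of_mem (hbs hy)]
    rw [eW] at p1
    rw [eF] at q2
    have mw : AEMeasurable (fun y => ‖w k y‖ₑ) (volume.restrict (ball x s)) :=
      ((hw k).1.mono_measure (Measure.restrict_mono hbs le_rfl)).enorm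
    have mc : AEMeasurable (fun y => ‖c y‖ₑ) (volume.restrict (ball x s)) :=
      (hc.1.mono_measure (Measure.restrict_mono hbs le_rfl)).enorm
    calc ENNReal.ofReal s ^ 2 * ‖Ak (W k) F k s x‖ₑ ^ 2
        = (ENNReal.ofReal s * ‖Ak (W k) F k s x‖ₑ) ^ 2 := by ring
      _ ≤ (ENNReal.ofReal s * (‖cG (W k) (Pk s) x‖ₑ + ‖cG F (dz k (Pk s)) x‖ₑ)) ^ 2 := by
          gcongr
          exact enorm_add_le _ _
      _ ≤ (C * (((volume : Measure (En n)) (ball x s))⁻¹ *
          ∫⁻ y in ball x s, (ENNReal.ofReal s * ‖w k y‖ₑ + ‖c y‖ₑ))) ^ 2 := by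
          refine pow_le_pow_left' ?_ 2
          rw [mul_add, lintegral_add_right' _ mc, lintegral_const_mul' _ _ ENNReal.ofReal_ne_top,
            mul_add, mul_add]
          apply add_le_add
          · refine (mul_le_mul' (le_refl (ENNReal.ofReal s)) p1).trans (le_of_eq ?_)
            ring
          · exact q2 k
      _ = C ^ 2 * (((volume : Measure (En n)) (ball x s))⁻¹ *
          ∫⁻ y in ball x s, (ENNReal.ofReal s * ‖w k y‖ₑ + ‖c y‖ₑ)) ^ 2 := by ring
      _ ≤ C ^ 2 * (((volume : Measure (En n)) (ball x s))⁻¹ *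
          ∫⁻ y in ball x s, (ENNReal.ofReal s * ‖w k y‖ₑ + ‖c y‖ₑ) ^ 2) := by
          gcongr
          exact jensen_ball x hs _ ((mw.const_mul _).add mc)
      _ ≤ C ^ 2 * (((volume : Measure (En n)) (ball x s))⁻¹ *
          ∫⁻ y in ball x s, 2 * (ENNReal.ofReal s ^ 2 * ‖w k y‖ₑ ^ 2 + ‖c y‖ₑ ^ 2)) := by
          gcongr with y
          rw [← mul_pow]
          exact sq_add_le _ _
      _ = _ := by
          rw [lintegral_const_mul' _ _ (by norm_num)]
          ring
  · intro j k x s hs hsub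
    rw [hbf j k s x hs hsub]
    obtain ⟨p1, p2⟩ := hPk s hs x (W k)
    obtain ⟨q1, q2⟩ := hPk s hs x (W j)
    have hbs : ball x s ⊆ Ω :=
      (ball_subset_closedBall.trans (closedBall_subset_closedBall (by linarith))).trans hsub
    have eW : ∀ k, ∫⁻ y in ball x s, ‖W k y‖ₑ = ∫⁻ y in ball x s, ‖w k y‖ₑ := by
      intro k
      apply setLIntegral_congr_fun measurableSet_ball
      intro y hy
      rw [hW]
      simp only
      rw [Set.indicator_of_mem (hbs hy)]
    rw [eW] at p2 q2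
    have mw : ∀ k, AEMeasurable (fun y => ‖w k y‖ₑ) (volume.restrict (ball x s)) := fun k =>
      ((hw k).1.mono_measure (Measure.restrict_mono hbs le_rfl)).enorm
    calc ENNReal.ofReal s ^ 2 * ‖cG (W k) (dz j (Pk s)) x - cG (W j) (dz k (Pk s)) x‖ₑ ^ 2
        = (ENNReal.ofReal s * ‖cG (W k) (dz j (Pk s)) x - cG (W j) (dz k (Pk s)) x‖ₑ) ^ 2 := by ring
      _ ≤ (ENNReal.ofReal s * (‖cG (W k) (dz j (Pk s)) x‖ₑ + ‖cG (W j) (dz k (Pk s)) x‖ₑ)) ^ 2 := by
          gcongr
          exact enorm_sub_le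
      _ ≤ (C * (((volume : Measure (En n)) (ball x s))⁻¹ *
          ∫⁻ y in ball x s, (‖w j y‖ₑ + ‖w k y‖ₑ))) ^ 2 := by
          refine pow_le_pow_left' ?_ 2
          rw [mul_add, lintegral_add_right' _ (mw k), mul_add, mul_add, add_comm]
          exact add_le_add (q2 k) (p2 j)
      _ = C ^ 2 * (((volume : Measure (En n)) (ball x s))⁻¹ *
          ∫⁻ y in ball x s, (‖w j y‖ₑ + ‖w k y‖ₑ)) ^ 2 := by ring
      _ ≤ C ^ 2 * (((volume : Measure (En n)) (ball x s))⁻¹ *
          ∫⁻ y in ball x s, (‖w j y‖ₑ + ‖w k y‖ₑ) ^ 2) := by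
          gcongr
          exact jensen_ball x hs _ ((mw j).add (mw k))
      _ ≤ C ^ 2 * (((volume : Measure (En n)) (ball x s))⁻¹ *
          ∫⁻ y in ball x s, 2 * (‖w j y‖ₑ ^ 2 + ‖w k y‖ₑ ^ 2)) := by
          gcongr with y
          exact sq_add_le _ _
      _ = _ := by
          rw [lintegral_const_mul' _ _ (by norm_num)]
          ring

end Pool.Agent.Y262
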