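import Pool.Agent.Y262.Fin
import Pool.Agent.Y262.Patches
import Pool.Agent.Y262.Hardy2
import Pool.Agent.Y262.Wey3

/-! Assembly: first order Sobolev solvability of `∂̄` on bounded pseudoconvex Lipschitz domains. -/

set_option autoImplicit false

open MeasureTheory Complex Filter Topology Metric
open scoped ContDiff ENNReal ComplexConjugate

namespace Pool.Agent.Y262

open BK

variable {n : ℕ}

theorem main (Ω : Set (En n)) (ho : IsOpen Ω) (hb : Bornology.IsBounded Ω)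
    (hne : (Ωᶜ).Nonempty) (hP : PscC Ω) (hL : LipB Ω)
    (f : Fin n → En n → ℂ)
    (hf : ∀ j : Fin n, MemLp (f j) 2 (volume.restrict Ω) ∧
        ∀ e : Fin n → ℂ, ∃ h : (Fin n → ℂ) → ℂ, MemLp h 2 (volume.restrict Ω) ∧
          ∀ ψ : (Fin n → ℂ) → ℂ, IsTest Ω ψ →
            ∫ x in Ω, f j x * fderiv ℝ ψ x e = - ∫ x in Ω, h x * ψ x)
    (hcl : ∀ j k : Fin n, ∀ ψ : (Fin n → ℂ) → ℂ, IsTest Ω ψ →
          ∫ x in Ω, f j x * dbar k ψ x = ∫ x in Ω, f k x * dbar j ψ x) :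
    ∃ u : En n → ℂ,
        (MemLp u 2 (volume.restrict Ω) ∧
          ∀ e : Fin n → ℂ, ∃ h : (Fin n → ℂ) → ℂ, MemLp h 2 (volume.restrict Ω) ∧
            ∀ ψ : (Fin n → ℂ) → ℂ, IsTest Ω ψ →
              ∫ x in Ω, u x * fderiv ℝ ψ x e = - ∫ x in Ω, h x * ψ x) ∧
        ∀ j : Fin n, ∀ ψ : (Fin n → ℂ) → ℂ, IsTest Ω ψ →
          ∫ x in Ω, u x * dbar j ψ x = - ∫ x in Ω, f j x * ψ x := by
  have hHor := hor Ω ho hb hP
  have hW := wey Ω ho hb
  have hA := avg Ω ho hb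
  have hHom := hom Ω ho
  have hHardy := hardy Ω ho hb hne
  have hPa := patches Ω ho hb hL
  have hstep := step Ω ho hb hW hA hHom hHardy hPa hHor
  exact final Ω hHor (fun c w hc hw hcw => iter Ω ho hb hstep c w hc hw hcw) f hf hcl

end Pool.Agent.Y262
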