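import Pool.Agent.Y262.Hor1

/-! Basic facts about the weighted norms. -/

set_option autoImplicit false

open MeasureTheory Complex Filter Topology Metric
open scoped ContDiff InnerProductSpace ENNReal ComplexConjugate

namespace Pool.Agent.Y262

open BK

variable {n : ℕ}

theorem wt_cont (t : ℝ) : Continuous (wt t : En n → ℝ≥0∞) := by
  unfold wt
  exact ENNReal.continuous_ofReal.comp (Real.continuous_exp.comp (tN_smooth t).continuous.neg)

theorem wt_ne_top (t : ℝ) (x : En n) : wt t x ≠ ⊤ := ENNReal.ofReal_ne_top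

theorem wt_ne_zero (t : ℝ) (x : En n) : wt t x ≠ 0 := by
  unfold wt
  rw [Ne, ENNReal.ofReal_eq_zero, not_le]
  exact Real.exp_pos _

theorem wt_le_one {t : ℝ} (ht : 0 ≤ t) (x : En n) : wt t x ≤ 1 := by
  unfold wt
  rw [ENNReal.ofReal_le_one, Real.exp_le_one_iff]
  have := mul_nonneg ht (N2_nonneg x)
  linarith

theorem enorm_sq_mul_wt (t : ℝ) (x : En n) (z : ℂ) :
    ‖z‖ₑ ^ 2 * wt t x = ENNReal.ofReal (‖z‖ ^ 2 * Real.exp (-(t * N2 x))) := by
  unfold wt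
  rw [ENNReal.ofReal_mul (by positivity), ENNReal.ofReal_pow (norm_nonneg _), ofReal_norm]

theorem N2_bound {Ω : Set (En n)} (hb : Bornology.IsBounded Ω) :
    ∃ R : ℝ, 0 ≤ R ∧ (∀ x ∈ Ω, ‖x‖ ≤ R) ∧ ∀ x ∈ Ω, N2 x ≤ R := by
  obtain ⟨R, hR⟩ := hb.exists_norm_le
  have hR0 : ∀ x ∈ Ω, 0 ≤ R := fun x hx => (norm_nonneg x).trans (hR x hx)
  refine ⟨max 0 R + n * (max 0 R) ^ 2, by positivity, fun x hx => ?_, fun x hx => ?_⟩
  · have h1 := hR x hx
    have h2 : R ≤ max 0 R := le_max_right _ _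
    have h3 : 0 ≤ (n : ℝ) * (max 0 R) ^ 2 := by positivity
    linarith
  · have h1 : N2 x ≤ ∑ _j : Fin n, (max 0 R) ^ 2 := by
      unfold N2
      apply Finset.sum_le_sum
      intro j _
      apply pow_le_pow_left₀ (norm_nonneg _)
      exact (norm_le_pi_norm x j).trans ((hR x hx).trans (le_max_right _ _))
    rw [Finset.sum_const, Finset.card_univ, Fintype.card_fin, nsmul_eq_mul] at h1
    have h2 : 0 ≤ max 0 R := le_max_left _ _
    linarith

theorem int_wt {Ω : Set (En n)} {f : En n → ℂ} (hf : MemLp f 2 (volume.restrict Ω)) {t : ℝ}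
    (ht : 0 ≤ t) : Integrable (fun x => ‖f x‖ ^ 2 * Real.exp (-(t * N2 x)))
      (volume.restrict Ω) := by
  have h1 : Integrable (fun x => ‖f x‖ ^ 2) (volume.restrict Ω) := hf.integrable_norm_pow
    (by norm_num)
  refine h1.mono' ?_ (Eventually.of_forall fun x => ?_)
  · exact h1.aestronglyMeasurable.mul
      (Real.continuous_exp.comp (tN_smooth t).continuous.neg).aestronglyMeasurable
  · rw [Real.norm_of_nonneg (by positivity)]
    apply mul_le_of_le_one_right (by positivity)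
    apply Real.exp_le_one_iff.2
    have := mul_nonneg ht (N2_nonneg x)
    linarith

theorem nt_eq {Ω : Set (En n)} {f : En n → ℂ} (hf : MemLp f 2 (volume.restrict Ω)) {t : ℝ}
    (ht : 0 ≤ t) :
    nt Ω t f = ENNReal.ofReal (∫ x in Ω, ‖f x‖ ^ 2 * Real.exp (-(t * N2 x))) := by
  unfold nt
  simp only [enorm_sq_mul_wt]
  rw [ofReal_integral_eq_lintegral_ofReal (int_wt hf ht)]
  exact Eventually.of_forall fun x => by positivity

theorem nt_ne_top {Ω : Set (En n)} {f : En n → ℂ} (hf : MemLp f 2 (volume.restrict Ω)) {t : ℝ}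
    (ht : 0 ≤ t) : nt Ω t f ≠ ⊤ := by
  rw [nt_eq hf ht]
  exact ENNReal.ofReal_ne_top

/-- the unweighted norm is controlled by the weighted one -/
theorem nt_zero_le {Ω : Set (En n)} (ho : IsOpen Ω) (hb : Bornology.IsBounded Ω) {t : ℝ}
    (ht : 0 ≤ t) : ∃ C : ℝ≥0∞, C ≠ ⊤ ∧ ∀ f : En n → ℂ,
      ∫⁻ x in Ω, ‖f x‖ₑ ^ 2 ≤ C * nt Ω t f := by
  obtain ⟨R, hR0, -, hR⟩ := N2_bound hb
  refine ⟨ENNReal.ofReal (Real.exp (t * R)), ENNReal.ofReal_ne_top, fun f => ?_⟩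
  unfold nt
  rw [← lintegral_const_mul' _ _ ENNReal.ofReal_ne_top]
  apply setLIntegral_mono' ho.measurableSet
  intro x hx
  have h1 : 1 ≤ ENNReal.ofReal (Real.exp (t * R)) * wt t x := by
    unfold wt
    rw [← ENNReal.ofReal_mul (Real.exp_pos _).le, ← Real.exp_add, ENNReal.one_le_ofReal]
    apply Real.one_le_exp
    have := mul_le_mul_of_nonneg_left (hR x hx) ht
    linarith
  calc ‖f x‖ₑ ^ 2 = ‖f x‖ₑ ^ 2 * 1 := (mul_one _).symm
    _ ≤ ‖f x‖ₑ ^ 2 * (ENNReal.ofReal (Real.exp (t * R)) * wt t x) := by gcongr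
    _ = _ := by ring

theorem memLp_of_nt {Ω : Set (En n)} (ho : IsOpen Ω) (hb : Bornology.IsBounded Ω) {t : ℝ}
    (ht : 0 ≤ t) {f : En n → ℂ} (hm : AEStronglyMeasurable f (volume.restrict Ω))
    (h : nt Ω t f ≠ ⊤) : MemLp f 2 (volume.restrict Ω) := by
  obtain ⟨C, hC, hC2⟩ := nt_zero_le ho hb ht
  refine ⟨hm, ?_⟩
  rw [eLpNorm_lt_top_iff_lintegral_rpow_enorm_lt_top (by norm_num) (by norm_num)]
  have h1 : ∫⁻ x in Ω, ‖f x‖ₑ ^ (ENNReal.toReal 2) = ∫⁻ x in Ω, ‖f x‖ₑ ^ 2 := by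
    congr 1
    funext x
    rw [ENNReal.toReal_ofNat, ENNReal.rpow_ofNat]
  rw [h1]
  exact (hC2 f).trans_lt (ENNReal.mul_lt_top hC.lt_top h.lt_top)

end Pool.Agent.Y262
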