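import Pool.Agent.H314.BK.Defs

/-! Definitions and the statements of the lemmas used for first order Sobolev solvability of `∂̄`
on bounded pseudoconvex Lipschitz domains (MP_a7cd91_an, S05731). -/

set_option autoImplicit false

open MeasureTheory Complex Filter Topology Metric
open scoped ContDiff ENNReal ComplexConjugate

namespace Pool.Agent.Y262

open BK

variable {n : ℕ}

/-- the squared euclidean norm -/
noncomputable def N2 (x : En n) : ℝ := ∑ j, ‖x j‖ ^ 2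

/-- the weight `e^{-t|x|²}` -/
noncomputable def wt (t : ℝ) (x : En n) : ℝ≥0∞ := ENNReal.ofReal (Real.exp (-(t * N2 x)))

/-- weighted squared norm -/
noncomputable def nt (Ω : Set (En n)) (t : ℝ) (f : En n → ℂ) : ℝ≥0∞ :=
  ∫⁻ x in Ω, ‖f x‖ₑ ^ 2 * wt t x

/-- truncated distance to the complement (in the sup norm of `ℂⁿ`) -/
noncomputable def dd (Ω : Set (En n)) (t : ℝ) (x : En n) : ℝ := min (infDist x Ωᶜ) t⁻¹

/-- weighted squared norm with the truncated distance -/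
noncomputable def nd (Ω : Set (En n)) (t : ℝ) (f : En n → ℂ) : ℝ≥0∞ :=
  ∫⁻ x in Ω, ENNReal.ofReal (dd Ω t x) ^ 2 * ‖f x‖ₑ ^ 2 * wt t x

/-- the distribution one-form `∂ c + w` has holomorphic coefficients -/
def WHol (Ω : Set (En n)) (c : En n → ℂ) (w : Fin n → En n → ℂ) : Prop :=
  ∀ (j k : Fin n) (ρ : En n → ℂ), IsTest Ω ρ →
    ∫ x in Ω, (w k x * dbar j ρ x - c x * dz k (dbar j ρ) x) = 0

/-- `b` is the exterior derivative of the holomorphic one-form `a` on `Ω` -/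
def IsDa (Ω : Set (En n)) (a : Fin n → En n → ℂ) (b : Fin n → Fin n → En n → ℂ) : Prop :=
  ∀ j k, ∀ x ∈ Ω, b j k x = fderiv ℂ (a k) x (Pi.single j 1) - fderiv ℂ (a j) x (Pi.single k 1)

/-- Weyl's lemma of order one with pointwise bounds -/
def WeyS (Ω : Set (En n)) : Prop := ∃ C : ℝ≥0∞, C ≠ ⊤ ∧
  ∀ (c : En n → ℂ) (w : Fin n → En n → ℂ), MemLp c 2 (volume.restrict Ω) →
    (∀ k, MemLp (w k) 2 (volume.restrict Ω)) → WHol Ω c w →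
    ∃ (a : Fin n → En n → ℂ) (b : Fin n → Fin n → En n → ℂ),
      (∀ k, DifferentiableOn ℂ (a k) Ω) ∧ (∀ j k, DifferentiableOn ℂ (b j k) Ω) ∧
      IsDa Ω a b ∧
      (∀ k ρ, IsTest Ω ρ → ∫ x in Ω, (w k x * ρ x - c x * dz k ρ x) = ∫ x in Ω, a k x * ρ x) ∧
      (∀ (k : Fin n) (x : En n) (r : ℝ), 0 < r → closedBall x (2 * r) ⊆ Ω →
        ENNReal.ofReal r ^ 2 * ‖a k x‖ₑ ^ 2 ≤ C * ((volume (ball x r))⁻¹ *
          ∫⁻ y in ball x r, (ENNReal.ofReal r ^ 2 * ‖w k y‖ₑ ^ 2 + ‖c y‖ₑ ^ 2))) ∧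
      (∀ (j k : Fin n) (x : En n) (r : ℝ), 0 < r → closedBall x (2 * r) ⊆ Ω →
        ENNReal.ofReal r ^ 2 * ‖b j k x‖ₑ ^ 2 ≤ C * ((volume (ball x r))⁻¹ *
          ∫⁻ y in ball x r, (‖w j y‖ₑ ^ 2 + ‖w k y‖ₑ ^ 2)))

/-- averages over balls of radius `dd/4` are bounded in weighted `L¹` -/
def AvgS (Ω : Set (En n)) : Prop := ∃ C : ℝ≥0∞, C ≠ ⊤ ∧ ∀ t : ℝ, 1 ≤ t →
  ∀ F : En n → ℝ≥0∞, AEMeasurable F (volume.restrict Ω) →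
    ∫⁻ x in Ω, ((volume (ball x (dd Ω t x / 4)))⁻¹ *
      ∫⁻ y in ball x (dd Ω t x / 4), F y) * wt t x ≤ C * ∫⁻ y in Ω, F y * wt t y

/-- uniform cone condition on the patch `U` with axis `ν` -/
def Cone (Ω U : Set (En n)) (ν : En n) (κ s1 : ℝ) : Prop :=
  ∀ z ∈ Ω ∩ U, ∀ s : ℝ, 0 < s → s ≤ s1 → ball (z + s • ν) (κ * s) ⊆ Ω

/-- Hardy inequality along the axis of the cones -/
def HardyS (Ω : Set (En n)) : Prop := ∀ (U : Set (En n)) (ν : En n) (κ s1 : ℝ), IsOpen U →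
  0 < κ → κ ≤ 1 → 0 < s1 → Cone Ω U ν κ s1 → ∃ C : ℝ≥0∞, C ≠ ⊤ ∧
    ∀ t : ℝ, 1 ≤ t → s1⁻¹ ≤ t → ∀ h : En n → ℂ, ContinuousOn h Ω →
      (∫⁻ z in Ω ∩ U, (∫⁻ s in Set.Ioc (0 : ℝ) t⁻¹, ‖h (z + s • ν)‖ₑ) ^ 2 * wt t z ≤
        C * nd Ω t h) ∧
      (∫⁻ z in Ω ∩ U, ‖h (z + t⁻¹ • ν)‖ₑ ^ 2 * wt t z ≤ C * (ENNReal.ofReal t ^ 2 * nd Ω t h))

/-- the homotopy formula along the axis of the cones, in weak form -/
def HomS (Ω : Set (En n)) : Prop := ∀ (V : Set (En n)) (ν : En n) (s0 : ℝ), IsOpen V →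
  V ⊆ Ω → 0 < s0 → (∀ z ∈ V, ∀ s ∈ Set.Icc (0 : ℝ) s0, z + s • ν ∈ Ω) →
  (∀ h : En n → ℂ, DifferentiableOn ℂ h Ω → ∀ (m : Fin n) (ρ : En n → ℂ), IsTest V ρ →
    ∫ z in V, (∫ s in (0 : ℝ)..s0, h (z + s • ν)) * dbar m ρ z = 0 ∧
    ∫ z in V, h (z + s0 • ν) * dbar m ρ z = 0) ∧
  (∀ (a : Fin n → En n → ℂ) (b : Fin n → Fin n → En n → ℂ),
    (∀ k, DifferentiableOn ℂ (a k) Ω) → (∀ j k, DifferentiableOn ℂ (b j k) Ω) → IsDa Ω a b →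
    ∀ (k : Fin n) (ρ : En n → ℂ), IsTest V ρ →
      ∫ z in V, (∑ j, ν j * ∫ s in (0 : ℝ)..s0, a j (z + s • ν)) * dz k ρ z =
        ∫ z in V, (a k z - a k (z + s0 • ν) +
          ∑ j, ν j * ∫ s in (0 : ℝ)..s0, b j k (z + s • ν)) * ρ z)

/-- the boundary condition of the problem -/
def LipB (Ω : Set (En n)) : Prop :=
  ∀ p ∈ frontier Ω, ∃ U ∈ nhds p, ∃ L : (En n) →L[ℝ] ℝ, ∃ v : En n, L v = 1 ∧
    ∃ g : En n → ℝ, ∃ K : NNReal, LipschitzWith K g ∧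
      (∀ (x : En n) (t : ℝ), g (x + t • v) = g x) ∧
      Ω ∩ U = {x | x ∈ U ∧ L x < g x}

/-- a finite family of patches with cones and a partition of unity -/
def Patches (Ω : Set (En n)) : Prop :=
  ∃ (m : ℕ) (U : Fin m → Set (En n)) (ν : Fin m → En n) (χ : Fin m → En n → ℝ) (κ s1 : ℝ),
    0 < κ ∧ κ ≤ 1 ∧ 0 < s1 ∧ (∀ i, IsOpen (U i)) ∧ (∀ i, Cone Ω (U i) (ν i) κ s1) ∧
    (∀ i, ContDiff ℝ ∞ (χ i)) ∧ (∀ i, HasCompactSupport (χ i)) ∧ (∀ i, tsupport (χ i) ⊆ U i) ∧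
    (∀ i x, 0 ≤ χ i x ∧ χ i x ≤ 1) ∧ ∀ x ∈ Ω, ∑ i, χ i x = 1

/-- Hörmander's theorem with the weight `t|x|²` -/
def HorS (Ω : Set (En n)) : Prop := ∀ t : ℝ, 0 < t → ∀ g : Fin n → En n → ℂ,
  (∀ j, MemLp (g j) 2 (volume.restrict Ω)) →
  (∀ j k ρ, IsTest Ω ρ → ∫ x in Ω, g j x * dbar k ρ x = ∫ x in Ω, g k x * dbar j ρ x) →
  ∃ c : En n → ℂ, MemLp c 2 (volume.restrict Ω) ∧
    (∀ j ρ, IsTest Ω ρ → ∫ x in Ω, c x * dbar j ρ x = - ∫ x in Ω, g j x * ρ x) ∧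
    nt Ω t c ≤ ENNReal.ofReal (2 / t) * ∑ j, nt Ω t (g j)

end Pool.Agent.Y262
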