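import Pool.Agent.Y262.Iter
import Pool.Statements.S05731

/-! Final assembly. -/

set_option autoImplicit false

open MeasureTheory Complex Filter Topology Metric
open scoped ContDiff InnerProductSpace ENNReal ComplexConjugate

namespace Pool.Agent.Y262

open BK BK.JB3 BK.JB6

variable {n : ℕ}

theorem fderiv_dir (ψ : En n → ℂ) (x e : En n) :
    fderiv ℝ ψ x e = ∑ k, (e k * dz k ψ x + conj (e k) * dbar k ψ x) := by
  obtain ⟨L, hL⟩ : ∃ L, L = fderiv ℝ ψ x := ⟨_, rfl⟩
  have h1 : ∀ (k : Fin n) (c : ℂ), (Pi.single k c : En n) =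
      c.re • (Pi.single k (1 : ℂ) : En n) + c.im • (Pi.single k I : En n) := by
    intro k c
    ext i
    rcases eq_or_ne i k with rfl | hik
    · simp [Complex.re_add_im]
    · simp [hik]
  have h2 : e = ∑ k, Pi.single k (e k) := (Finset.univ_sum_single e).symm
  rw [← hL]
  conv_lhs => rw [h2, map_sum]
  apply Finset.sum_congr rfl
  intro k _
  rw [h1, map_add, map_smul, map_smul, real_smul, real_smul]
  unfold dz dbar
  rw [← hL]
  have h3 : (e k) = ((e k).re : ℂ) + ((e k).im : ℂ) * I := (Complex.re_add_im _).symm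
  have h4 : conj (e k) = ((e k).re : ℂ) - ((e k).im : ℂ) * I := by
    conv_lhs => rw [h3]
    rw [map_add, map_mul, Complex.conj_ofReal, Complex.conj_ofReal, Complex.conj_I]
    ring
  rw [h4]
  nth_rewrite 3 [h3]
  linear_combination ((e k).im : ℂ) * L (Pi.single k I) * I_mul_I

theorem final (Ω : Set (En n)) (hHor : HorS Ω)
    (hIter : ∀ (c : En n → ℂ) (w : Fin n → En n → ℂ), MemLp c 2 (volume.restrict Ω) →
      (∀ k, MemLp (w k) 2 (volume.restrict Ω)) → WHol Ω c w →
      ∃ (g : En n → ℂ) (η : Fin n → En n → ℂ),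
      MemLp g 2 (volume.restrict Ω) ∧ (∀ k, MemLp (η k) 2 (volume.restrict Ω)) ∧
      (∀ j ρ, IsTest Ω ρ → ∫ x in Ω, g x * dbar j ρ x = 0) ∧
      (∀ k ρ, IsTest Ω ρ → ∫ x in Ω, (w k x * ρ x - c x * dz k ρ x) =
        ∫ x in Ω, (η k x * ρ x - g x * dz k ρ x)))
    (f : Fin n → En n → ℂ)
    (hf : ∀ j : Fin n, MemLp (f j) 2 (volume.restrict Ω) ∧
        ∀ e : Fin n → ℂ, ∃ h : (Fin n → ℂ) → ℂ, MemLp h 2 (volume.restrict Ω) ∧
          ∀ ψ : (Fin n → ℂ) → ℂ, IsTest Ω ψ →
            ∫ x in Ω, f j x * fderiv ℝ ψ x e = - ∫ x in Ω, h x * ψ x)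
    (hcl : ∀ j k : Fin n, ∀ ψ : (Fin n → ℂ) → ℂ, IsTest Ω ψ →
          ∫ x in Ω, f j x * dbar k ψ x = ∫ x in Ω, f k x * dbar j ψ x) :
    ∃ u : En n → ℂ,
        (MemLp u 2 (volume.restrict Ω) ∧
          ∀ e : Fin n → ℂ, ∃ h : (Fin n → ℂ) → ℂ, MemLp h 2 (volume.restrict Ω) ∧
            ∀ ψ : (Fin n → ℂ) → ℂ, IsTest Ω ψ →
              ∫ x in Ω, u x * fderiv ℝ ψ x e = - ∫ x in Ω, h x * ψ x) ∧
        ∀ j : Fin n, ∀ ψ : (Fin n → ℂ) → ℂ, IsTest Ω ψ →
          ∫ x in Ω, u x * dbar j ψ x = - ∫ x in Ω, f j x * ψ x := by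
  have mf := fun j => (hf j).1
  choose D mD hD using fun j => (hf j).2
  -- the derivatives `∂_k f_j`
  obtain ⟨F, hF⟩ : ∃ F : Fin n → Fin n → En n → ℂ, F = fun j k x =>
    (1 / 2) * (D j (Pi.single k 1) x - I * D j (Pi.single k I) x) := ⟨_, rfl⟩
  have mF : ∀ j k, MemLp (F j k) 2 (volume.restrict Ω) := by
    intro j k
    rw [hF]
    exact ((mD j _).sub ((mD j _).const_mul I)).const_mul (1 / 2 : ℂ)
  have hFw : ∀ j k ρ, IsTest Ω ρ → ∫ x in Ω, f j x * dz k ρ x = - ∫ x in Ω, F j k x * ρ x := by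
    intro j k ρ hρ
    have hρd : ∀ v : En n, IsTest Ω (fun x => fderiv ℝ ρ x v) := by
      intro v
      have hs : Function.support (fun x => fderiv ℝ ρ x v) ⊆ tsupport ρ := by
        intro x hx
        by_contra h
        apply hx
        have h1 : fderiv ℝ ρ x = 0 := fderiv_of_notMem_tsupport (𝕜 := ℝ) h
        show fderiv ℝ ρ x v = 0
        rw [h1]
        simp
      exact ⟨(hρ.smooth.fderiv_right (m := ∞) (by simp)).clm_apply contDiff_const,
        hρ.compact.mono' hs, (closure_minimal hs (isClosed_tsupport _)).trans hρ.supp⟩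
    have e1 : ∫ x in Ω, f j x * dz k ρ x = (1 / 2) * ((∫ x in Ω, f j x * fderiv ℝ ρ x
        (Pi.single k 1)) - I * ∫ x in Ω, f j x * fderiv ℝ ρ x (Pi.single k I)) := by
      rw [← integral_const_mul, ← integral_sub (test_int (mf j) (hρd _))
        ((test_int (mf j) (hρd _)).const_mul I), ← integral_const_mul]
      congr 1
      funext x
      unfold dz
      ring
    have e2 : ∫ x in Ω, F j k x * ρ x = (1 / 2) * ((∫ x in Ω, D j (Pi.single k 1) x * ρ x) -
        I * ∫ x in Ω, D j (Pi.single k I) x * ρ x) := by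
      rw [← integral_const_mul, ← integral_sub (test_int (mD j _) hρ)
        ((test_int (mD j _) hρ).const_mul I), ← integral_const_mul]
      congr 1
      funext x
      rw [hF]
      ring
    rw [e1, e2, hD j _ ρ hρ, hD j _ ρ hρ]
    ring
  obtain ⟨u0, mu0, hu0, -⟩ := hHor 1 one_pos f mf (fun j k ρ hρ => hcl j k ρ hρ)
  have hFc : ∀ k, ∀ j l ρ, IsTest Ω ρ →
      ∫ x in Ω, F j k x * dbar l ρ x = ∫ x in Ω, F l k x * dbar j ρ x := by
    intro k j l ρ hρ
    have h1 := hFw j k _ (wd_isTest hρ l)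
    have h2 := hFw l k _ (wd_isTest hρ j)
    simp_rw [dz_dbar_comm hρ.smooth] at h1 h2
    have h3 := hcl j l _ (dz_isTest hρ k)
    rw [h3, h2] at h1
    exact (neg_injective h1).symm
  choose v mv hv using fun k => hHor 1 one_pos (fun j => F j k) (fun j => mF j k) (hFc k)
  have hWH : WHol Ω u0 (fun k x => - v k x) := by
    intro j k ρ hρ
    have e1 : ∫ x in Ω, ((- v k x) * dbar j ρ x - u0 x * dz k (dbar j ρ) x) =
        -(∫ x in Ω, v k x * dbar j ρ x) - ∫ x in Ω, u0 x * dbar j (dz k ρ) x := by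
      have i1 : Integrable (fun x => (- v k x) * dbar j ρ x) (volume.restrict Ω) :=
        test_int (mv k).neg (wd_isTest hρ j)
      have i2 : Integrable (fun x => u0 x * dbar j (dz k ρ) x) (volume.restrict Ω) :=
        test_int mu0 (wd_isTest (dz_isTest hρ k) j)
      rw [← integral_neg]
      have e2 : ∀ x, -(v k x * dbar j ρ x) = (- v k x) * dbar j ρ x := fun x => by ring
      simp_rw [e2, dz_dbar_comm hρ.smooth]
      exact integral_sub i1 i2
    rw [e1, (hv k).1 j ρ hρ, hu0 j _ (dz_isTest hρ k), hFw j k ρ hρ]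
    ring
  obtain ⟨g, η, mg, mη, hg, hid⟩ := hIter u0 (fun k x => - v k x) mu0 (fun k => (mv k).neg) hWH
  have mu : MemLp (fun x => u0 x - g x) 2 (volume.restrict Ω) := mu0.sub mg
  have hub : ∀ j ρ, IsTest Ω ρ → ∫ x in Ω, (u0 x - g x) * dbar j ρ x = - ∫ x in Ω, f j x * ρ x := by
    intro j ρ hρ
    have e1 : ∫ x in Ω, (u0 x - g x) * dbar j ρ x =
        (∫ x in Ω, u0 x * dbar j ρ x) - ∫ x in Ω, g x * dbar j ρ x := by
      rw [← integral_sub (test_int mu0 (wd_isTest hρ j)) (test_int mg (wd_isTest hρ j))]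
      congr 1
      funext x
      ring
    rw [e1, hu0 j ρ hρ, hg j ρ hρ, sub_zero]
  have hud : ∀ k ρ, IsTest Ω ρ → ∫ x in Ω, (u0 x - g x) * dz k ρ x =
      - ∫ x in Ω, (v k x + η k x) * ρ x := by
    intro k ρ hρ
    have h1 := hid k ρ hρ
    have e1 : ∫ x in Ω, ((- v k x) * ρ x - u0 x * dz k ρ x) =
        -(∫ x in Ω, v k x * ρ x) - ∫ x in Ω, u0 x * dz k ρ x := by
      have i1 : Integrable (fun x => (- v k x) * ρ x) (volume.restrict Ω) :=
        test_int (mv k).neg hρ
      rw [← integral_neg]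
      have e2 : ∀ x, -(v k x * ρ x) = (- v k x) * ρ x := fun x => by ring
      simp_rw [e2]
      exact integral_sub i1 (test_int mu0 (dz_isTest hρ k))
    have e2 : ∫ x in Ω, (η k x * ρ x - g x * dz k ρ x) =
        (∫ x in Ω, η k x * ρ x) - ∫ x in Ω, g x * dz k ρ x :=
      integral_sub (test_int (mη k) hρ) (test_int mg (dz_isTest hρ k))
    have e3 : ∫ x in Ω, (u0 x - g x) * dz k ρ x =
        (∫ x in Ω, u0 x * dz k ρ x) - ∫ x in Ω, g x * dz k ρ x := by
      rw [← integral_sub (test_int mu0 (dz_isTest hρ k)) (test_int mg (dz_isTest hρ k))]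
      congr 1
      funext x
      ring
    have e4 : ∫ x in Ω, (v k x + η k x) * ρ x =
        (∫ x in Ω, v k x * ρ x) + ∫ x in Ω, η k x * ρ x := by
      rw [← integral_add (test_int (mv k) hρ) (test_int (mη k) hρ)]
      congr 1
      funext x
      ring
    rw [e1, e2] at h1
    rw [e3, e4]
    linear_combination -h1
  refine ⟨fun x => u0 x - g x, ⟨mu, fun e => ⟨fun x => ∑ k, (e k * (v k x + η k x) +
    conj (e k) * f k x), ?_, ?_⟩⟩, hub⟩
  · exact memLp_finsetSum _ fun k _ => (((mv k).add (mη k)).const_mul (e k)).add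
      ((mf k).const_mul (conj (e k)))
  · intro ψ hψ
    have i1 : ∀ k, Integrable (fun x => (u0 x - g x) * dz k ψ x) (volume.restrict Ω) := fun k =>
      test_int mu (dz_isTest hψ k)
    have i2 : ∀ k, Integrable (fun x => (u0 x - g x) * dbar k ψ x) (volume.restrict Ω) := fun k =>
      test_int mu (wd_isTest hψ k)
    have i3 : ∀ k, Integrable (fun x => (v k x + η k x) * ψ x) (volume.restrict Ω) := fun k =>
      test_int ((mv k).add (mη k)) hψ
    have i4 : ∀ k, Integrable (fun x => f k x * ψ x) (volume.restrict Ω) := fun k =>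
      test_int (mf k) hψ
    have e1 : ∫ x in Ω, (u0 x - g x) * fderiv ℝ ψ x e =
        ∑ k, (e k * (∫ x in Ω, (u0 x - g x) * dz k ψ x) +
          conj (e k) * ∫ x in Ω, (u0 x - g x) * dbar k ψ x) := by
      have h1 : ∀ x, (u0 x - g x) * fderiv ℝ ψ x e = ∑ k, (e k * ((u0 x - g x) * dz k ψ x) +
          conj (e k) * ((u0 x - g x) * dbar k ψ x)) := by
        intro x
        rw [fderiv_dir, Finset.mul_sum]
        apply Finset.sum_congr rfl
        intro k _
        ring
      simp_rw [h1]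
      have i5 : ∀ k, Integrable (fun x => e k * ((u0 x - g x) * dz k ψ x) +
          conj (e k) * ((u0 x - g x) * dbar k ψ x)) (volume.restrict Ω) := fun k =>
        ((i1 k).const_mul _).add ((i2 k).const_mul _)
      rw [integral_finsetSum _ fun k _ => i5 k]
      apply Finset.sum_congr rfl
      intro k _
      rw [integral_add ((i1 k).const_mul _) ((i2 k).const_mul _), integral_const_mul,
        integral_const_mul]
    have e2 : ∫ x in Ω, (∑ k, (e k * (v k x + η k x) + conj (e k) * f k x)) * ψ x =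
        ∑ k, (e k * (∫ x in Ω, (v k x + η k x) * ψ x) +
          conj (e k) * ∫ x in Ω, f k x * ψ x) := by
      have h1 : ∀ x, (∑ k, (e k * (v k x + η k x) + conj (e k) * f k x)) * ψ x =
          ∑ k, (e k * ((v k x + η k x) * ψ x) + conj (e k) * (f k x * ψ x)) := by
        intro x
        rw [Finset.sum_mul]
        apply Finset.sum_congr rfl
        intro k _
        ring
      simp_rw [h1]
      have i5 : ∀ k, Integrable (fun x => e k * ((v k x + η k x) * ψ x) +
          conj (e k) * (f k x * ψ x)) (volume.restrict Ω) := fun k =>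
        ((i3 k).const_mul _).add ((i4 k).const_mul _)
      rw [integral_finsetSum _ fun k _ => i5 k]
      apply Finset.sum_congr rfl
      intro k _
      rw [integral_add ((i3 k).const_mul _) ((i4 k).const_mul _), integral_const_mul,
        integral_const_mul]
    rw [e1, e2, ← Finset.sum_neg_distrib]
    apply Finset.sum_congr rfl
    intro k _
    rw [hud k ψ hψ, hub k ψ hψ]
    ring

end Pool.Agent.Y262
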