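import Pool.Agent.Y262.Defs

/-! Distance and weight comparisons; averages over Whitney balls. -/

set_option autoImplicit false

open MeasureTheory Complex Filter Topology Metric
open scoped ContDiff ENNReal ComplexConjugate

namespace Pool.Agent.Y262

open BK

variable {n : ℕ}

theorem N2_cont : Continuous (N2 : En n → ℝ) := by
  unfold N2
  exact continuous_finsetSum _ fun j _ => (continuous_apply j).norm.pow 2

theorem wt_cont' (t : ℝ) : Continuous (wt t : En n → ℝ≥0∞) := by
  unfold wt
  exact ENNReal.continuous_ofReal.comp (Real.continuous_exp.comp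
    (continuous_const.mul N2_cont).neg)

theorem N2_diff {x y : En n} {R : ℝ} (hx : ‖x‖ ≤ R) (hy : ‖y‖ ≤ R) :
    N2 y - N2 x ≤ 2 * n * R * dist x y := by
  have hR : 0 ≤ R := (norm_nonneg x).trans hx
  unfold N2
  rw [← Finset.sum_sub_distrib]
  have h1 : ∀ j ∈ (Finset.univ : Finset (Fin n)), ‖y j‖ ^ 2 - ‖x j‖ ^ 2 ≤ dist x y * (2 * R) := by
    intro j _
    have a1 : ‖y j‖ - ‖x j‖ ≤ dist x y := by
      calc ‖y j‖ - ‖x j‖ ≤ ‖y j - x j‖ := norm_sub_norm_le _ _
        _ = ‖(y - x) j‖ := rfl
        _ ≤ ‖y - x‖ := norm_le_pi_norm _ j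
        _ = dist x y := by rw [← dist_eq_norm, dist_comm]
    have a2 : ‖y j‖ ≤ R := (norm_le_pi_norm y j).trans hy
    have a3 : ‖x j‖ ≤ R := (norm_le_pi_norm x j).trans hx
    have a4 : 0 ≤ ‖y j‖ := norm_nonneg _
    have a5 : 0 ≤ ‖x j‖ := norm_nonneg _
    have a6 : 0 ≤ dist x y := dist_nonneg
    calc ‖y j‖ ^ 2 - ‖x j‖ ^ 2 = (‖y j‖ - ‖x j‖) * (‖y j‖ + ‖x j‖) := by ring
      _ ≤ dist x y * (‖y j‖ + ‖x j‖) := mul_le_mul_of_nonneg_right a1 (by positivity)
      _ ≤ dist x y * (2 * R) := mul_le_mul_of_nonneg_left (by linarith) a6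
  refine (Finset.sum_le_sum h1).trans (le_of_eq ?_)
  rw [Finset.sum_const, Finset.card_univ, Fintype.card_fin, nsmul_eq_mul]
  ring

theorem wt_comp {x y : En n} {R D t : ℝ} (hx : ‖x‖ ≤ R) (hy : ‖y‖ ≤ R) (ht : 0 ≤ t)
    (hD : t * dist x y ≤ D) :
    wt t x ≤ ENNReal.ofReal (Real.exp (2 * n * R * D)) * wt t y := by
  have hR : 0 ≤ R := (norm_nonneg x).trans hx
  unfold wt
  rw [← ENNReal.ofReal_mul (Real.exp_pos _).le, ← Real.exp_add]
  apply ENNReal.ofReal_le_ofReal
  apply Real.exp_le_exp.2
  have h1 := N2_diff hx hy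
  have h2 := mul_le_mul_of_nonneg_left h1 ht
  have h3 : 2 * n * R * (t * dist x y) ≤ 2 * n * R * D :=
    mul_le_mul_of_nonneg_left hD (by positivity)
  nlinarith

theorem dd_lip (Ω : Set (En n)) (t : ℝ) (x y : En n) : dd Ω t x ≤ dd Ω t y + dist x y := by
  unfold dd
  have h1 : infDist x Ωᶜ ≤ infDist y Ωᶜ + dist x y := infDist_le_infDist_add_dist
  have h2 : 0 ≤ dist x y := dist_nonneg
  rcases le_total (infDist y Ωᶜ) t⁻¹ with h | h
  · rw [min_eq_left h]
    exact (min_le_left _ _).trans h1
  · rw [min_eq_right h]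
    exact (min_le_right _ _).trans (by linarith)

theorem dd_cont (Ω : Set (En n)) (t : ℝ) : Continuous (dd Ω t) := by
  unfold dd
  exact (continuous_infDist_pt _).min continuous_const

theorem mem_of_dist {Ω : Set (En n)} {t : ℝ} {x y : En n} (h : dist x y < dd Ω t x) : y ∈ Ω := by
  by_contra hcon
  have h1 : infDist x Ωᶜ ≤ dist x y := infDist_le_dist_of_mem hcon
  have h2 : dd Ω t x ≤ infDist x Ωᶜ := min_le_left _ _
  linarith

theorem vol_ball (y : En n) {r : ℝ} (hr : 0 < r) : (volume : Measure (En n)) (ball y r) =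
    ENNReal.ofReal (r ^ Module.finrank ℝ (En n)) * (volume : Measure (En n)) (ball 0 1) :=
  Measure.addHaar_ball_of_pos _ _ hr

theorem vol_ball_zero (x : En n) (r : ℝ) :
    (volume : Measure (En n)) (ball x r) = (volume : Measure (En n)) (ball 0 r) :=
  Measure.addHaar_ball_center _ _ _

theorem avg (Ω : Set (En n)) (ho : IsOpen Ω) (hb : Bornology.IsBounded Ω) : AvgS Ω := by
  obtain ⟨R0, hR0⟩ := hb.exists_norm_le
  obtain ⟨R, hR, hRΩ⟩ : ∃ R : ℝ, 0 ≤ R ∧ ∀ x ∈ Ω, ‖x‖ ≤ R :=
    ⟨max 0 R0, le_max_left _ _, fun x hx => (hR0 x hx).trans (le_max_right _ _)⟩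
  set N := Module.finrank ℝ (En n) with hN
  set CW : ℝ≥0∞ := ENNReal.ofReal (Real.exp (2 * n * R * 1)) with hCW
  refine ⟨ENNReal.ofReal ((5 / 3) ^ N) * CW, ENNReal.mul_ne_top ENNReal.ofReal_ne_top
    ENNReal.ofReal_ne_top, ?_⟩
  intro t ht F0 hF0
  have ht0 : 0 < t := by linarith
  -- a measurable representative
  set F := hF0.mk F0 with hFdef
  have hFm : Measurable F := hF0.measurable_mk
  have hFe : F0 =ᵐ[volume.restrict Ω] F := hF0.ae_eq_mk
  have hRHS : ∫⁻ y in Ω, F0 y * wt t y = ∫⁻ y in Ω, F y * wt t y := by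
    apply lintegral_congr_ae
    filter_upwards [hFe] with x hx
    rw [hx]
  have hsub : ∀ x, ball x (dd Ω t x / 4) ⊆ Ω := by
    intro x y hy
    have h0 : 0 ≤ dist x y := dist_nonneg
    rw [mem_ball, dist_comm] at hy
    apply mem_of_dist (t := t) (x := x)
    linarith
  have hin : ∀ x, ∫⁻ y in ball x (dd Ω t x / 4), F0 y = ∫⁻ y in ball x (dd Ω t x / 4), F y :=
    fun x => lintegral_congr_ae (ae_restrict_of_ae_restrict_of_subset (hsub x) hFe)
  rw [hRHS]
  simp_rw [hin]
  -- the kernel
  set m : En n → ℝ≥0∞ := fun x => ((volume : Measure (En n)) (ball x (dd Ω t x / 4)))⁻¹ with hm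
  have hmm : Measurable m := by
    have h1 : m = fun x => ((fun r : ℝ => (volume : Measure (En n)) (ball 0 r)) (dd Ω t x / 4))⁻¹ := by
      funext x
      simp only [hm, vol_ball_zero x]
    rw [h1]
    have h2 : Measurable (fun r : ℝ => (volume : Measure (En n)) (ball 0 r)) := by
      apply Monotone.measurable
      intro a b hab
      exact measure_mono (ball_subset_ball hab)
    exact (h2.comp ((dd_cont Ω t).div_const 4).measurable).inv
  obtain ⟨S, hS⟩ : ∃ S : Set (En n × En n), S = {p | dist p.1 p.2 < dd Ω t p.1 / 4} := ⟨_, rfl⟩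
  have hSm : MeasurableSet S := by
    rw [hS]
    apply IsOpen.measurableSet
    exact isOpen_lt continuous_dist (((dd_cont Ω t).comp continuous_fst).div_const 4)
  obtain ⟨k, hk⟩ : ∃ k : En n × En n → ℝ≥0∞, k = S.indicator (fun p => m p.1 * F p.2 * wt t p.1) :=
    ⟨_, rfl⟩
  have hkm : Measurable k := by
    rw [hk]
    exact (((hmm.comp measurable_fst).mul (hFm.comp measurable_snd)).mul
      ((wt_cont' t).measurable.comp measurable_fst)).indicator hSm
  have e1 : ∀ x, m x * (∫⁻ y in ball x (dd Ω t x / 4), F y) * wt t x =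
      ∫⁻ y in Ω, k (x, y) := by
    intro x
    have h1 : ∫⁻ y in Ω, k (x, y) = ∫⁻ y, k (x, y) := by
      apply setLIntegral_eq_of_support_subset
      intro y hy
      by_contra hcon
      apply hy
      show k (x, y) = 0
      rw [hk, Set.indicator_of_notMem]
      rw [hS]
      intro h
      have h2 : dist x y < dd Ω t x / 4 := h
      exact hcon (hsub x (by rw [mem_ball, dist_comm]; exact h2))
    rw [h1]
    have h2 : ∀ y, k (x, y) = (ball x (dd Ω t x / 4)).indicator
        (fun y => (m x * wt t x) * F y) y := by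
      intro y
      by_cases hy : y ∈ ball x (dd Ω t x / 4)
      · rw [Set.indicator_of_mem hy, hk, Set.indicator_of_mem]
        · ring
        · rw [hS]
          rw [mem_ball, dist_comm] at hy
          exact hy
      · rw [Set.indicator_of_notMem hy, hk, Set.indicator_of_notMem]
        rw [hS]
        intro h
        apply hy
        rw [mem_ball, dist_comm]
        exact h
    simp_rw [h2]
    rw [lintegral_indicator measurableSet_ball, lintegral_const_mul _ hFm]
    ring
  simp only [hm] at e1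
  simp_rw [e1]
  rw [lintegral_lintegral_swap (f := fun x y => k (x, y)) hkm.aemeasurable,
    ← lintegral_const_mul' _ _ (ENNReal.mul_ne_top ENNReal.ofReal_ne_top ENNReal.ofReal_ne_top)]
  apply setLIntegral_mono' ho.measurableSet
  intro y hy
  -- the inner integral
  rcases le_or_gt (dd Ω t y) 0 with hd | hd
  · have h1 : ∀ x, k (x, y) = 0 := by
      intro x
      rw [hk, Set.indicator_of_notMem]
      rw [hS]
      intro h
      have h2 : dist x y < dd Ω t x / 4 := h
      have l1 := dd_lip Ω t x y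
      have h0 : 0 ≤ dist x y := dist_nonneg
      linarith
    simp only [h1, lintegral_zero]
    exact zero_le
  · have h1 : ∀ x ∈ Ω, k (x, y) ≤ (ball y (dd Ω t y / 3)).indicator (fun _ =>
        ((volume : Measure (En n)) (ball y (dd Ω t y / 5)))⁻¹ * F y * (CW * wt t y)) x := by
      intro x hx
      by_cases hxS : (x, y) ∈ S
      · have hxS' : dist x y < dd Ω t x / 4 := by rw [hS] at hxS; exact hxS
        have l1 := dd_lip Ω t x y
        have l2 := dd_lip Ω t y x
        rw [dist_comm] at l2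
        have hxb : x ∈ ball y (dd Ω t y / 3) := by
          rw [mem_ball]
          linarith
        rw [Set.indicator_of_mem hxb, hk, Set.indicator_of_mem hxS]
        simp only [hm]
        have hw : wt t x ≤ CW * wt t y := by
          apply wt_comp (hRΩ x hx) (hRΩ y hy) ht0.le
          have h3 : dd Ω t x ≤ t⁻¹ := min_le_right _ _
          have h0 : 0 ≤ dist x y := dist_nonneg
          have h4 : dist x y ≤ t⁻¹ := by linarith
          calc t * dist x y ≤ t * t⁻¹ := mul_le_mul_of_nonneg_left h4 ht0.le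
            _ = 1 := mul_inv_cancel₀ ht0.ne'
        have hvol : (volume : Measure (En n)) (ball y (dd Ω t y / 5)) ≤
            (volume : Measure (En n)) (ball x (dd Ω t x / 4)) := by
          rw [vol_ball_zero x, vol_ball_zero y]
          apply measure_mono
          apply ball_subset_ball
          linarith
        exact mul_le_mul' (mul_le_mul' (ENNReal.inv_le_inv.2 hvol) le_rfl) hw
      · rw [hk, Set.indicator_of_notMem hxS]
        exact zero_le
    refine (setLIntegral_mono' ho.measurableSet h1).trans ?_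
    refine (setLIntegral_le_lintegral _ _).trans ?_
    rw [lintegral_indicator measurableSet_ball, setLIntegral_const, vol_ball y (by positivity),
      vol_ball y (by positivity)]
    have hV0 : (volume : Measure (En n)) (ball 0 1) ≠ 0 := (measure_ball_pos _ _ one_pos).ne'
    have hVt : (volume : Measure (En n)) (ball 0 1) ≠ ⊤ := measure_ball_lt_top.ne
    have hr0 : ENNReal.ofReal ((dd Ω t y / 5) ^ N) ≠ 0 := by
      rw [Ne, ENNReal.ofReal_eq_zero, not_le]
      positivity
    have hrat : ENNReal.ofReal ((dd Ω t y / 3) ^ N) =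
        ENNReal.ofReal ((5 / 3) ^ N) * ENNReal.ofReal ((dd Ω t y / 5) ^ N) := by
      rw [← ENNReal.ofReal_mul (by positivity), ← mul_pow]
      congr 2
      ring
    rw [hrat, ENNReal.mul_inv (Or.inl hr0) (Or.inl ENNReal.ofReal_ne_top)]
    calc _ = (ENNReal.ofReal ((5 / 3) ^ N) * CW * (F y * wt t y)) *
        ((ENNReal.ofReal ((dd Ω t y / 5) ^ N))⁻¹ * ENNReal.ofReal ((dd Ω t y / 5) ^ N)) *
        (((volume : Measure (En n)) (ball 0 1))⁻¹ * (volume : Measure (En n)) (ball 0 1)) := by ring
      _ ≤ _ := by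
        rw [ENNReal.inv_mul_cancel hr0 ENNReal.ofReal_ne_top, ENNReal.inv_mul_cancel hV0 hVt,
          mul_one, mul_one]

end Pool.Agent.Y262
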