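import Pool.Agent.Y262.Geo

/-! Hardy's inequality along the axis of the cones. -/

set_option autoImplicit false

open MeasureTheory Complex Filter Topology Metric
open scoped ContDiff ENNReal ComplexConjugate

namespace Pool.Agent.Y262

open BK

variable {n : ℕ}

theorem cs_lint {α : Type*} [MeasurableSpace α] (μ : Measure α) (p f : α → ℝ≥0∞)
    (hp : AEMeasurable p μ) (hf : AEMeasurable f μ) (hp0 : ∀ᵐ x ∂μ, p x ≠ 0)
    (hpt : ∀ᵐ x ∂μ, p x ≠ ⊤) :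
    (∫⁻ x, f x ∂μ) ^ 2 ≤ (∫⁻ x, (p x)⁻¹ ∂μ) * ∫⁻ x, p x * f x ^ 2 ∂μ := by
  have h := ENNReal.lintegral_mul_le_Lp_mul_Lq μ Real.HolderConjugate.two_two
    (f := fun x => (p x)⁻¹ ^ (1 / 2 : ℝ)) (g := fun x => (p x) ^ (1 / 2 : ℝ) * f x)
    (hp.inv.pow_const _) ((hp.pow_const _).mul hf)
  have e1 : ∫⁻ a, ((fun x => (p x)⁻¹ ^ (1 / 2 : ℝ)) * fun x => (p x) ^ (1 / 2 : ℝ) * f x) a ∂μ =
      ∫⁻ x, f x ∂μ := by
    apply lintegral_congr_ae
    filter_upwards [hp0, hpt] with x h0 ht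
    simp only [Pi.mul_apply]
    rw [← mul_assoc, ← ENNReal.mul_rpow_of_nonneg _ _ (by norm_num), ENNReal.inv_mul_cancel h0 ht,
      ENNReal.one_rpow, one_mul]
  have e2 : ∫⁻ a, ((p a)⁻¹ ^ (1 / 2 : ℝ)) ^ (2 : ℝ) ∂μ = ∫⁻ x, (p x)⁻¹ ∂μ := by
    congr 1
    funext x
    rw [← ENNReal.rpow_mul]
    norm_num
  have e3 : ∫⁻ a, ((p a) ^ (1 / 2 : ℝ) * f a) ^ (2 : ℝ) ∂μ = ∫⁻ x, p x * f x ^ 2 ∂μ := by
    congr 1
    funext x
    rw [ENNReal.mul_rpow_of_nonneg _ _ (by norm_num), ← ENNReal.rpow_mul]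
    norm_num
  rw [e1, e2, e3] at h
  calc (∫⁻ x, f x ∂μ) ^ 2 ≤ ((∫⁻ x, (p x)⁻¹ ∂μ) ^ (1 / 2 : ℝ) *
      (∫⁻ x, p x * f x ^ 2 ∂μ) ^ (1 / 2 : ℝ)) ^ 2 := by gcongr
    _ = _ := by
      rw [mul_pow, ← ENNReal.rpow_natCast, ← ENNReal.rpow_natCast, ← ENNReal.rpow_mul,
        ← ENNReal.rpow_mul]
      norm_num

theorem pI1 {b : ℝ} (hb : 0 ≤ b) :
    ∫⁻ s in Set.Ioc (0 : ℝ) b, ENNReal.ofReal (s ^ (-(1 / 2) : ℝ)) =
      ENNReal.ofReal (2 * b ^ (1 / 2 : ℝ)) := by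
  have hi : IntervalIntegrable (fun s : ℝ => s ^ (-(1 / 2) : ℝ)) volume 0 b :=
    intervalIntegral.intervalIntegrable_rpow' (by norm_num)
  have hi' : IntegrableOn (fun s : ℝ => s ^ (-(1 / 2) : ℝ)) (Set.Ioc 0 b) volume := hi.1
  rw [← ofReal_integral_eq_lintegral_ofReal hi' (ae_restrict_of_forall_mem measurableSet_Ioc
    fun s hs => Real.rpow_nonneg hs.1.le _), ← intervalIntegral.integral_of_le hb,
    integral_rpow (Or.inl (by norm_num))]
  congr 1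
  rw [Real.zero_rpow (by norm_num)]
  norm_num
  ring

theorem pI2 {δ b : ℝ} (hδ : 0 < δ) (hb : 0 ≤ b) :
    ∫⁻ s in Set.Ioc (0 : ℝ) b, ENNReal.ofReal ((s + δ) ^ (-(3 / 2) : ℝ)) ≤
      ENNReal.ofReal (2 * δ ^ (-(1 / 2) : ℝ)) := by
  have hc : ContinuousOn (fun s : ℝ => (s + δ) ^ (-(3 / 2) : ℝ)) (Set.uIcc 0 b) := by
    apply ContinuousOn.rpow_const
    · exact (continuous_id.add continuous_const).continuousOn
    · intro s hs
      rw [Set.uIcc_of_le hb] at hs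
      left
      have := hs.1
      positivity
  have hi' : IntegrableOn (fun s : ℝ => (s + δ) ^ (-(3 / 2) : ℝ)) (Set.Ioc 0 b) volume :=
    hc.intervalIntegrable.1
  rw [← ofReal_integral_eq_lintegral_ofReal hi' (ae_restrict_of_forall_mem measurableSet_Ioc
    fun s hs => Real.rpow_nonneg (by have := hs.1; linarith) _),
    ← intervalIntegral.integral_of_le hb,
    intervalIntegral.integral_comp_add_right (fun x : ℝ => x ^ (-(3 / 2) : ℝ)) δ,
    integral_rpow (Or.inr ⟨by norm_num, by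
      rw [Set.uIcc_of_le (by linarith)]
      intro h
      have := h.1
      linarith⟩)]
  apply ENNReal.ofReal_le_ofReal
  have h1 : 0 ≤ (b + δ) ^ (-(1 / 2) : ℝ) := Real.rpow_nonneg (by linarith) _
  have h2 : (-(3 / 2) + 1 : ℝ) = -(1 / 2) := by norm_num
  rw [h2, zero_add]
  have h3 : ((b + δ) ^ (-(1 / 2) : ℝ) - δ ^ (-(1 / 2) : ℝ)) / (-(1 / 2)) =
      2 * δ ^ (-(1 / 2) : ℝ) - 2 * (b + δ) ^ (-(1 / 2) : ℝ) := by
    ring
  rw [h3]
  linarith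

theorem pI3 {κ b : ℝ} (hκ : 0 < κ) (hb : 0 ≤ b) :
    ∫⁻ s in Set.Ioo (0 : ℝ) b, ENNReal.ofReal ((κ * (b - s)) ^ (-(1 / 2) : ℝ)) ≤
      ENNReal.ofReal (κ ^ (-(1 / 2) : ℝ) * (2 * b ^ (1 / 2 : ℝ))) := by
  obtain ⟨f, hf⟩ : ∃ f : ℝ → ℝ≥0∞, f = (Set.Ioo (0 : ℝ) b).indicator
    (fun r => ENNReal.ofReal ((κ * r) ^ (-(1 / 2) : ℝ))) := ⟨_, rfl⟩
  have h1 : ∫⁻ s in Set.Ioo (0 : ℝ) b, ENNReal.ofReal ((κ * (b - s)) ^ (-(1 / 2) : ℝ)) =
      ∫⁻ s, f (b - s) := by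
    rw [← lintegral_indicator measurableSet_Ioo]
    congr 1
    funext s
    by_cases hs : s ∈ Set.Ioo (0 : ℝ) b
    · have hs' : b - s ∈ Set.Ioo (0 : ℝ) b := ⟨by linarith [hs.2], by linarith [hs.1]⟩
      rw [Set.indicator_of_mem hs, hf, Set.indicator_of_mem hs']
    · have hs' : b - s ∉ Set.Ioo (0 : ℝ) b := fun h => hs ⟨by linarith [h.2], by linarith [h.1]⟩
      rw [Set.indicator_of_notMem hs, hf, Set.indicator_of_notMem hs']
  rw [h1, lintegral_sub_left_eq_self, hf, lintegral_indicator measurableSet_Ioo,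
    ENNReal.ofReal_mul (by positivity), ← pI1 hb, ← lintegral_const_mul' _ _ ENNReal.ofReal_ne_top]
  refine (lintegral_mono_set Set.Ioo_subset_Ioc_self).trans ?_
  apply setLIntegral_mono' measurableSet_Ioc
  intro s hs
  rw [← ENNReal.ofReal_mul (by positivity), Real.mul_rpow hκ.le hs.1.le]

section
variable {Ω U : Set (En n)} {ν : En n} {κ s1 t : ℝ}

theorem dd_pos (ho : IsOpen Ω) (hne : (Ωᶜ).Nonempty) (ht : 0 < t) {x : En n} (hx : x ∈ Ω) :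
    0 < dd Ω t x := by
  unfold dd
  apply lt_min _ (inv_pos.2 ht)
  rw [← ho.isClosed_compl.notMem_iff_infDist_pos hne]
  exact fun h => h hx

theorem dd_cone (hne : (Ωᶜ).Nonempty) (hκ : 0 < κ) (hκ1 : κ ≤ 1)
    (hc : Cone Ω U ν κ s1) {z : En n} (hz : z ∈ Ω ∩ U) {s : ℝ} (hs : 0 < s)
    (hst : s ≤ t⁻¹) (hs1 : s ≤ s1) : κ * s ≤ dd Ω t (z + s • ν) := by
  unfold dd
  apply le_min
  · rw [le_infDist hne]
    intro y hy
    by_contra hcon
    push Not at hcon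
    exact hy (hc z hz s hs hs1 (by rw [mem_ball, dist_comm]; exact hcon))
  · have : κ * s ≤ 1 * s := mul_le_mul_of_nonneg_right hκ1 hs.le
    linarith

/-- the inner integral -/
theorem inner_bd (ho : IsOpen Ω) (hU : IsOpen U) (hne : (Ωᶜ).Nonempty) (hκ : 0 < κ) (hκ1 : κ ≤ 1)
    (hc : Cone Ω U ν κ s1) (ht : 0 < t) (ht1 : t⁻¹ ≤ s1) (x : En n) :
    ∫⁻ s in Set.Ioc (0 : ℝ) t⁻¹, (Ω ∩ U).indicator
      (fun z => ENNReal.ofReal ((dd Ω t z) ^ (-(1 / 2) : ℝ))) (x - s • ν) ≤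
      ENNReal.ofReal (2 * κ⁻¹ * (dd Ω t x) ^ (1 / 2 : ℝ)) := by
  obtain ⟨S, hS⟩ : ∃ S : Set ℝ, S = {s | s ∈ Set.Ioc (0 : ℝ) t⁻¹ ∧ x - s • ν ∈ Ω ∩ U} := ⟨_, rfl⟩
  have hSm : MeasurableSet S := by
    rw [hS]
    apply MeasurableSet.inter measurableSet_Ioc
    apply (Continuous.measurable _) (ho.inter hU).measurableSet
    fun_prop
  have e1 : ∫⁻ s in Set.Ioc (0 : ℝ) t⁻¹, (Ω ∩ U).indicator
      (fun z => ENNReal.ofReal ((dd Ω t z) ^ (-(1 / 2) : ℝ))) (x - s • ν) =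
      ∫⁻ s in S, ENNReal.ofReal ((dd Ω t (x - s • ν)) ^ (-(1 / 2) : ℝ)) := by
    rw [← lintegral_indicator measurableSet_Ioc, ← lintegral_indicator hSm]
    congr 1
    funext s
    by_cases h1 : s ∈ Set.Ioc (0 : ℝ) t⁻¹
    · by_cases h2 : x - s • ν ∈ Ω ∩ U
      · have h3 : s ∈ S := by rw [hS]; exact ⟨h1, h2⟩
        rw [Set.indicator_of_mem h1, Set.indicator_of_mem h2, Set.indicator_of_mem h3]
      · have h3 : s ∉ S := by rw [hS]; exact fun h => h2 h.2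
        rw [Set.indicator_of_mem h1, Set.indicator_of_notMem h2, Set.indicator_of_notMem h3]
    · have h3 : s ∉ S := by rw [hS]; exact fun h => h1 h.1
      rw [Set.indicator_of_notMem h1, Set.indicator_of_notMem h3]
  rw [e1]
  rcases S.eq_empty_or_nonempty with hE | hN
  · rw [hE]
    simp
  have hSb : BddAbove S := ⟨t⁻¹, fun s hs => by rw [hS] at hs; exact hs.1.2⟩
  obtain ⟨b, hb⟩ : ∃ b, b = sSup S := ⟨_, rfl⟩
  have hSle : ∀ s ∈ S, s ≤ b := fun s hs => by rw [hb]; exact le_csSup hSb hs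
  have hb0 : 0 ≤ b := by
    obtain ⟨s, hs⟩ := hN
    have h1 := hSle s hs
    rw [hS] at hs
    linarith [hs.1.1]
  have hSlow : ∀ s ∈ S, κ * (b - s) ≤ dd Ω t (x - s • ν) := by
    intro s hs
    have h1 : b ≤ s + dd Ω t (x - s • ν) / κ := by
      rw [hb]
      apply csSup_le hN
      intro s' hs'
      have hs'' := hs'
      have hss := hs
      rw [hS] at hs'' hss
      have hdp := dd_pos ho hne ht hss.2.1
      rcases le_or_gt s' s with h | h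
      · have : 0 ≤ dd Ω t (x - s • ν) / κ := by positivity
        linarith
      · have h2 : x - s • ν = (x - s' • ν) + (s' - s) • ν := by
          rw [sub_smul]
          abel
        have h3 := dd_cone (t := t) hne hκ hκ1 hc hs''.2 (s := s' - s) (by linarith)
          (by linarith [hs''.1.2, hss.1.1]) (by linarith [hs''.1.2, hss.1.1])
        rw [← h2] at h3
        rw [← sub_le_iff_le_add', le_div_iff₀ hκ]
        linarith
    rw [← sub_le_iff_le_add', le_div_iff₀ hκ] at h1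
    linarith
  have hbd : b ≤ dd Ω t x / κ := by
    rw [hb]
    apply csSup_le hN
    intro s hs
    rw [hS] at hs
    have h2 : x = (x - s • ν) + s • ν := by abel
    have h3 := dd_cone (t := t) hne hκ hκ1 hc hs.2 hs.1.1 hs.1.2 (hs.1.2.trans ht1)
    rw [← h2] at h3
    rw [le_div_iff₀ hκ]
    linarith
  have hdx : 0 ≤ dd Ω t x := by
    have := mul_nonneg hκ.le hb0
    rw [le_div_iff₀ hκ] at hbd
    linarith
  calc ∫⁻ s in S, ENNReal.ofReal ((dd Ω t (x - s • ν)) ^ (-(1 / 2) : ℝ))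
      ≤ ∫⁻ s in S, (Set.Ioo 0 b).indicator
          (fun s => ENNReal.ofReal ((κ * (b - s)) ^ (-(1 / 2) : ℝ))) s := by
        apply lintegral_mono_ae
        have hne' : ∀ᵐ s ∂(volume.restrict S), s ≠ b := by
          apply ae_restrict_of_ae
          exact Measure.ae_ne volume b
        filter_upwards [hne', ae_restrict_mem hSm] with s hsb hsS
        have h1 : s ∈ Set.Ioo 0 b := by
          refine ⟨?_, lt_of_le_of_ne (hSle s hsS) hsb⟩
          rw [hS] at hsS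
          exact hsS.1.1
        rw [Set.indicator_of_mem h1]
        apply ENNReal.ofReal_le_ofReal
        apply Real.rpow_le_rpow_of_nonpos _ (hSlow s hsS) (by norm_num)
        exact mul_pos hκ (by linarith [h1.2])
    _ ≤ ∫⁻ s, (Set.Ioo 0 b).indicator
          (fun s => ENNReal.ofReal ((κ * (b - s)) ^ (-(1 / 2) : ℝ))) s := setLIntegral_le_lintegral _ _
    _ = ∫⁻ s in Set.Ioo 0 b, ENNReal.ofReal ((κ * (b - s)) ^ (-(1 / 2) : ℝ)) :=
        lintegral_indicator measurableSet_Ioo _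
    _ ≤ ENNReal.ofReal (κ ^ (-(1 / 2) : ℝ) * (2 * b ^ (1 / 2 : ℝ))) := pI3 hκ hb0
    _ ≤ _ := by
        apply ENNReal.ofReal_le_ofReal
        have h1 : b ^ (1 / 2 : ℝ) ≤ (dd Ω t x / κ) ^ (1 / 2 : ℝ) :=
          Real.rpow_le_rpow hb0 hbd (by norm_num)
        have h2 : (dd Ω t x / κ) ^ (1 / 2 : ℝ) = (dd Ω t x) ^ (1 / 2 : ℝ) * κ ^ (-(1 / 2) : ℝ) := by
          rw [Real.div_rpow hdx hκ.le, Real.rpow_neg hκ.le, div_eq_mul_inv]
        have h3 : κ ^ (-(1 / 2) : ℝ) * κ ^ (-(1 / 2) : ℝ) = κ⁻¹ := by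
          rw [← Real.rpow_add hκ]
          norm_num
          exact Real.rpow_neg_one κ
        have h4 : 0 ≤ κ ^ (-(1 / 2) : ℝ) := Real.rpow_nonneg hκ.le _
        calc κ ^ (-(1 / 2) : ℝ) * (2 * b ^ (1 / 2 : ℝ)) ≤
            κ ^ (-(1 / 2) : ℝ) * (2 * ((dd Ω t x) ^ (1 / 2 : ℝ) * κ ^ (-(1 / 2) : ℝ))) := by
              rw [← h2]
              gcongr
          _ = 2 * (κ ^ (-(1 / 2) : ℝ) * κ ^ (-(1 / 2) : ℝ)) * (dd Ω t x) ^ (1 / 2 : ℝ) := by ring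
          _ = _ := by rw [h3]

end

end Pool.Agent.Y262
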