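import Pool.Agent.Y262.Defs
import Pool.Agent.H314.BK.C2
import Pool.Agent.H314.BK.B1
import Pool.Agent.H314.BK.B6

/-! The weak homotopy formula. -/

set_option autoImplicit false

open MeasureTheory Complex Filter Topology Metric
open scoped ContDiff ENNReal ComplexConjugate

namespace Pool.Agent.Y262

open BK BK.JC2 BK.JB6

variable {n : ℕ}

/-- holomorphic functions of several variables are smooth -/
theorem hol_smooth {Ω : Set (En n)} (ho : IsOpen Ω) {g : En n → ℂ}
    (hg : DifferentiableOn ℂ g Ω) : ContDiffOn ℝ ∞ g Ω := by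
  intro x hx
  apply ContDiffAt.contDiffWithinAt
  obtain ⟨r, hr, hsub⟩ := Metric.nhds_basis_closedBall.mem_iff.1 (ho.mem_nhds hx)
  obtain ⟨t, ht⟩ : ∃ t, t = r / 2 := ⟨_, rfl⟩
  have ht0 : 0 < t := by rw [ht]; linarith
  obtain ⟨F, hF⟩ : ∃ F, F = (closedBall x r).indicator g := ⟨_, rfl⟩
  have hFi : Integrable F := by
    rw [hF, integrable_indicator_iff measurableSet_closedBall]
    exact (hg.continuousOn.mono hsub).integrableOn_compact (isCompact_closedBall x r)
  have hgG : ∀ y ∈ ball x t, wG F t y = g y := by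
    intro y hy
    rw [mem_ball] at hy
    have hyr : closedBall y t ⊆ closedBall x r := by
      apply closedBall_subset_closedBall'
      rw [ht] at hy ⊢
      linarith
    rw [wG_apply']
    have h1 := wMV g y t ht0 (fun z hz => (hg z (hsub (hyr hz))).differentiableAt
      (ho.mem_nhds (hsub (hyr hz))))
    rw [← h1]
    refine integral_congr_ae (Eventually.of_forall fun w => ?_)
    show rho t w • F (y - w) = rho t w • g (y - w)
    by_cases hw : ‖w‖ < t
    · rw [hF, Set.indicator_of_mem]
      apply hyr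
      rw [mem_closedBall, dist_eq_norm, sub_sub_cancel_left, norm_neg]
      exact hw.le
    · rw [rho_zero_of ht0 w (not_lt.1 hw), zero_smul, zero_smul]
  have h1 : g =ᶠ[𝓝 x] wG F t := by
    filter_upwards [ball_mem_nhds x ht0] with y hy
    exact (hgG y hy).symm
  exact (wG_contDiff F hFi ht0).contDiffAt.congr_of_eventuallyEq h1

theorem int_fderiv_zero {F : En n → ℂ} (hF : ContDiff ℝ ∞ F) (hc : HasCompactSupport F)
    (v : En n) : ∫ x, fderiv ℝ F x v = 0 := by
  have hdF : Continuous (fun x => fderiv ℝ F x v) :=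
    ((hF.fderiv_right (m := ∞) (by simp)).clm_apply contDiff_const).continuous
  have hcF : HasCompactSupport (fun x => fderiv ℝ F x v) := hc.fderiv_apply (𝕜 := ℝ) v
  have h := integral_mul_fderiv_eq_neg_fderiv_mul_of_integrable (μ := (volume : Measure (En n)))
    (f := F) (g := fun _ => (1 : ℂ)) (v := v)
    (by simpa using hdF.integrable_of_hasCompactSupport hcF)
    (by simp)
    (by simpa using hF.continuous.integrable_of_hasCompactSupport hc)
    (fun x _ => (hF.differentiable (by simp)) x)
    (fun x _ => differentiableAt_const _)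
  simp only [fderiv_fun_const, Pi.zero_apply, zero_apply, mul_zero,
    integral_zero, mul_one] at h
  exact neg_eq_zero.1 h.symm

/-- product of a smooth function on `V` and a test function on `V` -/
theorem smooth_mul_test {V : Set (En n)} (hV : IsOpen V) {G ρ : En n → ℂ}
    (hG : ContDiffOn ℝ ∞ G V) (hρ : IsTest V ρ) : IsTest V (fun x => G x * ρ x) where
  smooth := by
    rw [contDiff_iff_contDiffAt]
    intro x
    by_cases hx : x ∈ tsupport ρ
    · exact (hG.contDiffAt (hV.mem_nhds (hρ.supp hx))).mul hρ.smooth.contDiffAt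
    · have h1 : (fun x => G x * ρ x) =ᶠ[𝓝 x] fun _ => (0 : ℂ) := by
        have h2 : (tsupport ρ)ᶜ ∈ 𝓝 x := (isClosed_tsupport ρ).isOpen_compl.mem_nhds hx
        filter_upwards [h2] with y hy
        rw [image_eq_zero_of_notMem_tsupport hy, mul_zero]
      exact contDiffAt_const.congr_of_eventuallyEq h1
  compact := hρ.compact.mul_left
  supp := (tsupport_mul_subset_right (f := G) (g := ρ)).trans hρ.supp

theorem ibp_dir {V : Set (En n)} (hV : IsOpen V) {G ρ : En n → ℂ}
    (hG : ContDiffOn ℝ ∞ G V) (hρ : IsTest V ρ) (v : En n) :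
    Integrable (fun x => G x * fderiv ℝ ρ x v) (volume.restrict V) ∧
    Integrable (fun x => fderiv ℝ G x v * ρ x) (volume.restrict V) ∧
    ∫ x in V, G x * fderiv ℝ ρ x v = - ∫ x in V, fderiv ℝ G x v * ρ x := by
  have ht := smooth_mul_test hV hG hρ
  have h0 : ∀ x, x ∉ tsupport ρ → fderiv ℝ ρ x = 0 := fun x hx =>
    fderiv_of_notMem_tsupport (𝕜 := ℝ) hx
  have hGc : ContinuousOn (fun x => fderiv ℝ G x v) V :=
    ((hG.fderiv_of_isOpen hV (m := ∞) (by simp)).clm_apply contDiffOn_const).continuousOn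
  have hρc : Continuous (fun x => fderiv ℝ ρ x v) :=
    ((hρ.smooth.fderiv_right (m := ∞) (by simp)).clm_apply contDiff_const).continuous
  have i1 : Integrable (fun x => G x * fderiv ℝ ρ x v) (volume.restrict V) := by
    have h1 : IntegrableOn (fun x => G x * fderiv ℝ ρ x v) (tsupport ρ) volume :=
      ((hG.continuousOn.mono hρ.supp).mul hρc.continuousOn).integrableOn_compact hρ.compact
    exact h1.of_forall_sdiff_eq_zero hV.measurableSet fun x hx => by
      rw [h0 x hx.2]; simp
  have i2 : Integrable (fun x => fderiv ℝ G x v * ρ x) (volume.restrict V) := by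
    have h1 : IntegrableOn (fun x => fderiv ℝ G x v * ρ x) (tsupport ρ) volume :=
      ((hGc.mono hρ.supp).mul hρ.smooth.continuous.continuousOn).integrableOn_compact hρ.compact
    exact h1.of_forall_sdiff_eq_zero hV.measurableSet fun x hx => by
      rw [image_eq_zero_of_notMem_tsupport hx.2, mul_zero]
  refine ⟨i1, i2, ?_⟩
  have h1 := int_fderiv_zero ht.smooth ht.compact v
  have h2 : ∫ x in V, fderiv ℝ (fun x => G x * ρ x) x v =
      ∫ x, fderiv ℝ (fun x => G x * ρ x) x v := by
    refine setIntegral_eq_integral_of_forall_compl_eq_zero fun x hx => ?_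
    have h3 : x ∉ tsupport (fun x => G x * ρ x) := fun h => hx (ht.supp h)
    rw [fderiv_of_notMem_tsupport (𝕜 := ℝ) h3]
    simp
  have h3 : ∫ x in V, fderiv ℝ (fun x => G x * ρ x) x v =
      ∫ x in V, (G x * fderiv ℝ ρ x v + fderiv ℝ G x v * ρ x) := by
    apply setIntegral_congr_fun hV.measurableSet
    intro x hx
    have e : fderiv ℝ (fun y => G y * ρ y) x = _ :=
      (((hG.contDiffAt (hV.mem_nhds hx)).differentiableAt (by simp)).hasFDerivAt.mul
        ((hρ.smooth.differentiable (by simp)) x).hasFDerivAt).fderiv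
    simp only
    rw [e]
    simp only [add_apply, smul_apply, smul_eq_mul]
    ring
  rw [integral_add i1 i2] at h3
  rw [h2, h1] at h3
  linear_combination -h3

theorem ibp_dbar {V : Set (En n)} (hV : IsOpen V) {G ρ : En n → ℂ}
    (hG : ContDiffOn ℝ ∞ G V) (hρ : IsTest V ρ) (m : Fin n) :
    ∫ x in V, G x * dbar m ρ x = - ∫ x in V, dbar m G x * ρ x := by
  obtain ⟨a1, a2, a3⟩ := ibp_dir hV hG hρ (Pi.single m 1)
  obtain ⟨b1, b2, b3⟩ := ibp_dir hV hG hρ (Pi.single m I)
  have e1 : ∫ x in V, G x * dbar m ρ x = (1 / 2) * ((∫ x in V, G x * fderiv ℝ ρ x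
      (Pi.single m 1)) + I * ∫ x in V, G x * fderiv ℝ ρ x (Pi.single m I)) := by
    rw [← integral_const_mul, ← integral_add a1 (b1.const_mul I), ← integral_const_mul]
    congr 1
    funext x
    unfold dbar
    ring
  have e2 : ∫ x in V, dbar m G x * ρ x = (1 / 2) * ((∫ x in V, fderiv ℝ G x
      (Pi.single m 1) * ρ x) + I * ∫ x in V, fderiv ℝ G x (Pi.single m I) * ρ x) := by
    rw [← integral_const_mul, ← integral_add a2 (b2.const_mul I), ← integral_const_mul]
    congr 1
    funext x
    unfold dbar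
    ring
  rw [e1, e2, a3, b3]
  ring

theorem ibp_dz {V : Set (En n)} (hV : IsOpen V) {G ρ : En n → ℂ}
    (hG : ContDiffOn ℝ ∞ G V) (hρ : IsTest V ρ) (m : Fin n) :
    ∫ x in V, G x * dz m ρ x = - ∫ x in V, dz m G x * ρ x := by
  obtain ⟨a1, a2, a3⟩ := ibp_dir hV hG hρ (Pi.single m 1)
  obtain ⟨b1, b2, b3⟩ := ibp_dir hV hG hρ (Pi.single m I)
  have e1 : ∫ x in V, G x * dz m ρ x = (1 / 2) * ((∫ x in V, G x * fderiv ℝ ρ x
      (Pi.single m 1)) - I * ∫ x in V, G x * fderiv ℝ ρ x (Pi.single m I)) := by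
    rw [← integral_const_mul, ← integral_sub a1 (b1.const_mul I), ← integral_const_mul]
    congr 1
    funext x
    unfold dz
    ring
  have e2 : ∫ x in V, dz m G x * ρ x = (1 / 2) * ((∫ x in V, fderiv ℝ G x
      (Pi.single m 1) * ρ x) - I * ∫ x in V, fderiv ℝ G x (Pi.single m I) * ρ x) := by
    rw [← integral_const_mul, ← integral_sub a2 (b2.const_mul I), ← integral_const_mul]
    congr 1
    funext x
    unfold dz
    ring
  rw [e1, e2, a3, b3]
  ring

theorem hol_dbar {V : Set (En n)} (hV : IsOpen V) {G ρ : En n → ℂ}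
    (hG : DifferentiableOn ℂ G V) (hρ : IsTest V ρ) (m : Fin n) :
    ∫ x in V, G x * dbar m ρ x = 0 := by
  rw [ibp_dbar hV (hol_smooth hV hG) hρ m, neg_eq_zero]
  apply integral_eq_zero_of_ae
  refine ae_restrict_of_forall_mem hV.measurableSet fun x hx => ?_
  simp only
  rw [dbar_of_diffAt G x ((hG x hx).differentiableAt (hV.mem_nhds hx)) m, zero_mul]
  rfl

theorem fderivC_eq {h : En n → ℂ} {z : En n} (hd : DifferentiableAt ℂ h z) (v : En n) :
    fderiv ℂ h z v = fderiv ℝ h z v := by
  have h1 : fderiv ℝ h z = (fderiv ℂ h z).restrictScalars ℝ := hd.fderiv_restrictScalars ℝ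
  rw [h1]
  rfl

theorem dz_of_diffAt (h : En n → ℂ) (z : En n) (hd : DifferentiableAt ℂ h z) (j : Fin n) :
    dz j h z = fderiv ℂ h z (Pi.single j 1) := by
  unfold dz
  have h2 : (Pi.single j I : En n) = I • (Pi.single j 1 : En n) := by
    ext i
    rcases eq_or_ne i j with rfl | hij
    · simp
    · simp [hij]
  rw [← fderivC_eq hd, ← fderivC_eq hd, h2, map_smul, smul_eq_mul, ← mul_assoc, I_mul_I]
  ring

/-- partial derivatives of holomorphic functions are continuous -/
theorem pd_cont {Ω : Set (En n)} (ho : IsOpen Ω) {g : En n → ℂ}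
    (hg : DifferentiableOn ℂ g Ω) (v : En n) : ContinuousOn (fun y => fderiv ℂ g y v) Ω := by
  have h1 : ContinuousOn (fun x => fderiv ℝ g x v) Ω :=
    (((hol_smooth ho hg).fderiv_of_isOpen ho (m := ∞) (by simp)).clm_apply
      contDiffOn_const).continuousOn
  apply h1.congr
  intro x hx
  exact fderivC_eq ((hg x hx).differentiableAt (ho.mem_nhds hx)) v

section
variable {Ω V : Set (En n)} {ν : En n} {s0 : ℝ}

theorem fubI (hV : IsOpen V) (hseg : ∀ z ∈ V, ∀ s ∈ Set.Icc (0 : ℝ) s0, z + s • ν ∈ Ω)
    {h : En n → ℂ} (hh : ContinuousOn h Ω) {D : En n → ℂ} (hD : Continuous D)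
    (hDc : HasCompactSupport D) (hDV : tsupport D ⊆ V) :
    Integrable (fun p : En n × ℝ => h (p.1 + p.2 • ν) * D p.1)
      (((volume : Measure (En n)).restrict V).prod ((volume : Measure ℝ).restrict
        (Set.Ioc 0 s0))) := by
  rw [Measure.prod_restrict]
  have h1 : IntegrableOn (fun p : En n × ℝ => h (p.1 + p.2 • ν) * D p.1)
      (tsupport D ×ˢ Set.Icc 0 s0) ((volume : Measure (En n)).prod (volume : Measure ℝ)) := by
    apply ContinuousOn.integrableOn_compact
    · exact hDc.isCompact.prod isCompact_Icc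
    · apply ContinuousOn.mul
      · apply hh.comp
        · apply Continuous.continuousOn
          fun_prop
        · rintro ⟨z, s⟩ ⟨hz, hs⟩
          exact hseg z (hDV hz) s hs
      · exact (hD.comp continuous_fst).continuousOn
  have h2 : IntegrableOn (fun p : En n × ℝ => h (p.1 + p.2 • ν) * D p.1)
      (tsupport D ×ˢ Set.Ioc 0 s0) ((volume : Measure (En n)).prod (volume : Measure ℝ)) :=
    h1.mono_set (Set.prod_mono le_rfl Set.Ioc_subset_Icc_self)
  refine h2.of_forall_sdiff_eq_zero (hV.measurableSet.prod measurableSet_Ioc) fun p hp => ?_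
  have h3 : p.1 ∉ tsupport D := by
    intro h
    exact hp.2 ⟨h, hp.1.2⟩
  rw [image_eq_zero_of_notMem_tsupport h3, mul_zero]

theorem fub (hs0 : 0 < s0) (hV : IsOpen V)
    (hseg : ∀ z ∈ V, ∀ s ∈ Set.Icc (0 : ℝ) s0, z + s • ν ∈ Ω)
    {h : En n → ℂ} (hh : ContinuousOn h Ω) {D : En n → ℂ} (hD : Continuous D)
    (hDc : HasCompactSupport D) (hDV : tsupport D ⊆ V) :
    Integrable (fun z => (∫ s in (0 : ℝ)..s0, h (z + s • ν)) * D z) (volume.restrict V) ∧
    ∫ z in V, (∫ s in (0 : ℝ)..s0, h (z + s • ν)) * D z =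
      ∫ s in (0 : ℝ)..s0, ∫ z in V, h (z + s • ν) * D z := by
  have hI := fubI hV hseg hh hD hDc hDV
  have e1 : ∀ z, (∫ s in (0 : ℝ)..s0, h (z + s • ν)) * D z =
      ∫ s in Set.Ioc (0 : ℝ) s0, h (z + s • ν) * D z := by
    intro z
    rw [intervalIntegral.integral_of_le hs0.le, integral_mul_const]
  constructor
  · simp_rw [e1]
    exact hI.integral_prod_left
  · simp_rw [e1]
    rw [intervalIntegral.integral_of_le hs0.le]
    exact integral_integral_swap hI

end

theorem hom (Ω : Set (En n)) (ho : IsOpen Ω) : HomS Ω := by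
  intro V ν s0 hV hVΩ hs0 hseg
  have hcomp : ∀ s ∈ Set.Icc (0 : ℝ) s0, ∀ h : En n → ℂ, DifferentiableOn ℂ h Ω →
      DifferentiableOn ℂ (fun z => h (z + s • ν)) V := by
    intro s hs h hh
    apply hh.comp
    · exact (differentiable_id.add_const _).differentiableOn
    · intro z hz
      exact hseg z hz s hs
  have hs0m : s0 ∈ Set.Icc (0 : ℝ) s0 := ⟨hs0.le, le_rfl⟩
  refine ⟨?_, ?_⟩
  · intro h hh m ρ hρ
    have ht := wd_isTest hρ m
    refine ⟨?_, hol_dbar hV (hcomp s0 hs0m h hh) hρ m⟩
    rw [(fub hs0 hV hseg hh.continuousOn ht.smooth.continuous ht.compact ht.supp).2]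
    apply intervalIntegral.integral_zero_ae
    refine Eventually.of_forall fun s hs => ?_
    rw [Set.uIoc_of_le hs0.le] at hs
    exact hol_dbar hV (hcomp s ⟨hs.1.le, hs.2⟩ h hh) hρ m
  · intro a b ha hb hab k ρ hρ
    obtain ⟨pd, hpd⟩ : ∃ pd : Fin n → Fin n → En n → ℂ, pd = fun j k y =>
      fderiv ℂ (a k) y (Pi.single j 1) := ⟨_, rfl⟩
    have hpdc : ∀ j k, ContinuousOn (pd j k) Ω := by
      intro j k
      rw [hpd]
      exact pd_cont ho (ha k) _
    have hdzt : IsTest V (dz k ρ) := by
      have hs : Function.support (dz k ρ) ⊆ tsupport ρ := by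
        intro x hx
        by_contra h
        apply hx
        have h1 : fderiv ℝ ρ x = 0 := fderiv_of_notMem_tsupport (𝕜 := ℝ) h
        simp [dz, h1]
      exact ⟨BK.JB1.JKI.dz_smooth hρ.smooth k, hρ.compact.mono' hs,
        (closure_minimal hs (isClosed_tsupport _)).trans hρ.supp⟩
    -- step 1
    have h1 : ∀ j, ∫ z in V, (∫ s in (0 : ℝ)..s0, a j (z + s • ν)) * dz k ρ z =
        - ∫ z in V, (∫ s in (0 : ℝ)..s0, pd k j (z + s • ν)) * ρ z := by
      intro j
      rw [(fub hs0 hV hseg (ha j).continuousOn hdzt.smooth.continuous hdzt.compact hdzt.supp).2,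
        (fub hs0 hV hseg (hpdc k j) hρ.smooth.continuous hρ.compact hρ.supp).2,
        ← intervalIntegral.integral_neg]
      apply intervalIntegral.integral_congr_ae
      refine Eventually.of_forall fun s hs => ?_
      rw [Set.uIoc_of_le hs0.le] at hs
      have hsI : s ∈ Set.Icc (0 : ℝ) s0 := ⟨hs.1.le, hs.2⟩
      have hd := hcomp s hsI (a j) (ha j)
      rw [ibp_dz hV (hol_smooth hV hd) hρ k]
      congr 1
      apply setIntegral_congr_fun hV.measurableSet
      intro z hz
      simp only
      congr 1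
      rw [dz_of_diffAt _ z ((hd z hz).differentiableAt (hV.mem_nhds hz)), hpd]
      have hz2 := hseg z hz s hsI
      have h3 : HasFDerivAt (a j) (fderiv ℂ (a j) (z + s • ν)) (z + s • ν) :=
        ((ha j _ hz2).differentiableAt (ho.mem_nhds hz2)).hasFDerivAt
      have h4 : HasFDerivAt (fun z : En n => z + s • ν) (ContinuousLinearMap.id ℂ (En n)) z :=
        (hasFDerivAt_id z).add_const _
      have h5 : fderiv ℂ (fun z => a j (z + s • ν)) z = _ := (h3.comp z h4).fderiv
      rw [h5]
      rfl
    -- the left side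
    have h2 : ∫ z in V, (∑ j, ν j * ∫ s in (0 : ℝ)..s0, a j (z + s • ν)) * dz k ρ z =
        ∑ j, ν j * ∫ z in V, (∫ s in (0 : ℝ)..s0, a j (z + s • ν)) * dz k ρ z := by
      have e1 : ∀ z, (∑ j, ν j * ∫ s in (0 : ℝ)..s0, a j (z + s • ν)) * dz k ρ z =
          ∑ j, ν j * ((∫ s in (0 : ℝ)..s0, a j (z + s • ν)) * dz k ρ z) := by
        intro z
        rw [Finset.sum_mul]
        exact Finset.sum_congr rfl fun j _ => by ring
      simp_rw [e1]
      rw [integral_finsetSum _ fun j _ => ((fub hs0 hV hseg (ha j).continuousOn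
        hdzt.smooth.continuous hdzt.compact hdzt.supp).1).const_mul _]
      exact Finset.sum_congr rfl fun j _ => integral_const_mul _ _
    have h3 : ∑ j, ν j * ∫ z in V, (∫ s in (0 : ℝ)..s0, pd k j (z + s • ν)) * ρ z =
        ∫ z in V, (∑ j, ν j * ∫ s in (0 : ℝ)..s0, pd k j (z + s • ν)) * ρ z := by
      have e1 : ∀ z, (∑ j, ν j * ∫ s in (0 : ℝ)..s0, pd k j (z + s • ν)) * ρ z =
          ∑ j, ν j * ((∫ s in (0 : ℝ)..s0, pd k j (z + s • ν)) * ρ z) := by
        intro z
        rw [Finset.sum_mul]
        exact Finset.sum_congr rfl fun j _ => by ring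
      simp_rw [e1]
      rw [integral_finsetSum _ fun j _ => ((fub hs0 hV hseg (hpdc k j)
        hρ.smooth.continuous hρ.compact hρ.supp).1).const_mul _]
      exact Finset.sum_congr rfl fun j _ => (integral_const_mul _ _).symm
    rw [h2]
    simp_rw [h1]
    have h4 : ∑ j, ν j * -∫ z in V, (∫ s in (0 : ℝ)..s0, pd k j (z + s • ν)) * ρ z =
        - ∑ j, ν j * ∫ z in V, (∫ s in (0 : ℝ)..s0, pd k j (z + s • ν)) * ρ z := by
      rw [← Finset.sum_neg_distrib]
      exact Finset.sum_congr rfl fun j _ => by ring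
    rw [h4, h3, ← integral_neg]
    apply setIntegral_congr_fun hV.measurableSet
    intro z hz
    simp only
    -- pointwise identity
    have hcs : ∀ h : En n → ℂ, ContinuousOn h Ω →
        ContinuousOn (fun s : ℝ => h (z + s • ν)) (Set.uIcc 0 s0) := by
      intro h hh
      apply hh.comp
      · apply Continuous.continuousOn
        fun_prop
      · intro s hs
        rw [Set.uIcc_of_le hs0.le] at hs
        exact hseg z hz s hs
    have hii : ∀ h : En n → ℂ, ContinuousOn h Ω →
        IntervalIntegrable (fun s : ℝ => h (z + s • ν)) volume 0 s0 := fun h hh =>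
      (hcs h hh).intervalIntegrable
    have hFTC : ∑ j, ν j * ∫ s in (0 : ℝ)..s0, pd j k (z + s • ν) =
        a k (z + s0 • ν) - a k z := by
      have e1 : ∑ j, ν j * ∫ s in (0 : ℝ)..s0, pd j k (z + s • ν) =
          ∫ s in (0 : ℝ)..s0, ∑ j, ν j * pd j k (z + s • ν) := by
        rw [intervalIntegral.integral_finsetSum fun j _ => (hii _ (hpdc j k)).const_mul _]
        exact Finset.sum_congr rfl fun j _ => (intervalIntegral.integral_const_mul _ _).symm
      rw [e1]
      have e2 : ∀ s ∈ Set.uIcc 0 s0, HasDerivAt (fun s : ℝ => a k (z + s • ν))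
          (∑ j, ν j * pd j k (z + s • ν)) s := by
        intro s hs
        rw [Set.uIcc_of_le hs0.le] at hs
        have hz2 := hseg z hz s hs
        have hd := ((ha k _ hz2).differentiableAt (ho.mem_nhds hz2))
        have h5 : HasFDerivAt (a k) ((fderiv ℂ (a k) (z + s • ν)).restrictScalars ℝ)
          (z + s • ν) := hd.hasFDerivAt.restrictScalars ℝ
        have h6 : HasDerivAt (fun s : ℝ => z + s • ν) ν s := by
          have := ((hasDerivAt_id s).smul_const ν).const_add z
          simpa using this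
        have h7 := h5.comp_hasDerivAt s h6
        have h9 : ∑ j, ν j * pd j k (z + s • ν) =
            ((fderiv ℂ (a k) (z + s • ν)).restrictScalars ℝ) ν := by
          have h8 : ν = ∑ j, ν j • (Pi.single j (1 : ℂ) : En n) := by
            conv_lhs => rw [← Finset.univ_sum_single ν]
            apply Finset.sum_congr rfl
            intro j _
            ext i
            rcases eq_or_ne i j with rfl | hij
            · simp
            · simp [hij]
          rw [ContinuousLinearMap.coe_restrictScalars', hpd]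
          obtain ⟨L, hL⟩ : ∃ L, L = fderiv ℂ (a k) (z + s • ν) := ⟨_, rfl⟩
          rw [← hL]
          conv_rhs => rw [h8]
          rw [map_sum]
          apply Finset.sum_congr rfl
          intro j _
          rw [map_smul, smul_eq_mul, hL]
        rw [h9]
        exact h7
      have e3 := intervalIntegral.integral_eq_sub_of_hasDerivAt e2 (by
        apply ContinuousOn.intervalIntegrable
        apply continuousOn_finsetSum
        intro j _
        exact continuousOn_const.mul (hcs _ (hpdc j k)))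
      rw [e3, zero_smul, add_zero]
    have hpdb : ∑ j, ν j * ∫ s in (0 : ℝ)..s0, pd k j (z + s • ν) =
        (∑ j, ν j * ∫ s in (0 : ℝ)..s0, pd j k (z + s • ν)) -
          ∑ j, ν j * ∫ s in (0 : ℝ)..s0, b j k (z + s • ν) := by
      rw [← Finset.sum_sub_distrib]
      apply Finset.sum_congr rfl
      intro j _
      rw [← mul_sub, ← intervalIntegral.integral_sub (hii _ (hpdc j k))
        (hii _ (hb j k).continuousOn)]
      congr 1
      apply intervalIntegral.integral_congr
      intro s hs
      rw [Set.uIcc_of_le hs0.le] at hs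
      simp only
      rw [hab j k _ (hseg z hz s hs), hpd]
      ring
    rw [hpdb, hFTC]
    ring

end Pool.Agent.Y262
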