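import Pool.Agent.Y262.Defs
import Pool.Agent.H314.BK.B1
import Pool.Agent.H314.BK.B2
import Pool.Agent.H314.BK.B9
import Pool.Agent.H314.BK.C3
import Pool.Agent.TH239.CE.Hor

/-! The a priori estimate with the weight `φ + t|x|²`. -/

set_option autoImplicit false

open MeasureTheory Complex Filter Topology Metric
open scoped ContDiff InnerProductSpace ENNReal ComplexConjugate

namespace Pool.Agent.Y262

open BK BK.JB2 BK.JB9

variable {n : ℕ}

theorem tN_smooth (t : ℝ) : ContDiff ℝ ∞ (fun x : En n => t * N2 x) := by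
  unfold N2
  refine contDiff_const.mul (ContDiff.sum fun j _ => ?_)
  exact (contDiff_apply ℝ ℂ j).norm_sq ℝ

theorem N2_nonneg (x : En n) : 0 ≤ N2 x := Finset.sum_nonneg fun j _ => by positivity

theorem Lv_tN (t : ℝ) (x a : En n) : Lv (fun x : En n => t * N2 x) x a = t * ∑ j, ‖a j‖ ^ 2 := by
  unfold Lv N2
  rw [BK.JC3.C3x.Lv_sq_fd2, BK.JC3.C3x.Lv_sq_fd2]
  have h1 : ∀ j, ‖(I • a) j‖ = ‖a j‖ := by
    intro j
    rw [Pi.smul_apply, norm_smul, Complex.norm_I, one_mul]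
  simp only [h1]
  ring

theorem Lv_add_on (Ω : Set (En n)) (ho : IsOpen Ω) (s₀ q : En n → ℝ) (hs : ContDiffOn ℝ ∞ s₀ Ω)
    (hq : ContDiff ℝ ∞ q) (x : En n) (hx : x ∈ Ω) (a : En n) :
    Lv (fun y => s₀ y + q y) x a = Lv s₀ x a + Lv q x a := by
  have hsd : ∀ y ∈ Ω, DifferentiableAt ℝ s₀ y := fun y hy =>
    (hs.contDiffAt (ho.mem_nhds hy)).differentiableAt (by simp)
  have hqd : ∀ y, DifferentiableAt ℝ q y := fun y => (hq.differentiable (by simp)) y
  have key : ∀ b : En n, fderiv ℝ (fun y => fderiv ℝ (fun y => s₀ y + q y) y b) x b =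
      fderiv ℝ (fun y => fderiv ℝ s₀ y b) x b +
        fderiv ℝ (fun y => fderiv ℝ q y b) x b := by
    intro b
    have h1 : (fun y => fderiv ℝ (fun y => s₀ y + q y) y b) =ᶠ[𝓝 x]
        fun y => fderiv ℝ s₀ y b + fderiv ℝ q y b := by
      filter_upwards [ho.mem_nhds hx] with y hy
      rw [fderiv_fun_add (hsd y hy) (hqd y)]
      rfl
    rw [h1.fderiv_eq]
    have h3 : DifferentiableAt ℝ (fun y => fderiv ℝ s₀ y b) x :=
      ((we_fd Ω ho s₀ hs b).contDiffAt (ho.mem_nhds hx)).differentiableAt (by simp)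
    have h4 : DifferentiableAt ℝ (fun y => fderiv ℝ q y b) x :=
      ((we_fd Ω ho q hq.contDiffOn b).contDiffAt
        (ho.mem_nhds hx)).differentiableAt (by simp)
    rw [fderiv_fun_add h3 h4]
    rfl
  unfold Lv
  rw [key a, key (I • a)]
  ring

/-- weights `φ + t|x|²` -/
theorem wts_tN {Ω L : Set (En n)} (ho : IsOpen Ω) {ε : ℝ} {φ ψ : En n → ℝ}
    {η : ℕ → En n → ℝ} (hW : Wts Ω L ε φ ψ η) {t : ℝ} (ht : 0 < t) :
    Wts Ω ∅ ε (fun x => φ x + t * N2 x) ψ η where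
  sφ := hW.sφ.add (tN_smooth t).contDiffOn
  sψ := hW.sψ
  ψ0 := hW.ψ0
  φ2 := fun x => by
    have h1 := hW.φ2 x
    have h2 := mul_nonneg ht.le (N2_nonneg x)
    linarith
  zL := fun x hx => absurd hx (Set.notMem_empty x)
  curv := fun x hx a => by
    rw [Lv_add_on Ω ho φ _ hW.sφ (tN_smooth t) x hx a, Lv_tN]
    have h1 := hW.curv x hx a
    have h2 : 0 ≤ t * ∑ j, ‖a j‖ ^ 2 :=
      mul_nonneg ht.le (Finset.sum_nonneg fun j _ => by positivity)
    linarith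
  sη := hW.sη
  cη := hW.cη
  tη := hW.tη
  η01 := hW.η01
  η1 := hW.η1
  gη := hW.gη

theorem ap1 (Ω : Set (En n)) (ho : IsOpen Ω) {L : Set (En n)} {ε : ℝ} (hε : 0 < ε)
    {φ ψ : En n → ℝ} {η : ℕ → En n → ℝ} (hW : Wts Ω L ε φ ψ η) {t : ℝ} (ht : 0 < t)
    (u : Fin n → En n → ℂ) (hu : ∀ j, IsTest Ω (u j)) (Φ : En n → ℝ)
    (hΦ : Φ = fun x => φ x + t * N2 x) :
    ∫ x in Ω, (t * ∑ j, ‖u j x‖ ^ 2) * Real.exp (-Φ x) ≤
      (1 + ε) * (∫ x in Ω, ‖Tst Φ ψ u x‖ ^ 2 * Real.exp (-(Φ x - 2 * ψ x))) +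
        ∑ p, ∫ x in Ω, ‖Sst u p x‖ ^ 2 * Real.exp (-Φ x) := by
  have W' := wts_tN ho hW ht
  rw [← hΦ] at W'
  have h := BK.JB1.ki Ω ho Φ W'.sφ u hu
  -- the compact set
  have hKc : IsCompact (⋃ j, tsupport (u j)) := isCompact_iUnion fun j => (hu j).compact
  have hKs : (⋃ j, tsupport (u j)) ⊆ Ω := Set.iUnion_subset fun j => (hu j).supp
  have hu0 : ∀ x, x ∉ (⋃ j, tsupport (u j)) → ∀ j, u j x = 0 := fun x hx j =>
    image_eq_zero_of_notMem_tsupport fun hx' => hx (Set.mem_iUnion.2 ⟨j, hx'⟩)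
  have hdz0 : ∀ x, x ∉ (⋃ j, tsupport (u j)) → ∀ j, dz j (u j) x = 0 := by
    intro x hx j
    have h1 : fderiv ℝ (u j) x = 0 :=
      fderiv_of_notMem_tsupport ℝ fun hx' => hx (Set.mem_iUnion.2 ⟨j, hx'⟩)
    unfold dz
    rw [h1]
    simp
  have hφψ : ContDiffOn ℝ ∞ (fun y => ((Φ y - ψ y : ℝ) : ℂ)) Ω :=
    Complex.ofRealCLM.contDiff.comp_contDiffOn (W'.sφ.sub W'.sψ)
  have hTc : ContinuousOn (Tst Φ ψ u) Ω := by
    unfold Tst
    refine ContinuousOn.mul ?_ (ContinuousOn.neg (continuousOn_finsetSum _ fun j _ =>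
      (dz_cont352 ho (hu j).smooth.contDiffOn j).sub
        ((dz_cont352 ho hφψ j).mul (hu j).smooth.continuous.continuousOn)))
    exact Complex.continuous_ofReal.comp_continuousOn
      (Real.continuous_exp.comp_continuousOn W'.sψ.continuousOn.neg)
  have hT : Integrable (fun x => ‖Tst Φ ψ u x‖ ^ 2 * Real.exp (-(Φ x - 2 * ψ x)))
      (volume.restrict Ω) := by
    refine int352 ho hKc hKs ?_ ?_
    · refine (hTc.norm.pow 2).mul (Real.continuous_exp.comp_continuousOn ?_)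
      exact (W'.sφ.continuousOn.sub (continuousOn_const.mul W'.sψ.continuousOn)).neg
    · intro x hx
      have : Tst Φ ψ u x = 0 := by
        unfold Tst
        rw [Finset.sum_eq_zero fun j _ => by rw [hdz0 x hx j, hu0 x hx j, mul_zero, sub_zero]]
        simp
      simp [this]
  have hL : Integrable (fun x => Lv Φ x (fun j => u j x) * Real.exp (-Φ x))
      (volume.restrict Ω) := by
    refine int352 ho hKc hKs ?_ ?_
    · refine (Lv_cont352 ho W'.sφ fun j => (hu j).smooth.continuous).mul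
        (Real.continuous_exp.comp_continuousOn W'.sφ.continuousOn.neg)
    · intro x hx
      have : (fun j => u j x) = fun _ => (0 : ℂ) := funext fun j => hu0 x hx j
      rw [this, Lv_zero352, zero_mul]
  have hN : Integrable (fun x => (t * ∑ j, ‖u j x‖ ^ 2) * Real.exp (-Φ x))
      (volume.restrict Ω) := by
    refine int352 ho hKc hKs ?_ ?_
    · refine ContinuousOn.mul ?_ (Real.continuous_exp.comp_continuousOn W'.sφ.continuousOn.neg)
      apply Continuous.continuousOn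
      exact continuous_const.mul (continuous_finsetSum _ fun j _ =>
        (hu j).smooth.continuous.norm.pow 2)
    · intro x hx
      rw [Finset.sum_eq_zero fun j _ => by rw [hu0 x hx j]; simp]
      simp
  have key : ∫ x in Ω, ‖∑ j, (dz j (u j) x - dz j (fun y => (Φ y : ℂ)) x * u j x)‖ ^ 2 *
        Real.exp (-Φ x) ≤
      (1 + ε) * (∫ x in Ω, ‖Tst Φ ψ u x‖ ^ 2 * Real.exp (-(Φ x - 2 * ψ x))) +
        ((∫ x in Ω, Lv Φ x (fun j => u j x) * Real.exp (-Φ x)) -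
          ∫ x in Ω, (t * ∑ j, ‖u j x‖ ^ 2) * Real.exp (-Φ x)) := by
    have hLN : Integrable (fun x => Lv Φ x (fun j => u j x) * Real.exp (-Φ x) -
        (t * ∑ j, ‖u j x‖ ^ 2) * Real.exp (-Φ x)) (volume.restrict Ω) := hL.sub hN
    have e0 : (1 + ε) * (∫ x in Ω, ‖Tst Φ ψ u x‖ ^ 2 * Real.exp (-(Φ x - 2 * ψ x))) +
        ((∫ x in Ω, Lv Φ x (fun j => u j x) * Real.exp (-Φ x)) -
          ∫ x in Ω, (t * ∑ j, ‖u j x‖ ^ 2) * Real.exp (-Φ x)) =
        ∫ x in Ω, ((1 + ε) * (‖Tst Φ ψ u x‖ ^ 2 * Real.exp (-(Φ x - 2 * ψ x))) +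
          (Lv Φ x (fun j => u j x) * Real.exp (-Φ x) -
        (t * ∑ j, ‖u j x‖ ^ 2) * Real.exp (-Φ x))) := by
      rw [integral_add (hT.const_mul _) hLN, integral_sub hL hN, integral_const_mul]
    rw [e0]
    refine integral_mono_of_nonneg (Eventually.of_forall fun x => by positivity)
      ((hT.const_mul _).add hLN) ?_
    refine ae_restrict_of_forall_mem ho.measurableSet fun x hx => ?_
    have hTx : Tst Φ ψ u x = (Real.exp (-ψ x) : ℂ) *
        (-((∑ j, (dz j (u j) x - dz j (fun y => (Φ y : ℂ)) x * u j x)) +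
          ∑ j, dz j (fun y => (ψ y : ℂ)) x * u j x)) := by
      unfold Tst
      rw [← Finset.sum_add_distrib]
      congr 2
      refine Finset.sum_congr rfl fun j _ => ?_
      rw [dz_sub352 ho W'.sφ W'.sψ hx j]
      ring
    have hB : (1 + 1 / ε) * ‖∑ j, dz j (fun y => (ψ y : ℂ)) x * u j x‖ ^ 2 ≤
        Lv Φ x (fun j => u j x) - t * ∑ j, ‖u j x‖ ^ 2 := by
      have h0 : Lv Φ x (fun j => u j x) - t * ∑ j, ‖u j x‖ ^ 2 = Lv φ x (fun j => u j x) := by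
        rw [hΦ, Lv_add_on Ω ho φ _ hW.sφ (tN_smooth t) x hx, Lv_tN]
        ring
      rw [h0]
      refine le_trans ?_ (hW.curv x hx fun j => u j x)
      have h1 : ‖∑ j, dz j (fun y => (ψ y : ℂ)) x * u j x‖ ≤
          ∑ j, ‖dz j (fun y => (ψ y : ℂ)) x‖ * ‖u j x‖ := by
        refine (norm_sum_le _ _).trans (le_of_eq ?_)
        exact Finset.sum_congr rfl fun j _ => norm_mul _ _
      have h2 : ‖∑ j, dz j (fun y => (ψ y : ℂ)) x * u j x‖ ^ 2 ≤
          (∑ j, ‖dz j (fun y => (ψ y : ℂ)) x‖ ^ 2) * ∑ j, ‖u j x‖ ^ 2 :=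
        (by gcongr : _ ≤ (∑ j, ‖dz j (fun y => (ψ y : ℂ)) x‖ * ‖u j x‖) ^ 2).trans
          (Finset.sum_mul_sq_le_sq_mul_sq _ _ _)
      have h3 : 0 ≤ 1 + 1 / ε := by positivity
      exact mul_le_mul_of_nonneg_left h2 h3
    have hp := pt352 hε _ _ _ _ _ hTx hB
    have he : Real.exp (2 * ψ x) * Real.exp (-Φ x) = Real.exp (-(Φ x - 2 * ψ x)) := by
      rw [← Real.exp_add]; congr 1; ring
    have hm := mul_le_mul_of_nonneg_right hp (Real.exp_pos (-Φ x)).le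
    refine hm.trans (le_of_eq ?_)
    simp only [Pi.add_apply, Pi.sub_apply]
    rw [← he]
    ring
  have h2 : 0 ≤ ∑ j, ∑ k, ∫ x in Ω, ‖dbar k (u j) x‖ ^ 2 * Real.exp (-Φ x) :=
    Finset.sum_nonneg fun j _ => Finset.sum_nonneg fun k _ =>
      integral_nonneg fun x => by positivity
  linarith

/-- a priori inequality for test forms, dual form -/
theorem ap2 (Ω : Set (En n)) (ho : IsOpen Ω) {L : Set (En n)} {ε : ℝ} (hε : 0 < ε)
    {φ ψ : En n → ℝ} {η : ℕ → En n → ℝ} (hW : Wts Ω L ε φ ψ η) {t : ℝ} (ht : 0 < t)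
    (u : Fin n → En n → ℂ) (hu : ∀ j, IsTest Ω (u j)) (Φ : En n → ℝ)
    (hΦ : Φ = fun x => φ x + t * N2 x) (g : Fin n → En n → ℂ)
    (hg : ∀ j, Integrable (fun x => ‖g j x‖ ^ 2 * Real.exp (-(t * N2 x))) (volume.restrict Ω)) :
    ‖∫ x in Ω, (∑ j, u j x * conj (g j x)) * (Real.exp (-(Φ x - ψ x)) : ℝ)‖ ^ 2 ≤
      (t⁻¹ * ∑ j, ∫ x in Ω, ‖g j x‖ ^ 2 * Real.exp (-(t * N2 x))) *
      ((1 + ε) * (∫ x in Ω, ‖Tst Φ ψ u x‖ ^ 2 * Real.exp (-(Φ x - 2 * ψ x))) +
        ∑ p, ∫ x in Ω, ‖Sst u p x‖ ^ 2 * Real.exp (-Φ x)) := by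
  have W' := wts_tN ho hW ht
  rw [← hΦ] at W'
  have h1 := ap1 Ω ho hε hW ht u hu Φ hΦ
  set B := ∫ x in Ω, (t * ∑ j, ‖u j x‖ ^ 2) * Real.exp (-Φ x) with hB
  set A := t⁻¹ * ∑ j, ∫ x in Ω, ‖g j x‖ ^ 2 * Real.exp (-(t * N2 x)) with hA
  have hKc : IsCompact (⋃ j, tsupport (u j)) := isCompact_iUnion fun j => (hu j).compact
  have hKs : (⋃ j, tsupport (u j)) ⊆ Ω := Set.iUnion_subset fun j => (hu j).supp
  have hu0 : ∀ x, x ∉ (⋃ j, tsupport (u j)) → ∀ j, u j x = 0 := fun x hx j =>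
    image_eq_zero_of_notMem_tsupport fun hx' => hx (Set.mem_iUnion.2 ⟨j, hx'⟩)
  have hN : Integrable (fun x => (t * ∑ j, ‖u j x‖ ^ 2) * Real.exp (-Φ x))
      (volume.restrict Ω) := by
    refine int352 ho hKc hKs ?_ ?_
    · refine ContinuousOn.mul ?_ (Real.continuous_exp.comp_continuousOn W'.sφ.continuousOn.neg)
      apply Continuous.continuousOn
      exact continuous_const.mul (continuous_finsetSum _ fun j _ =>
        (hu j).smooth.continuous.norm.pow 2)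
    · intro x hx
      rw [Finset.sum_eq_zero fun j _ => by rw [hu0 x hx j]; simp]
      simp
  have hG : Integrable (fun x => t⁻¹ * ∑ j, ‖g j x‖ ^ 2 * Real.exp (-(t * N2 x)))
      (volume.restrict Ω) := (integrable_finsetSum _ fun j _ => hg j).const_mul _
  have hAe : ∫ x in Ω, t⁻¹ * ∑ j, ‖g j x‖ ^ 2 * Real.exp (-(t * N2 x)) = A := by
    rw [integral_const_mul, integral_finsetSum _ fun j _ => hg j]
  have hA0 : 0 ≤ A := by
    rw [← hAe]
    exact integral_nonneg fun x => by positivity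
  have hB0 : 0 ≤ B := integral_nonneg fun x => by positivity
  have key : ∀ s : ℝ, 0 < s →
      2 * ‖∫ x in Ω, (∑ j, u j x * conj (g j x)) * (Real.exp (-(Φ x - ψ x)) : ℝ)‖ ≤
      s * A + s⁻¹ * B := by
    intro s hs
    have h4 : ∀ x ∈ Ω, ‖(∑ j, u j x * conj (g j x)) * (Real.exp (-(Φ x - ψ x)) : ℝ)‖ ≤
        (1 / 2) * (s * (t⁻¹ * ∑ j, ‖g j x‖ ^ 2 * Real.exp (-(t * N2 x))) +
          s⁻¹ * ((t * ∑ j, ‖u j x‖ ^ 2) * Real.exp (-Φ x))) := by
      intro x _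
      rw [norm_mul, Complex.norm_real, Real.norm_of_nonneg (Real.exp_pos _).le]
      have h5 : ‖∑ j, u j x * conj (g j x)‖ ^ 2 ≤ (∑ j, ‖u j x‖ ^ 2) * ∑ j, ‖g j x‖ ^ 2 := by
        have h6 : ‖∑ j, u j x * conj (g j x)‖ ≤ ∑ j, ‖u j x‖ * ‖g j x‖ := by
          refine (norm_sum_le _ _).trans (le_of_eq ?_)
          exact Finset.sum_congr rfl fun j _ => by rw [norm_mul, RCLike.norm_conj]
        exact (pow_le_pow_left₀ (norm_nonneg _) h6 2).trans (Finset.sum_mul_sq_le_sq_mul_sq _ _ _)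
      have e1 : Real.exp (-(Φ x - ψ x)) ^ 2 ≤ Real.exp (-Φ x) * Real.exp (-(t * N2 x)) := by
        rw [← Real.exp_nat_mul, ← Real.exp_add]
        apply Real.exp_le_exp.2
        have := hW.φ2 x
        rw [hΦ]
        push_cast
        linarith
      set X := ∑ j, ‖u j x‖ ^ 2 with hX
      set Y := ∑ j, ‖g j x‖ ^ 2 with hY
      have hX0 : 0 ≤ X := Finset.sum_nonneg fun j _ => by positivity
      have hY0 : 0 ≤ Y := Finset.sum_nonneg fun j _ => by positivity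
      rw [← Finset.sum_mul, ← hY]
      apply le_of_sq_le_sq _ (by positivity)
      have h7 : (‖∑ j, u j x * conj (g j x)‖ * Real.exp (-(Φ x - ψ x))) ^ 2 ≤
          (X * Y) * (Real.exp (-Φ x) * Real.exp (-(t * N2 x))) := by
        rw [mul_pow]
        exact mul_le_mul h5 e1 (by positivity) (by positivity)
      refine h7.trans ?_
      have h8 := sq_nonneg (s * (t⁻¹ * (Y * Real.exp (-(t * N2 x)))) -
        s⁻¹ * ((t * X) * Real.exp (-Φ x)))
      have h9 : s * s⁻¹ = 1 := mul_inv_cancel₀ hs.ne'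
      have h10 : t * t⁻¹ = 1 := mul_inv_cancel₀ ht.ne'
      have h11 : (s * (t⁻¹ * (Y * Real.exp (-(t * N2 x))))) * (s⁻¹ * ((t * X) * Real.exp (-Φ x))) =
          (X * Y) * (Real.exp (-Φ x) * Real.exp (-(t * N2 x))) := by
        calc _ = (s * s⁻¹) * (t * t⁻¹) *
            ((X * Y) * (Real.exp (-Φ x) * Real.exp (-(t * N2 x)))) := by ring
          _ = _ := by rw [h9, h10]; ring
      nlinarith
    have h5 : ‖∫ x in Ω, (∑ j, u j x * conj (g j x)) * (Real.exp (-(Φ x - ψ x)) : ℝ)‖ ≤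
        ∫ x in Ω, (1 / 2) * (s * (t⁻¹ * ∑ j, ‖g j x‖ ^ 2 * Real.exp (-(t * N2 x))) +
          s⁻¹ * ((t * ∑ j, ‖u j x‖ ^ 2) * Real.exp (-Φ x))) :=
      norm_integral_le_of_norm_le (((hG.const_mul s).add (hN.const_mul s⁻¹)).const_mul (1 / 2))
        (ae_restrict_of_forall_mem ho.measurableSet h4)
    have e5 : ∫ x in Ω, (1 / 2) * (s * (t⁻¹ * ∑ j, ‖g j x‖ ^ 2 * Real.exp (-(t * N2 x))) +
          s⁻¹ * ((t * ∑ j, ‖u j x‖ ^ 2) * Real.exp (-Φ x))) = (1 / 2) * (s * A + s⁻¹ * B) := by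
      rw [integral_const_mul, integral_add (hG.const_mul s) (hN.const_mul s⁻¹),
        integral_const_mul s, hAe, integral_const_mul s⁻¹]
    rw [e5] at h5
    linarith
  refine (Pool.Agent.TH239.CE.sq_le_of_forall_t (norm_nonneg _) hA0 hB0 key).trans ?_
  exact mul_le_mul_of_nonneg_left h1 hA0

end Pool.Agent.Y262
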