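import Pool.Agent.Y262.Hor1

/-! The weighted solution on a pseudoconvex domain. -/

set_option autoImplicit false

open MeasureTheory Complex Filter Topology Metric
open scoped ContDiff InnerProductSpace ENNReal ComplexConjugate

namespace Pool.Agent.Y262

open BK BK.JB3 BK.JB6

variable {n : ℕ}

theorem nrm_subΩ (Ω : Set (En n)) (Φ : En n → ℝ) (u : L2 Ω) (w : En n → ℂ)
    (w' : L2 Ω)
    (hw : (w' : En n → ℂ) =ᵐ[(volume : Measure (En n)).restrict Ω]
      fun x => w x * (wdM Φ x : ℂ)) :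
    ‖u - w'‖ ^ 2 = ∫ x in Ω, ‖u x * (wdP Φ x : ℂ) - w x‖ ^ 2 * Real.exp (-Φ x) := by
  rw [wd_norm_sq]
  apply integral_congr_ae
  filter_upwards [Lp.coeFn_sub u w', hw] with x hx hx'
  rw [hx, Pi.sub_apply, hx', wd_MM]
  have h1 : u x - w x * (wdM Φ x : ℂ) = (u x * (wdP Φ x : ℂ) - w x) * (wdM Φ x : ℂ) := by
    linear_combination (-(u x)) * wd_PMc Φ x
  rw [h1, norm_mul, Complex.norm_real, Real.norm_of_nonneg (wd_M0 Φ x)]
  ring

theorem nrm_eqΩ (Ω : Set (En n)) (Φ : En n → ℝ) (w : En n → ℂ)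
    (w' : L2 Ω)
    (hw : (w' : En n → ℂ) =ᵐ[(volume : Measure (En n)).restrict Ω]
      fun x => w x * (wdM Φ x : ℂ)) :
    ‖w'‖ ^ 2 = ∫ x in Ω, ‖w x‖ ^ 2 * Real.exp (-Φ x) := by
  rw [wd_norm_sq]
  apply integral_congr_ae
  filter_upwards [hw] with x hx
  rw [hx, wd_MM, norm_mul, Complex.norm_real, Real.norm_of_nonneg (wd_M0 Φ x)]
  ring

theorem hor2 (Ω : Set (En n)) (ho : IsOpen Ω) {L : Set (En n)}
    {φ ψ : En n → ℝ} {η : ℕ → En n → ℝ} (hW : Wts Ω L 1 φ ψ η) {t : ℝ} (ht : 0 < t)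
    (g : Fin n → En n → ℂ) (hg : ∀ j, MemLp (g j) 2 (volume.restrict Ω))
    (hgc : ∀ j k ρ, IsTest Ω ρ → ∫ x in Ω, g j x * dbar k ρ x = ∫ x in Ω, g k x * dbar j ρ x) :
    ∃ v : En n → ℂ,
      MemLp (fun x => v x * (Real.exp (-(φ x + t * N2 x - 2 * ψ x) / 2) : ℝ)) 2
        (volume.restrict Ω) ∧
      (∀ j ρ, IsTest Ω ρ → ∫ x in Ω, v x * dbar j ρ x = - ∫ x in Ω, g j x * ρ x) ∧
      ∫ x in Ω, ‖v x‖ ^ 2 * Real.exp (-(φ x + t * N2 x - 2 * ψ x)) ≤
        (1 + 1) * (t⁻¹ * ∑ j, ∫ x in Ω, ‖g j x‖ ^ 2 * Real.exp (-(t * N2 x))) := by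
  obtain ⟨Φ, hΦ⟩ : ∃ Φ : En n → ℝ, Φ = fun x => φ x + t * N2 x := ⟨_, rfl⟩
  have e0 : ∀ x, φ x + t * N2 x = Φ x := fun x => by rw [hΦ]
  have W' := wts_tN ho hW ht
  rw [← hΦ] at W'
  obtain ⟨t1, ht1⟩ : ∃ t1 : En n → ℝ, t1 = fun x => Φ x - 2 * ψ x := ⟨_, rfl⟩
  obtain ⟨t2, ht2⟩ : ∃ t2 : En n → ℝ, t2 = fun x => Φ x - ψ x := ⟨_, rfl⟩
  have e1 : ∀ x, Φ x - 2 * ψ x = t1 x := fun x => by rw [ht1]
  have e2 : ∀ x, Φ x - ψ x = t2 x := fun x => by rw [ht2]
  have ct1 : ContinuousOn t1 Ω := by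
    rw [ht1]
    exact W'.sφ.continuousOn.sub (continuousOn_const.mul W'.sψ.continuousOn)
  have ct2 : ContinuousOn t2 Ω := by
    rw [ht2]
    exact W'.sφ.continuousOn.sub W'.sψ.continuousOn
  have ct3 : ContinuousOn Φ Ω := W'.sφ.continuousOn
  have nt2 : ∀ x, 0 ≤ t2 x := fun x => by
    have := W'.φ2 x
    have := W'.ψ0 x
    rw [← e2]; linarith
  simp only [e0, e1]
  obtain ⟨T, hT, hTc⟩ := wd_T Ω ho (wdP t1) (wdP t2) (wd_cP ct1) (wd_cP ct2)
  obtain ⟨S, hS, hSc⟩ := wd_S Ω ho (wdP t2) (wdP Φ) (wd_cP ct2) (wd_cP ct3)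
  have hz : ∀ (p : Pr n) (θ : En n → ℂ), ∫ x in Ω, (0 : Form2 Ω) p x * θ x = 0 := by
    intro p θ
    apply integral_eq_zero_of_ae
    have : (((0 : Form2 Ω) p : L2 Ω) : En n → ℂ) =ᵐ[(volume : Measure (En n)).restrict Ω] 0 :=
      Lp.coeFn_zero ℂ 2 _
    filter_upwards [this] with x hx
    rw [hx]
    simp
  have hTS : ∀ f g, (f, g) ∈ T → (g, (0 : Form2 Ω)) ∈ S := by
    intro f g hfg
    rw [hS]
    intro p ρ hρ
    have a1 := (hT f g).1 hfg p.1.2 (dbar p.1.1 ρ) (wd_isTest hρ _)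
    have a2 := (hT f g).1 hfg p.1.1 (dbar p.1.2 ρ) (wd_isTest hρ _)
    have a3 : ∫ x in Ω, f x * ((wdP t1 x : ℂ) * dbar p.1.2 (dbar p.1.1 ρ) x) =
        ∫ x in Ω, f x * ((wdP t1 x : ℂ) * dbar p.1.1 (dbar p.1.2 ρ) x) := by
      congr 1
      funext x
      rw [wd_comm hρ.smooth]
    have i1 : Integrable (fun x => g p.1.2 x * ((wdP t2 x : ℂ) * dbar p.1.1 ρ x))
        ((volume : Measure (En n)).restrict Ω) :=
      (Lp.memLp (g p.1.2)).integrable_mul (wd_memLp ho (wd_cP ct2)
        (wd_isTest hρ p.1.1).smooth.continuous (wd_isTest hρ p.1.1).compact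
        (wd_isTest hρ p.1.1).supp)
    have i2 : Integrable (fun x => g p.1.1 x * ((wdP t2 x : ℂ) * dbar p.1.2 ρ x))
        ((volume : Measure (En n)).restrict Ω) :=
      (Lp.memLp (g p.1.1)).integrable_mul (wd_memLp ho (wd_cP ct2)
        (wd_isTest hρ p.1.2).smooth.continuous (wd_isTest hρ p.1.2).compact
        (wd_isTest hρ p.1.2).supp)
    rw [integral_sub i1 i2, hz p, neg_zero]
    rw [a3, a2] at a1
    linear_combination a1
  -- the data
  have hg1 : ∀ j, Integrable (fun x => ‖g j x‖ ^ 2 * Real.exp (-(t * N2 x)))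
      (volume.restrict Ω) := by
    intro j
    have h1 : Integrable (fun x => ‖g j x‖ ^ 2) (volume.restrict Ω) := (hg j).integrable_norm_pow
      (by norm_num)
    refine h1.mono' ?_ (Eventually.of_forall fun x => ?_)
    · exact h1.aestronglyMeasurable.mul
        (Real.continuous_exp.comp (tN_smooth t).continuous.neg).aestronglyMeasurable
    · rw [Real.norm_of_nonneg (by positivity)]
      apply mul_le_of_le_one_right (by positivity)
      apply Real.exp_le_one_iff.2
      have := mul_nonneg ht.le (N2_nonneg x)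
      linarith
  have mg : ∀ j, MemLp (fun x => (wdM t2 x : ℂ) * g j x) 2
      ((volume : Measure (En n)).restrict Ω) := by
    intro j
    have hm : AEStronglyMeasurable (fun x => (wdM t2 x : ℂ))
        ((volume : Measure (En n)).restrict Ω) :=
      (Complex.continuous_ofReal.comp_continuousOn (wd_cM ct2)).aestronglyMeasurable
        ho.measurableSet
    refine (hg j).of_le (hm.mul (hg j).1) (Eventually.of_forall fun x => ?_)
    · rw [norm_mul, Complex.norm_real, Real.norm_of_nonneg (wd_M0 t2 x)]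
      exact mul_le_of_le_one_left (norm_nonneg _) (wd_M1 t2 nt2 x)
  obtain ⟨gt, hgt⟩ : ∃ gt : Form Ω, ∀ j,
      (gt j : En n → ℂ) =ᵐ[(volume : Measure (En n)).restrict Ω]
      fun x => (wdM t2 x : ℂ) * g j x := ⟨WithLp.toLp 2 (fun j => (mg j).toLp _),
        fun j => (mg j).coeFn_toLp⟩
  have hgI : ∀ j (ρ : En n → ℂ), IsTest Ω ρ → Integrable (fun x => g j x * ρ x)
      (volume.restrict Ω) := fun j ρ hρ => by
    have hρ2 : MemLp ρ 2 ((volume : Measure (En n)).restrict Ω) :=
      (hρ.smooth.continuous.memLp_of_hasCompactSupport hρ.compact).restrict Ω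
    exact (hg j).integrable_mul hρ2
  have hgtS : (gt, (0 : Form2 Ω)) ∈ S := by
    rw [hS]
    intro p ρ hρ
    rw [hz p, neg_zero]
    have b1 : ∫ x in Ω, (gt p.1.2 x * ((wdP t2 x : ℂ) * dbar p.1.1 ρ x) -
        gt p.1.1 x * ((wdP t2 x : ℂ) * dbar p.1.2 ρ x)) =
        ∫ x in Ω, (g p.1.2 x * dbar p.1.1 ρ x - g p.1.1 x * dbar p.1.2 ρ x) := by
      apply integral_congr_ae
      filter_upwards [hgt p.1.1, hgt p.1.2] with x hx hx'
      rw [hx, hx']
      linear_combination (g p.1.2 x * dbar p.1.1 ρ x - g p.1.1 x * dbar p.1.2 ρ x) * wd_PMc t2 x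
    rw [b1, integral_sub (hgI _ _ (wd_isTest hρ _)) (hgI _ _ (wd_isTest hρ _)),
      hgc p.1.2 p.1.1 ρ hρ, sub_self]
  have hgtall : ∀ᵐ x ∂((volume : Measure (En n)).restrict Ω), ∀ j,
      gt j x = (wdM t2 x : ℂ) * g j x := ae_all_iff.2 hgt
  obtain ⟨A, hA⟩ : ∃ A : ℝ, A = t⁻¹ * ∑ j, ∫ x in Ω, ‖g j x‖ ^ 2 * Real.exp (-(t * N2 x)) :=
    ⟨_, rfl⟩
  have hA0 : 0 ≤ A := by
    rw [hA]
    exact mul_nonneg (inv_nonneg.2 ht.le) (Finset.sum_nonneg fun j _ =>
      integral_nonneg fun x => by positivity)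
  rw [← hA]
  -- a priori inequality
  have hap : ∀ u f c, AdjR T u f → (u, c) ∈ S →
      ‖inner ℂ u gt‖ ^ 2 ≤ ((1 + 1) * A) * ‖f‖ ^ 2 + A * ‖c‖ ^ 2 := by
    intro u f c hadj huc
    have hR : LRel Ω Φ ψ (fun j x => u j x * (wdP t2 x : ℂ)) (fun x => f x * (wdP t1 x : ℂ))
        (fun p x => c p x * (wdP Φ x : ℂ)) := by
      refine ⟨?_, ?_, ?_, ?_, ?_⟩
      · intro j
        have : (fun x => u j x * (wdP t2 x : ℂ) * (Real.exp (-(Φ x - ψ x) / 2) : ℝ)) =
            (u j : En n → ℂ) := by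
          funext x
          rw [e2]
          exact wd_back t2 x _
        rw [this]
        exact Lp.memLp (u j)
      · have : (fun x => f x * (wdP t1 x : ℂ) * (Real.exp (-(Φ x - 2 * ψ x) / 2) : ℝ)) =
            (f : En n → ℂ) := by
          funext x
          rw [e1]
          exact wd_back t1 x _
        rw [this]
        exact Lp.memLp f
      · intro p
        have : (fun x => c p x * (wdP Φ x : ℂ) * (Real.exp (-Φ x / 2) : ℝ)) =
            (c p : En n → ℂ) := by
          funext x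
          exact wd_back Φ x _
        rw [this]
        exact Lp.memLp (c p)
      · intro ρ hρ
        have mh := wd_memLp ho (wd_cM ct1) hρ.smooth.continuous hρ.compact hρ.supp
        have mq := fun j => wd_memLp ho (wd_cM ct2) (wd_isTest hρ j).smooth.continuous
          (wd_isTest hρ j).compact (wd_isTest hρ j).supp
        obtain ⟨h, hh⟩ : ∃ h : L2 Ω, (h : En n → ℂ) =ᵐ[(volume : Measure (En n)).restrict Ω]
            fun x => (wdM t1 x : ℂ) * ρ x := ⟨mh.toLp _, mh.coeFn_toLp⟩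
        obtain ⟨q, hq⟩ : ∃ q : Form Ω, ∀ j, (q j : En n → ℂ)
            =ᵐ[(volume : Measure (En n)).restrict Ω] fun x => (wdM t2 x : ℂ) * dbar j ρ x :=
          ⟨WithLp.toLp 2 (fun j => (mq j).toLp _), fun j => (mq j).coeFn_toLp⟩
        have hmem : (h, q) ∈ T := by
          rw [hT]
          intro j σ hσ
          have b1 : ∫ x in Ω, h x * ((wdP t1 x : ℂ) * dbar j σ x) = ∫ x in Ω, ρ x * dbar j σ x := by
            apply integral_congr_ae
            filter_upwards [hh] with x hx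
            rw [hx]
            linear_combination (ρ x * dbar j σ x) * wd_PMc t1 x
          have b2 : ∫ x in Ω, q j x * ((wdP t2 x : ℂ) * σ x) = ∫ x in Ω, dbar j ρ x * σ x := by
            apply integral_congr_ae
            filter_upwards [hq j] with x hx
            rw [hx]
            linear_combination (dbar j ρ x * σ x) * wd_PMc t2 x
          rw [b1, b2]
          exact wd_ibpΩ hρ hσ j
        have b3 := hadj (h, q) hmem
        simp only at b3
        rw [wd_inner_pi, wd_inner] at b3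
        have hqall : ∀ᵐ x ∂((volume : Measure (En n)).restrict Ω), ∀ j,
            q j x = (wdM t2 x : ℂ) * dbar j ρ x := ae_all_iff.2 hq
        have b4 : ∫ x in Ω, (∑ j, u j x * (wdP t2 x : ℂ) * conj (dbar j ρ x)) *
            (Real.exp (-(Φ x - ψ x)) : ℝ) = ∫ x in Ω, ∑ i, conj (q i x) * u i x := by
          apply integral_congr_ae
          filter_upwards [hqall] with x hx
          rw [Finset.sum_mul, e2, wd_MM]
          apply Finset.sum_congr rfl
          intro j _
          rw [hx j, map_mul, Complex.conj_ofReal, Complex.ofReal_mul]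
          linear_combination (u j x * conj (dbar j ρ x) * (wdM t2 x : ℂ)) * wd_PMc t2 x
        have b5 : ∫ x in Ω, f x * (wdP t1 x : ℂ) * conj (ρ x) *
            (Real.exp (-(Φ x - 2 * ψ x)) : ℝ) = ∫ x in Ω, conj (h x) * f x := by
          apply integral_congr_ae
          filter_upwards [hh] with x hx
          rw [e1, wd_MM, hx, map_mul, Complex.conj_ofReal, Complex.ofReal_mul]
          linear_combination (f x * conj (ρ x) * (wdM t1 x : ℂ)) * wd_PMc t1 x
        exact b4.trans (b3.trans b5.symm)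
      · intro p ρ hρ
        have b1 := (hS u c).1 huc p ρ hρ
        have b2 : ∀ x, u p.1.2 x * (wdP t2 x : ℂ) * dbar p.1.1 ρ x -
            u p.1.1 x * (wdP t2 x : ℂ) * dbar p.1.2 ρ x =
            u p.1.2 x * ((wdP t2 x : ℂ) * dbar p.1.1 ρ x) -
            u p.1.1 x * ((wdP t2 x : ℂ) * dbar p.1.2 ρ x) := fun x => by ring
        have b3 : ∀ x, c p x * (wdP Φ x : ℂ) * ρ x = c p x * ((wdP Φ x : ℂ) * ρ x) :=
          fun x => by ring
        simp_rw [b2, b3]
        exact b1
    -- the closed set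
    let Z : Set (Form Ω × L2 Ω × Form2 Ω) :=
      {q | ‖inner ℂ q.1 gt‖ ^ 2 ≤ ((1 + 1) * A) * ‖q.2.1‖ ^ 2 + A * ‖q.2.2‖ ^ 2}
    have hZ : IsClosed Z := by
      apply isClosed_le
      · exact (continuous_norm.comp (continuous_fst.inner continuous_const)).pow 2
      · fun_prop
    have hmem : (u, f, c) ∈ closure Z := by
      rw [Metric.mem_closure_iff]
      intro δ hδ
      obtain ⟨v, hv, a1, a2, a3⟩ := Pool.Agent.TH239.CE.denU Ω ho ∅ 1 Φ ψ η one_pos W' _ _ _ hR
        ((δ / 2) ^ 2) (by positivity)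
      have hphs : ContDiffOn ℝ ∞ (fun y => ((Φ y - ψ y : ℝ) : ℂ)) Ω :=
        Complex.ofRealCLM.contDiff.comp_contDiffOn (W'.sφ.sub W'.sψ)
      have hsub : ∀ x, x ∉ (⋃ j, tsupport (v j)) → Tst Φ ψ v x = 0 := by
        intro x hx
        have h2 : ∀ j, x ∉ tsupport (v j) := fun j h => hx (Set.mem_iUnion.2 ⟨j, h⟩)
        unfold Tst
        rw [Finset.sum_eq_zero]
        · simp
        intro j _
        have h3 : fderiv ℝ (v j) x = 0 := fderiv_of_notMem_tsupport (𝕜 := ℝ) (h2 j)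
        rw [image_eq_zero_of_notMem_tsupport (h2 j)]
        simp [dz, h3]
      have hTcont : ContinuousOn (Tst Φ ψ v) Ω := by
        unfold Tst
        refine ContinuousOn.mul ?_ (ContinuousOn.neg (continuousOn_finsetSum _ fun j _ =>
          (BK.JB2.dz_cont352 ho (hv j).smooth.contDiffOn j).sub
            ((BK.JB2.dz_cont352 ho hphs j).mul (hv j).smooth.continuous.continuousOn)))
        exact Complex.continuous_ofReal.comp_continuousOn
          (Real.continuous_exp.comp_continuousOn W'.sψ.continuousOn.neg)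
      have hTm : MemLp (fun x => Tst Φ ψ v x * (wdM t1 x : ℂ)) 2
          ((volume : Measure (En n)).restrict Ω) := by
        have hc : ContinuousOn (fun x => Tst Φ ψ v x * (wdM t1 x : ℂ)) Ω :=
          hTcont.mul (Complex.continuous_ofReal.comp_continuousOn (wd_cM ct1))
        have hKc : IsCompact (⋃ j, tsupport (v j)) := isCompact_iUnion fun j => (hv j).compact
        have hKs : (⋃ j, tsupport (v j)) ⊆ Ω := Set.iUnion_subset fun j => (hv j).supp
        obtain ⟨M, hM⟩ := hKc.exists_bound_of_continuousOn (hc.mono hKs)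
        have hind : (fun x => Tst Φ ψ v x * (wdM t1 x : ℂ)) =
            (⋃ j, tsupport (v j)).indicator (fun x => Tst Φ ψ v x * (wdM t1 x : ℂ)) := by
          funext x
          by_cases hx : x ∈ (⋃ j, tsupport (v j))
          · rw [Set.indicator_of_mem hx]
          · rw [Set.indicator_of_notMem hx, hsub x hx, zero_mul]
        rw [hind, memLp_indicator_iff_restrict hKc.measurableSet,
          Measure.restrict_restrict hKc.measurableSet, Set.inter_eq_left.2 hKs]
        have hfin : IsFiniteMeasure ((volume : Measure (En n)).restrict (⋃ j, tsupport (v j))) :=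
          ⟨by rw [Measure.restrict_apply_univ]; exact hKc.measure_lt_top⟩
        refine MemLp.of_bound ((hc.mono hKs).aestronglyMeasurable hKc.measurableSet) M ?_
        exact ae_restrict_of_forall_mem hKc.measurableSet fun x hx => hM x hx
      have hSsm : ∀ p, IsTest Ω (Sst v p) := by
        intro p
        have ha := wd_isTest (hv p.1.2) p.1.1
        have hb := wd_isTest (hv p.1.1) p.1.2
        refine ⟨?_, ?_, ?_⟩
        · unfold Sst
          exact ha.smooth.sub hb.smooth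
        · unfold Sst
          exact ha.compact.sub hb.compact
        · have h1 : tsupport (Sst v p) ⊆ tsupport (dbar p.1.1 (v p.1.2)) ∪
              tsupport (dbar p.1.2 (v p.1.1)) := by
            apply closure_minimal _ ((isClosed_tsupport _).union (isClosed_tsupport _))
            intro x hx
            by_contra hcon
            apply hx
            rw [Set.mem_union, not_or] at hcon
            unfold Sst
            rw [image_eq_zero_of_notMem_tsupport hcon.1, image_eq_zero_of_notMem_tsupport hcon.2,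
              sub_zero]
          exact h1.trans (Set.union_subset ha.supp hb.supp)
      have mM : ∀ (s : En n → ℝ), ContinuousOn s Ω → ∀ w : En n → ℂ, IsTest Ω w →
          MemLp (fun x => w x * (wdM s x : ℂ)) 2
            ((volume : Measure (En n)).restrict Ω) := by
        intro s hs w hw
        have := wd_memLp ho (wd_cM hs) hw.smooth.continuous hw.compact hw.supp
        simpa only [mul_comm] using this
      obtain ⟨v', hv'⟩ : ∃ v' : Form Ω, ∀ j,
          (v' j : En n → ℂ) =ᵐ[(volume : Measure (En n)).restrict Ω]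
          fun x => v j x * (wdM t2 x : ℂ) :=
        ⟨WithLp.toLp 2 (fun j => (mM t2 ct2 _ (hv j)).toLp _),
          fun j => (mM t2 ct2 _ (hv j)).coeFn_toLp⟩
      obtain ⟨f', hf'⟩ : ∃ f' : L2 Ω,
          (f' : En n → ℂ) =ᵐ[(volume : Measure (En n)).restrict Ω]
          fun x => Tst Φ ψ v x * (wdM t1 x : ℂ) :=
        ⟨hTm.toLp _, hTm.coeFn_toLp⟩
      obtain ⟨c', hc'⟩ : ∃ c' : Form2 Ω, ∀ p,
          (c' p : En n → ℂ) =ᵐ[(volume : Measure (En n)).restrict Ω]
          fun x => Sst v p x * (wdM Φ x : ℂ) :=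
        ⟨WithLp.toLp 2 (fun p => (mM Φ ct3 _ (hSsm p)).toLp _),
          fun p => (mM Φ ct3 _ (hSsm p)).coeFn_toLp⟩
      have d1 : ‖u - v'‖ ^ 2 ≤ (δ / 2) ^ 2 := by
        rw [PiLp.norm_sq_eq_of_L2]
        simp only [PiLp.sub_apply]
        simp only [nrm_subΩ Ω t2 _ _ _ (hv' _)]
        simpa only [e2] using a1
      have d2 : ‖f - f'‖ ^ 2 ≤ (δ / 2) ^ 2 := by
        rw [nrm_subΩ Ω t1 _ _ _ hf']
        simpa only [e1] using a2
      have d3 : ‖c - c'‖ ^ 2 ≤ (δ / 2) ^ 2 := by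
        rw [PiLp.norm_sq_eq_of_L2]
        simp only [PiLp.sub_apply]
        simp only [nrm_subΩ Ω Φ _ _ _ (hc' _)]
        exact a3
      refine ⟨(v', f', c'), ?_, ?_⟩
      · show ‖inner ℂ v' gt‖ ^ 2 ≤ ((1 + 1) * A) * ‖f'‖ ^ 2 + A * ‖c'‖ ^ 2
        have h1 := ap2 Ω ho one_pos hW ht v hv Φ hΦ g hg1
        have h2 : ‖inner ℂ v' gt‖ =
            ‖∫ x in Ω, (∑ j, v j x * conj (g j x)) * (Real.exp (-(Φ x - ψ x)) : ℝ)‖ := by
          rw [norm_inner_symm, wd_inner_pi]
          congr 1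
          apply integral_congr_ae
          have hv'all : ∀ᵐ x ∂((volume : Measure (En n)).restrict Ω), ∀ j,
            v' j x = v j x * (wdM t2 x : ℂ) := ae_all_iff.2 hv'
          filter_upwards [hgtall, hv'all] with x hx hx'
          rw [Finset.sum_mul, e2, wd_MM]
          apply Finset.sum_congr rfl
          intro j _
          rw [hx j, hx' j, map_mul, Complex.conj_ofReal]
          push_cast
          ring
        have h3 : ‖f'‖ ^ 2 = ∫ x in Ω, ‖Tst Φ ψ v x‖ ^ 2 * Real.exp (-(Φ x - 2 * ψ x)) := by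
          rw [nrm_eqΩ Ω t1 _ _ hf']
          simp only [e1]
        have h4 : ‖c'‖ ^ 2 = ∑ p, ∫ x in Ω, ‖Sst v p x‖ ^ 2 * Real.exp (-(Φ x)) := by
          rw [PiLp.norm_sq_eq_of_L2]
          apply Finset.sum_congr rfl
          intro p _
          rw [nrm_eqΩ Ω Φ _ _ (hc' p)]
        rw [h2, h3, h4]
        rw [← hA] at h1
        refine h1.trans (le_of_eq ?_)
        ring
      · have hd : ∀ x : ℝ, 0 ≤ x → x ^ 2 ≤ (δ / 2) ^ 2 → x < δ := by
          intro x hx hx2
          have := le_of_sq_le_sq hx2 (by positivity)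
          linarith
        rw [Prod.dist_eq, Prod.dist_eq]
        refine max_lt ?_ (max_lt ?_ ?_)
        · rw [dist_eq_norm]; exact hd _ (norm_nonneg _) d1
        · rw [dist_eq_norm]; exact hd _ (norm_nonneg _) d2
        · rw [dist_eq_norm]; exact hd _ (norm_nonneg _) d3
    have := hZ.closure_eq ▸ hmem
    exact this
  obtain ⟨f, G, C, hfG, hG0, h6, h7, h8, h9, h10⟩ := BK.JB5.dual_abs T S hTc hSc hTS gt
    ((1 + 1) * A) A (by positivity) hA0 hap
  have hGg : G = gt := by
    have h1 : (G - gt, (0 : Form2 Ω)) ∈ S := by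
      have := S.sub_mem hG0 hgtS
      rwa [Prod.mk_sub_mk, sub_zero] at this
    have h2 := h6 _ h1
    rw [← sub_eq_zero, ← inner_sub_right] at h2
    exact sub_eq_zero.1 (inner_self_eq_zero.1 h2)
  refine ⟨fun x => f x * (wdP t1 x : ℂ), ?_, ?_, ?_⟩
  · have : (fun x => f x * (wdP t1 x : ℂ) * (Real.exp (-t1 x / 2) : ℝ)) = (f : En n → ℂ) := by
      funext x
      exact wd_back t1 x _
    rw [this]
    exact Lp.memLp f
  · intro j ρ hρ
    have b1 := (hT f G).1 hfG j ρ hρ
    rw [hGg] at b1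
    have b2 : ∫ x in Ω, gt j x * ((wdP t2 x : ℂ) * ρ x) = ∫ x in Ω, g j x * ρ x := by
      apply integral_congr_ae
      filter_upwards [hgt j] with x hx
      rw [hx]
      linear_combination (g j x * ρ x) * wd_PMc t2 x
    rw [b2] at b1
    rw [← b1]
    congr 1
    funext x
    ring
  · have h1 := wd_norm_sq Ω f
    have h2 : ∫ x in Ω, ‖f x * (wdP t1 x : ℂ)‖ ^ 2 * Real.exp (-t1 x) = ‖f‖ ^ 2 := by
      rw [h1]
      congr 1
      funext x
      exact wd_sqback t1 x _
    rw [h2]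
    exact h9

end Pool.Agent.Y262
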