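import Pool.Agent.Y262.Base
import Pool.Agent.Y262.Hor2
import Pool.Agent.H314.BK.B8
import Pool.Agent.H314.BK.B9

/-! Hörmander's theorem on a bounded pseudoconvex domain with the weight `t|x|²`. -/

set_option autoImplicit false

open MeasureTheory Complex Filter Topology Metric
open scoped ContDiff InnerProductSpace ENNReal ComplexConjugate

namespace Pool.Agent.Y262

open BK BK.JB3 BK.JB6

variable {n : ℕ}

theorem isTest_zero {Ω : Set (En n)} : IsTest Ω (fun _ => (0 : ℂ)) where
  smooth := contDiff_const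
  compact := by
    apply HasCompactSupport.intro isCompact_empty
    intro x _
    rfl
  supp := by
    have : tsupport (fun _ : En n => (0 : ℂ)) = ∅ := by
      rw [tsupport_eq_empty_iff]; rfl
    rw [this]
    exact Set.empty_subset _

theorem isTest_add {Ω : Set (En n)} {a b : En n → ℂ} (ha : IsTest Ω a) (hb : IsTest Ω b) :
    IsTest Ω (fun x => a x + b x) where
  smooth := ha.smooth.add hb.smooth
  compact := ha.compact.add hb.compact
  supp := (tsupport_add a b).trans (Set.union_subset ha.supp hb.supp)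

theorem isTest_smul {Ω : Set (En n)} {a : En n → ℂ} (ha : IsTest Ω a) (c : ℂ) :
    IsTest Ω (fun x => c * a x) where
  smooth := contDiff_const.mul ha.smooth
  compact := ha.compact.mul_left
  supp := (tsupport_mul_subset_right (f := fun _ => c) (g := a)).trans ha.supp

/-- vectors of test functions -/
def tV (Ω : Set (En n)) : Submodule ℂ (Fin n → En n → ℂ) where
  carrier := {ρ | ∀ j, IsTest Ω (ρ j)}
  add_mem' := fun ha hb j => isTest_add (ha j) (hb j)
  zero_mem' := fun _ => isTest_zero
  smul_mem' := fun c _ ha j => isTest_smul (ha j) c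

/-- the divergence -/
noncomputable def dv (ρ : Fin n → En n → ℂ) (x : En n) : ℂ := ∑ j, dbar j (ρ j) x

theorem dbar_add' {a b : En n → ℂ} (ha : ContDiff ℝ ∞ a) (hb : ContDiff ℝ ∞ b) (j : Fin n)
    (x : En n) : dbar j (fun y => a y + b y) x = dbar j a x + dbar j b x := by
  unfold dbar
  rw [fderiv_fun_add ((ha.differentiable (by simp)) x) ((hb.differentiable (by simp)) x)]
  simp only [add_apply]
  ring

theorem dbar_smul' {a : En n → ℂ} (ha : ContDiff ℝ ∞ a) (c : ℂ) (j : Fin n)
    (x : En n) : dbar j (fun y => c * a y) x = c * dbar j a x := by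
  unfold dbar
  rw [fderiv_const_mul ((ha.differentiable (by simp)) x)]
  simp only [smul_apply, smul_eq_mul]
  ring

theorem dv_test {Ω : Set (En n)} {ρ : Fin n → En n → ℂ} (h : ∀ j, IsTest Ω (ρ j)) :
    Continuous (dv ρ) ∧ ∀ x, x ∉ (⋃ j, tsupport (ρ j)) → dv ρ x = 0 := by
  constructor
  · exact continuous_finsetSum _ fun j _ => (wd_isTest (h j) j).smooth.continuous
  · intro x hx
    unfold dv
    apply Finset.sum_eq_zero
    intro j _
    have h1 : fderiv ℝ (ρ j) x = 0 :=
      fderiv_of_notMem_tsupport (𝕜 := ℝ) (fun h => hx (Set.mem_iUnion.2 ⟨j, h⟩))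
    simp [dbar, h1]

theorem dv_memLp {Ω : Set (En n)} {ρ : Fin n → En n → ℂ} (h : ∀ j, IsTest Ω (ρ j)) (t : ℝ) :
    MemLp (fun x => (Real.exp (t * N2 x / 2) : ℂ) * dv ρ x) 2
      ((volume : Measure (En n)).restrict Ω) := by
  obtain ⟨h1, h2⟩ := dv_test h
  have hc : Continuous (fun x => (Real.exp (t * N2 x / 2) : ℂ) * dv ρ x) := by
    refine Continuous.mul ?_ h1
    exact Complex.continuous_ofReal.comp (Real.continuous_exp.comp
      ((tN_smooth t).continuous.div_const 2))
  have hs : HasCompactSupport (fun x => (Real.exp (t * N2 x / 2) : ℂ) * dv ρ x) := by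
    apply HasCompactSupport.intro (K := ⋃ j, tsupport (ρ j))
      (isCompact_iUnion fun j => (h j).compact)
    intro x hx
    rw [h2 x hx, mul_zero]
  exact (hc.memLp_of_hasCompactSupport hs).restrict Ω

/-- the operator -/
noncomputable def tT (Ω : Set (En n)) (t : ℝ) : tV Ω →ₗ[ℂ] L2 Ω where
  toFun ρ := (dv_memLp ρ.2 t).toLp _
  map_add' a b := by
    rw [← MemLp.toLp_add]
    apply MemLp.toLp_congr
    refine Eventually.of_forall fun x => ?_
    have h1 : dv (((a + b : tV Ω) : Fin n → En n → ℂ)) x = dv (a : Fin n → En n → ℂ) x +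
        dv (b : Fin n → En n → ℂ) x := by
      unfold dv
      rw [← Finset.sum_add_distrib]
      apply Finset.sum_congr rfl
      intro j _
      exact dbar_add' (a.2 j).smooth (b.2 j).smooth j x
    simp only [h1, Pi.add_apply]
    ring
  map_smul' c a := by
    rw [RingHom.id_apply, ← MemLp.toLp_const_smul]
    apply MemLp.toLp_congr
    refine Eventually.of_forall fun x => ?_
    have h1 : dv (((c • a : tV Ω) : Fin n → En n → ℂ)) x = c * dv (a : Fin n → En n → ℂ) x := by
      unfold dv
      rw [Finset.mul_sum]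
      apply Finset.sum_congr rfl
      intro j _
      exact dbar_smul' (a.2 j).smooth c j x
    simp only [h1, Pi.smul_apply, smul_eq_mul]
    ring

theorem test_int {Ω : Set (En n)} {g : En n → ℂ} (hg : MemLp g 2 (volume.restrict Ω))
    {ρ : En n → ℂ} (hρ : IsTest Ω ρ) : Integrable (fun x => g x * ρ x) (volume.restrict Ω) := by
  have hρ2 : MemLp ρ 2 ((volume : Measure (En n)).restrict Ω) :=
    (hρ.smooth.continuous.memLp_of_hasCompactSupport hρ.compact).restrict Ω
  exact hg.integrable_mul hρ2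

/-- the functional -/
noncomputable def tL (Ω : Set (En n)) (g : Fin n → En n → ℂ)
    (hg : ∀ j, MemLp (g j) 2 (volume.restrict Ω)) : tV Ω →ₗ[ℂ] ℂ where
  toFun ρ := -∑ j, ∫ x in Ω, g j x * (ρ : Fin n → En n → ℂ) j x
  map_add' a b := by
    rw [← neg_add, ← Finset.sum_add_distrib]
    congr 1
    apply Finset.sum_congr rfl
    intro j _
    rw [← integral_add (test_int (hg j) (a.2 j)) (test_int (hg j) (b.2 j))]
    congr 1
    funext x
    rw [Submodule.coe_add, Pi.add_apply, Pi.add_apply]
    ring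
  map_smul' c a := by
    rw [RingHom.id_apply, smul_eq_mul, mul_neg, Finset.mul_sum]
    congr 1
    apply Finset.sum_congr rfl
    intro j _
    rw [← integral_const_mul]
    congr 1
    funext x
    rw [Submodule.coe_smul, Pi.smul_apply, Pi.smul_apply, smul_eq_mul]
    ring

theorem hor (Ω : Set (En n)) (ho : IsOpen Ω) (hb : Bornology.IsBounded Ω) (hP : PscC Ω) :
    HorS Ω := by
  intro t ht g hg hgc
  have hWE : WE Ω := BK.JB9.we Ω ho hb (BK.JC3.pscS_of_pscC Ω ho hb hP)
  obtain ⟨A, hA⟩ : ∃ A : ℝ, A = (1 + 1) * (t⁻¹ * ∑ j, ∫ x in Ω, ‖g j x‖ ^ 2 *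
    Real.exp (-(t * N2 x))) := ⟨_, rfl⟩
  have hA0 : 0 ≤ A := by
    rw [hA]
    exact mul_nonneg (by norm_num) (mul_nonneg (inv_nonneg.2 ht.le) (Finset.sum_nonneg fun j _ =>
      integral_nonneg fun x => by positivity))
  have hkey : ∀ ρ : tV Ω, ‖tL Ω g hg ρ‖ ≤ √A * ‖tT Ω t ρ‖ := by
    intro ρ
    have hρ : ∀ j, IsTest Ω ((ρ : Fin n → En n → ℂ) j) := ρ.2
    obtain ⟨L, hL⟩ : ∃ L : Set (En n), L = ⋃ j, tsupport ((ρ : Fin n → En n → ℂ) j) := ⟨_, rfl⟩
    have hLc : IsCompact L := by
      rw [hL]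
      exact isCompact_iUnion fun j => (hρ j).compact
    have hLΩ : L ⊆ Ω := by
      rw [hL]
      exact Set.iUnion_subset fun j => (hρ j).supp
    obtain ⟨φ, ψ, η, hW⟩ := hWE L hLc hLΩ 1 one_pos
    obtain ⟨v, hv1, hv2, hv3⟩ := hor2 Ω ho hW ht g hg hgc
    rw [← hA] at hv3
    have hd := dv_test hρ
    rw [← hL] at hd
    have ht1 : ∀ x ∈ L, φ x + t * N2 x - 2 * ψ x = t * N2 x := by
      intro x hx
      have h1 := hW.zL x hx
      have h2 := hW.φ2 x
      have h3 := hW.ψ0 x
      have h4 : ψ x = 0 := by linarith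
      rw [h1, h4]
      ring
    -- pairing
    have hvt : ∀ (σ : En n → ℂ), IsTest Ω σ →
        Integrable (fun x => v x * σ x) (volume.restrict Ω) := by
      intro σ hσ
      have hm : MemLp (fun x => (Real.exp ((φ x + t * N2 x - 2 * ψ x) / 2) : ℂ) * σ x) 2
          ((volume : Measure (En n)).restrict Ω) := by
        apply wd_memLp (w := fun x => Real.exp ((φ x + t * N2 x - 2 * ψ x) / 2)) ho _
          hσ.smooth.continuous hσ.compact hσ.supp
        apply Real.continuous_exp.comp_continuousOn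
        apply ContinuousOn.div_const
        exact (hW.sφ.continuousOn.add (tN_smooth t).continuous.continuousOn).sub
          (continuousOn_const.mul hW.sψ.continuousOn)
      have := hv1.integrable_mul hm
      refine this.congr (Eventually.of_forall fun x => ?_)
      have he : (Real.exp (-(φ x + t * N2 x - 2 * ψ x) / 2) : ℂ) *
          (Real.exp ((φ x + t * N2 x - 2 * ψ x) / 2) : ℂ) = 1 := by
        rw [← Complex.ofReal_mul, ← Real.exp_add,
          show -(φ x + t * N2 x - 2 * ψ x) / 2 + (φ x + t * N2 x - 2 * ψ x) / 2 = 0 by ring,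
          Real.exp_zero, Complex.ofReal_one]
      simp only [Pi.mul_apply]
      linear_combination (v x * σ x) * he
    have h1 : tL Ω g hg ρ = ∫ x in Ω, v x * dv (ρ : Fin n → En n → ℂ) x := by
      show -∑ j, ∫ x in Ω, g j x * (ρ : Fin n → En n → ℂ) j x = _
      rw [← Finset.sum_neg_distrib]
      unfold dv
      simp_rw [Finset.mul_sum]
      rw [integral_finsetSum _ fun j _ => hvt _ (wd_isTest (hρ j) j)]
      apply Finset.sum_congr rfl
      intro j _
      rw [hv2 j _ (hρ j)]
    -- Cauchy-Schwarz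
    obtain ⟨f, hf⟩ : ∃ f : L2 Ω, (f : En n → ℂ) =ᵐ[(volume : Measure (En n)).restrict Ω]
        fun x => conj (v x * (Real.exp (-(φ x + t * N2 x - 2 * ψ x) / 2) : ℝ)) :=
      ⟨(hv1.star).toLp _, (hv1.star).coeFn_toLp⟩
    have hfn : ‖f‖ ^ 2 ≤ A := by
      rw [wd_norm_sq]
      refine le_trans (le_of_eq ?_) hv3
      apply integral_congr_ae
      filter_upwards [hf] with x hx
      rw [hx, RCLike.norm_conj, norm_mul, Complex.norm_real, Real.norm_of_nonneg
        (Real.exp_pos _).le, mul_pow, ← Real.exp_nat_mul]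
      congr 2
      push_cast
      ring
    have hTc : (tT Ω t ρ : En n → ℂ) =ᵐ[(volume : Measure (En n)).restrict Ω]
        fun x => (Real.exp (t * N2 x / 2) : ℂ) * dv (ρ : Fin n → En n → ℂ) x :=
      (dv_memLp hρ t).coeFn_toLp
    have h2 : inner ℂ f (tT Ω t ρ) = ∫ x in Ω, v x * dv (ρ : Fin n → En n → ℂ) x := by
      rw [wd_inner]
      apply integral_congr_ae
      filter_upwards [hf, hTc] with x hx hx'
      rw [hx, hx', Complex.conj_conj]
      by_cases hxL : x ∈ L
      · rw [ht1 x hxL]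
        have he : (Real.exp (-(t * N2 x) / 2) : ℂ) * (Real.exp (t * N2 x / 2) : ℂ) = 1 := by
          rw [← Complex.ofReal_mul, ← Real.exp_add,
            show -(t * N2 x) / 2 + t * N2 x / 2 = 0 by ring, Real.exp_zero, Complex.ofReal_one]
        linear_combination (v x * dv (ρ : Fin n → En n → ℂ) x) * he
      · rw [hd.2 x hxL]
        ring
    rw [h1, ← h2]
    refine (norm_inner_le_norm _ _).trans ?_
    apply mul_le_mul_of_nonneg_right _ (norm_nonneg _)
    exact Real.le_sqrt_of_sq_le hfn
  obtain ⟨w, hw1, hw2⟩ := BK.JB8.km_of_dk_riesz (tT Ω t) (tL Ω g hg) (√A) (Real.sqrt_nonneg _) hkey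
  have hwn : ‖w‖ ^ 2 ≤ A := by
    calc ‖w‖ ^ 2 ≤ (√A) ^ 2 := pow_le_pow_left₀ (norm_nonneg _) hw1 2
      _ = A := Real.sq_sqrt hA0
  have hcm : AEStronglyMeasurable (fun x => conj (w x) * (Real.exp (t * N2 x / 2) : ℂ))
      ((volume : Measure (En n)).restrict Ω) := by
    refine ((Lp.memLp w).star.1).mul ?_
    exact (Complex.continuous_ofReal.comp (Real.continuous_exp.comp
      ((tN_smooth t).continuous.div_const 2))).aestronglyMeasurable
  have hnt : nt Ω t (fun x => conj (w x) * (Real.exp (t * N2 x / 2) : ℂ)) =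
      ENNReal.ofReal (‖w‖ ^ 2) := by
    rw [wd_norm_sq]
    have hi : Integrable (fun x => ‖w x‖ ^ 2) ((volume : Measure (En n)).restrict Ω) :=
      (Lp.memLp w).integrable_norm_pow (by norm_num)
    rw [ofReal_integral_eq_lintegral_ofReal hi (Eventually.of_forall fun x => by positivity)]
    unfold nt
    congr 1
    funext x
    rw [enorm_sq_mul_wt]
    congr 1
    rw [norm_mul, RCLike.norm_conj, Complex.norm_real, Real.norm_of_nonneg (Real.exp_pos _).le,
      mul_pow, ← Real.exp_nat_mul, mul_assoc, ← Real.exp_add]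
    have : ((2 : ℕ) : ℝ) * (t * N2 x / 2) + -(t * N2 x) = 0 := by push_cast; ring
    rw [this, Real.exp_zero, mul_one]
  refine ⟨fun x => conj (w x) * (Real.exp (t * N2 x / 2) : ℂ), ?_, ?_, ?_⟩
  · apply memLp_of_nt ho hb ht.le hcm
    rw [hnt]
    exact ENNReal.ofReal_ne_top
  · intro j ρ hρ
    have hmem : (Pi.single j ρ : Fin n → En n → ℂ) ∈ tV Ω := by
      intro k
      rcases eq_or_ne k j with rfl | hkj
      · rw [Pi.single_eq_same]; exact hρ
      · rw [Pi.single_eq_of_ne hkj]; exact isTest_zero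
    have h1 := hw2 ⟨_, hmem⟩
    have h2 : tL Ω g hg ⟨_, hmem⟩ = - ∫ x in Ω, g j x * ρ x := by
      show -∑ k, ∫ x in Ω, g k x * (Pi.single j ρ : Fin n → En n → ℂ) k x = _
      rw [Finset.sum_eq_single j]
      · rw [Pi.single_eq_same]
      · intro k _ hkj
        rw [Pi.single_eq_of_ne hkj]
        simp
      · intro h
        exact absurd (Finset.mem_univ j) h
    have h3 : ∀ x, dv (Pi.single j ρ : Fin n → En n → ℂ) x = dbar j ρ x := by
      intro x
      unfold dv
      rw [Finset.sum_eq_single j]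
      · rw [Pi.single_eq_same]
      · intro k _ hkj
        rw [Pi.single_eq_of_ne hkj]
        simp [dbar]
      · intro h
        exact absurd (Finset.mem_univ j) h
    have hTc : (tT Ω t ⟨_, hmem⟩ : En n → ℂ) =ᵐ[(volume : Measure (En n)).restrict Ω]
        fun x => (Real.exp (t * N2 x / 2) : ℂ) * dv (Pi.single j ρ : Fin n → En n → ℂ) x :=
      (dv_memLp hmem t).coeFn_toLp
    rw [h2, wd_inner] at h1
    rw [h1]
    apply integral_congr_ae
    filter_upwards [hTc] with x hx
    rw [hx, h3]
    ring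
  · rw [hnt]
    refine (ENNReal.ofReal_le_ofReal hwn).trans (le_of_eq ?_)
    rw [hA]
    simp_rw [nt_eq (hg _) ht.le]
    rw [← ENNReal.ofReal_sum_of_nonneg fun j _ => integral_nonneg fun x => by positivity,
      ← ENNReal.ofReal_mul (by positivity)]
    congr 1
    rw [div_eq_mul_inv]
    ring

end Pool.Agent.Y262
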