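import Pool.Agent.Y262.Step

/-! Iteration of the contraction step. -/

set_option autoImplicit false

open MeasureTheory Complex Filter Topology Metric
open scoped ContDiff InnerProductSpace ENNReal ComplexConjugate

namespace Pool.Agent.Y262

open BK BK.JB3 BK.JB6

variable {n : ℕ}

theorem toLp_norm {Ω : Set (En n)} (ho : IsOpen Ω) (hb : Bornology.IsBounded Ω) {t : ℝ}
    (ht : 0 ≤ t) : ∃ K : ℝ, 0 ≤ K ∧ ∀ (f : En n → ℂ) (hf : MemLp f 2 (volume.restrict Ω))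
      (B : ℝ≥0∞), B ≠ ⊤ → nt Ω t f ≤ B → ‖(hf.toLp f : L2 Ω)‖ ^ 2 ≤ K * B.toReal := by
  obtain ⟨C, hC, h⟩ := nt_zero_le ho hb ht
  refine ⟨C.toReal, ENNReal.toReal_nonneg, fun f hf B hB hfB => ?_⟩
  rw [wd_norm_sq]
  have h1 : ∫ x in Ω, ‖(hf.toLp f : L2 Ω) x‖ ^ 2 = ∫ x in Ω, ‖f x‖ ^ 2 := by
    apply integral_congr_ae
    filter_upwards [hf.coeFn_toLp] with x hx
    rw [hx]
  have hm : AEStronglyMeasurable (fun x => ‖f x‖ ^ 2) ((volume : Measure (En n)).restrict Ω) :=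
    hf.1.norm.pow 2
  rw [h1, integral_eq_lintegral_of_nonneg_ae (Eventually.of_forall fun x => by positivity)
    hm, ← ENNReal.toReal_mul]
  apply ENNReal.toReal_mono (ENNReal.mul_ne_top hC hB)
  have h2 : ∫⁻ x in Ω, ENNReal.ofReal (‖f x‖ ^ 2) = ∫⁻ x in Ω, ‖f x‖ₑ ^ 2 := by
    congr 1
    funext x
    rw [enorm_sq_eq]
  rw [h2]
  exact (h f).trans (by gcongr)

/-- a state of the iteration -/
def Stt (Ω : Set (En n)) : Type := {p : (En n → ℂ) × (Fin n → En n → ℂ) //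
  MemLp p.1 2 (volume.restrict Ω) ∧ (∀ k, MemLp (p.2 k) 2 (volume.restrict Ω)) ∧
    WHol Ω p.1 p.2}

theorem iter (Ω : Set (En n)) (ho : IsOpen Ω) (hb : Bornology.IsBounded Ω)
    (hstep : ∃ C : ℝ≥0∞, C ≠ ⊤ ∧ ∃ t0 : ℝ, 1 ≤ t0 ∧ ∀ t : ℝ, t0 ≤ t →
      ∀ (c : En n → ℂ) (w : Fin n → En n → ℂ), MemLp c 2 (volume.restrict Ω) →
        (∀ k, MemLp (w k) 2 (volume.restrict Ω)) → WHol Ω c w →
        ∃ (g : En n → ℂ) (η : Fin n → En n → ℂ) (c' : En n → ℂ) (w' : Fin n → En n → ℂ),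
          MemLp g 2 (volume.restrict Ω) ∧ (∀ k, MemLp (η k) 2 (volume.restrict Ω)) ∧
          MemLp c' 2 (volume.restrict Ω) ∧ (∀ k, MemLp (w' k) 2 (volume.restrict Ω)) ∧
          WHol Ω c' w' ∧
          (∀ j ρ, IsTest Ω ρ → ∫ x in Ω, g x * dbar j ρ x = 0) ∧
          (∀ k ρ, IsTest Ω ρ → ∫ x in Ω, (w k x * ρ x - c x * dz k ρ x) =
            (∫ x in Ω, (η k x * ρ x - g x * dz k ρ x)) +
              ∫ x in Ω, (w' k x * ρ x - c' x * dz k ρ x)) ∧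
          XX Ω t c' w' ≤ C * ENNReal.ofReal t⁻¹ * XX Ω t c w ∧
          nt Ω t g ≤ C * XX Ω t c w ∧
          (∀ k, nt Ω t (η k) ≤ C * (ENNReal.ofReal t ^ 2 * XX Ω t c w)))
    (c : En n → ℂ) (w : Fin n → En n → ℂ) (hc : MemLp c 2 (volume.restrict Ω))
    (hw : ∀ k, MemLp (w k) 2 (volume.restrict Ω)) (hcw : WHol Ω c w) :
    ∃ (g : En n → ℂ) (η : Fin n → En n → ℂ),
      MemLp g 2 (volume.restrict Ω) ∧ (∀ k, MemLp (η k) 2 (volume.restrict Ω)) ∧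
      (∀ j ρ, IsTest Ω ρ → ∫ x in Ω, g x * dbar j ρ x = 0) ∧
      (∀ k ρ, IsTest Ω ρ → ∫ x in Ω, (w k x * ρ x - c x * dz k ρ x) =
        ∫ x in Ω, (η k x * ρ x - g x * dz k ρ x)) := by
  obtain ⟨C, hC, t0, ht0, hst⟩ := hstep
  -- the parameter
  obtain ⟨t, htt, htC⟩ : ∃ t : ℝ, t0 ≤ t ∧ C * ENNReal.ofReal t⁻¹ ≤ ENNReal.ofReal (1 / 4) := by
    refine ⟨max t0 (4 * C.toReal + 1), le_max_left _ _, ?_⟩
    have h1 : 4 * C.toReal + 1 ≤ max t0 (4 * C.toReal + 1) := le_max_right _ _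
    have h0 : 0 ≤ C.toReal := ENNReal.toReal_nonneg
    set τ := max t0 (4 * C.toReal + 1)
    have hτ : 0 < τ := by linarith
    rw [← ENNReal.ofReal_toReal hC, ← ENNReal.ofReal_mul h0]
    apply ENNReal.ofReal_le_ofReal
    rw [← div_eq_mul_inv, div_le_div_iff₀ hτ (by norm_num)]
    linarith
  have ht1 : 1 ≤ t := ht0.trans htt
  have htp : 0 < t := by linarith
  obtain ⟨K, hK0, hK⟩ := toLp_norm ho hb htp.le
  have hst' : ∀ s : Stt Ω, ∃ (g : En n → ℂ) (η : Fin n → En n → ℂ) (s' : Stt Ω),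
          MemLp g 2 (volume.restrict Ω) ∧ (∀ k, MemLp (η k) 2 (volume.restrict Ω)) ∧
          (∀ j ρ, IsTest Ω ρ → ∫ x in Ω, g x * dbar j ρ x = 0) ∧
          (∀ k ρ, IsTest Ω ρ → ∫ x in Ω, (s.1.2 k x * ρ x - s.1.1 x * dz k ρ x) =
            (∫ x in Ω, (η k x * ρ x - g x * dz k ρ x)) +
              ∫ x in Ω, (s'.1.2 k x * ρ x - s'.1.1 x * dz k ρ x)) ∧
          XX Ω t s'.1.1 s'.1.2 ≤ ENNReal.ofReal (1 / 4) * XX Ω t s.1.1 s.1.2 ∧
          nt Ω t g ≤ C * XX Ω t s.1.1 s.1.2 ∧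
          (∀ k, nt Ω t (η k) ≤ C * (ENNReal.ofReal t ^ 2 * XX Ω t s.1.1 s.1.2)) := by
    rintro ⟨⟨c, w⟩, h1, h2, h3⟩
    obtain ⟨g, η, c', w', a1, a2, a3, a4, a5, a6, a7, a8, a9, a10⟩ := hst t htt c w h1 h2 h3
    refine ⟨g, η, ⟨(c', w'), a3, a4, a5⟩, a1, a2, a6, a7, ?_, a9, a10⟩
    exact a8.trans (by gcongr)
  choose gg ηη nx hgm hηm hgw hid hX hng hnη using hst'
  obtain ⟨st, hst0, hsts⟩ : ∃ st : ℕ → Stt Ω, st 0 = ⟨(c, w), hc, hw, hcw⟩ ∧
      ∀ m, st (m + 1) = nx (st m) :=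
    ⟨fun m => Nat.rec ⟨(c, w), hc, hw, hcw⟩ (fun _ s => nx s) m, rfl, fun _ => rfl⟩
  obtain ⟨X, hXdef⟩ : ∃ X : ℕ → ℝ≥0∞, X = fun m => XX Ω t (st m).1.1 (st m).1.2 := ⟨_, rfl⟩
  have hX0 : X 0 ≠ ⊤ := by
    rw [hXdef]
    simp only
    rw [hst0]
    unfold XX
    exact ENNReal.add_ne_top.2 ⟨nt_ne_top hc htp.le, ENNReal.mul_ne_top
      (ENNReal.pow_ne_top ENNReal.ofReal_ne_top) (ENNReal.sum_ne_top.2 fun k _ =>
        nt_ne_top (hw k) htp.le)⟩
  have hXs : ∀ m, X (m + 1) ≤ ENNReal.ofReal (1 / 4) * X m := by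
    intro m
    rw [hXdef]
    simp only
    rw [hsts]
    exact hX (st m)
  have hXm : ∀ m, X m ≤ ENNReal.ofReal (1 / 4) ^ m * X 0 := by
    intro m
    induction m with
    | zero => simp
    | succ m ih =>
      refine (hXs m).trans ?_
      calc ENNReal.ofReal (1 / 4) * X m ≤ ENNReal.ofReal (1 / 4) *
          (ENNReal.ofReal (1 / 4) ^ m * X 0) := by gcongr
        _ = _ := by ring
  have hXf : ∀ m, ENNReal.ofReal (1 / 4) ^ m * X 0 ≠ ⊤ := fun m =>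
    ENNReal.mul_ne_top (ENNReal.pow_ne_top ENNReal.ofReal_ne_top) hX0
  -- norms in `L²`
  have hgeo : ∀ (D : ℝ≥0∞), D ≠ ⊤ → ∀ (f : En n → ℂ) (hf : MemLp f 2 (volume.restrict Ω)) (m : ℕ),
      nt Ω t f ≤ D * X m →
      ‖(hf.toLp f : L2 Ω)‖ ≤ √(K * (D.toReal * (X 0).toReal)) * (1 / 2) ^ m := by
    intro D hD f hf m h
    have h1 := hK f hf (D * (ENNReal.ofReal (1 / 4) ^ m * X 0)) (ENNReal.mul_ne_top hD (hXf m))
      (h.trans (by gcongr; exact hXm m))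
    rw [ENNReal.toReal_mul, ENNReal.toReal_mul, ENNReal.toReal_pow,
      ENNReal.toReal_ofReal (by norm_num)] at h1
    apply le_of_sq_le_sq _ (by positivity)
    rw [mul_pow, Real.sq_sqrt (mul_nonneg hK0 (mul_nonneg ENNReal.toReal_nonneg
      ENNReal.toReal_nonneg))]
    refine h1.trans (le_of_eq ?_)
    have h2 : ((1 / 2 : ℝ) ^ m) ^ 2 = (1 / 4) ^ m := by
      rw [← pow_mul, mul_comm, pow_mul]
      norm_num
    rw [h2]
    ring
  have ht2t : ENNReal.ofReal t ^ 2 ≠ ⊤ := ENNReal.pow_ne_top ENNReal.ofReal_ne_top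
  have hngX : ∀ m, nt Ω t (gg (st m)) ≤ C * X m := fun m => by rw [hXdef]; exact hng (st m)
  have hnηX : ∀ m k, nt Ω t (ηη (st m) k) ≤ (C * ENNReal.ofReal t ^ 2) * X m := fun m k => by
    rw [hXdef, mul_assoc]; exact hnη (st m) k
  have hcX : ∀ m, nt Ω t (st m).1.1 ≤ 1 * X m := fun m => by
    rw [hXdef, one_mul]
    unfold XX
    exact le_self_add
  have hwX : ∀ m k, nt Ω t ((st m).1.2 k) ≤ ENNReal.ofReal t ^ 2 * X m := fun m k => by
    have h4 : (1 : ℝ≥0∞) = ENNReal.ofReal t ^ 2 * ENNReal.ofReal t⁻¹ ^ 2 := by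
      rw [← mul_pow, ← ENNReal.ofReal_mul htp.le, mul_inv_cancel₀ htp.ne']
      simp
    rw [hXdef]
    calc nt Ω t ((st m).1.2 k) = 1 * nt Ω t ((st m).1.2 k) := (one_mul _).symm
      _ = ENNReal.ofReal t ^ 2 * (ENNReal.ofReal t⁻¹ ^ 2 * nt Ω t ((st m).1.2 k)) := by
        rw [h4]; ring
      _ ≤ ENNReal.ofReal t ^ 2 * XX Ω t (st m).1.1 (st m).1.2 := by
        gcongr
        unfold XX
        refine le_trans ?_ le_add_self
        gcongr
        exact Finset.single_le_sum (f := fun k => nt Ω t ((st m).1.2 k)) (fun _ _ => zero_le)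
          (Finset.mem_univ k)
  -- the sums
  have hsum2 : Summable (fun m : ℕ => ((1 : ℝ) / 2) ^ m) := summable_geometric_two
  have hsG : Summable (fun m => ((hgm (st m)).toLp (gg (st m)) : L2 Ω)) :=
    Summable.of_norm_bounded (hsum2.mul_left _) fun m => hgeo C hC _ (hgm (st m)) m (hngX m)
  have hsH : ∀ k, Summable (fun m => ((hηm (st m) k).toLp (ηη (st m) k) : L2 Ω)) := fun k =>
    Summable.of_norm_bounded (hsum2.mul_left _) fun m =>
      hgeo (C * ENNReal.ofReal t ^ 2) (ENNReal.mul_ne_top hC ht2t) _ (hηm (st m) k) m (hnηX m k)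
  obtain ⟨G, hG⟩ := hsG
  choose H hH using hsH
  -- pairing with test functions
  have hpair : ∀ ρ, IsTest Ω ρ → ∃ Lρ : L2 Ω →L[ℂ] ℂ, (∀ u : L2 Ω, Lρ u = ∫ x in Ω, u x * ρ x) ∧
      ∀ (f : En n → ℂ) (hf : MemLp f 2 (volume.restrict Ω)), Lρ (hf.toLp f) =
        ∫ x in Ω, f x * ρ x := by
    intro ρ hρ
    have hρ2 : MemLp ρ 2 ((volume : Measure (En n)).restrict Ω) :=
      (hρ.smooth.continuous.memLp_of_hasCompactSupport hρ.compact).restrict Ω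
    obtain ⟨Lρ, h⟩ := wd_func Ω ρ hρ2
    refine ⟨Lρ, fun u => (h u).1, fun f hf => ?_⟩
    rw [(h _).1]
    apply integral_congr_ae
    filter_upwards [hf.coeFn_toLp] with x hx
    rw [hx]
  refine ⟨G, fun k => H k, Lp.memLp G, fun k => Lp.memLp (H k), ?_, ?_⟩
  · intro j ρ hρ
    obtain ⟨Lρ, h1, h2⟩ := hpair _ (wd_isTest hρ j)
    rw [← h1]
    have h3 := hG.mapL Lρ
    have h4 : (fun m => Lρ ((hgm (st m)).toLp (gg (st m)) : L2 Ω)) = fun _ => 0 := by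
      funext m
      rw [h2]
      exact hgw (st m) j ρ hρ
    rw [h4] at h3
    exact h3.unique hasSum_zero
  · intro k ρ hρ
    obtain ⟨Lρ, h1, h2⟩ := hpair ρ hρ
    obtain ⟨Lz, z1, z2⟩ := hpair _ (dz_isTest hρ k)
    have e0 : ∀ (f h : En n → ℂ) (hf : MemLp f 2 (volume.restrict Ω))
        (hh : MemLp h 2 (volume.restrict Ω)), ∫ x in Ω, (f x * ρ x - h x * dz k ρ x) =
        Lρ (hf.toLp f) - Lz (hh.toLp h) := by
      intro f h hf hh
      rw [h2, z2, integral_sub (test_int hf hρ) (test_int hh (dz_isTest hρ k))]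
    have e1 : ∫ x in Ω, (H k x * ρ x - G x * dz k ρ x) = Lρ (H k) - Lz G := by
      rw [h1, z1, integral_sub (test_int (Lp.memLp (H k)) hρ)
        (test_int (Lp.memLp G) (dz_isTest hρ k))]
    rw [e1]
    have h3 := ((hH k).mapL Lρ).sub (hG.mapL Lz)
    have h4 := h3.tendsto_sum_nat
    have hT : ∀ M : ℕ, ∑ m ∈ Finset.range M, (Lρ ((hηm (st m) k).toLp (ηη (st m) k) : L2 Ω) -
        Lz ((hgm (st m)).toLp (gg (st m)) : L2 Ω)) =
        (∫ x in Ω, (w k x * ρ x - c x * dz k ρ x)) -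
          (Lρ (((st M).2.2.1 k).toLp _) - Lz ((st M).2.1.toLp _)) := by
      intro M
      induction M with
      | zero =>
        rw [Finset.sum_range_zero, ← e0]
        rw [hst0]
        ring
      | succ M ih =>
        rw [Finset.sum_range_succ, ih, ← e0, ← e0, ← e0]
        have h5 := hid (st M) k ρ hρ
        rw [hsts M, h5]
        ring
    have h5 : Tendsto (fun M : ℕ => Lρ (((st M).2.2.1 k).toLp _) - Lz ((st M).2.1.toLp _)) atTop
        (𝓝 0) := by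
      have hpow : Tendsto (fun m : ℕ => ((1 : ℝ) / 2) ^ m) atTop (𝓝 0) :=
        tendsto_pow_atTop_nhds_zero_of_lt_one (by norm_num) (by norm_num)
      have b1 : Tendsto (fun M : ℕ => (((st M).2.2.1 k).toLp _ : L2 Ω)) atTop (𝓝 0) := by
        apply squeeze_zero_norm (fun m => hgeo (ENNReal.ofReal t ^ 2) ht2t _ ((st m).2.2.1 k) m
          (hwX m k))
        have := hpow.const_mul (√(K * ((ENNReal.ofReal t ^ 2).toReal * (X 0).toReal)))
        rwa [mul_zero] at this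
      have b2 : Tendsto (fun M : ℕ => ((st M).2.1.toLp _ : L2 Ω)) atTop (𝓝 0) := by
        apply squeeze_zero_norm (fun m => hgeo 1 ENNReal.one_ne_top _ (st m).2.1 m (hcX m))
        have := hpow.const_mul (√(K * ((1 : ℝ≥0∞).toReal * (X 0).toReal)))
        rwa [mul_zero] at this
      have b3 := ((Lρ.continuous.tendsto 0).comp b1).sub ((Lz.continuous.tendsto 0).comp b2)
      simpa using b3
    have h6 : Tendsto (fun M : ℕ => (∫ x in Ω, (w k x * ρ x - c x * dz k ρ x)) -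
          (Lρ (((st M).2.2.1 k).toLp _) - Lz ((st M).2.1.toLp _))) atTop
        (𝓝 ((∫ x in Ω, (w k x * ρ x - c x * dz k ρ x)) - 0)) := tendsto_const_nhds.sub h5
    simp_rw [hT] at h4
    have h7 := tendsto_nhds_unique h6 h4
    rw [sub_zero] at h7
    exact h7

end Pool.Agent.Y262
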