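import Pool.Agent.Y262.Tools

/-! The homotopy operators on one patch. -/

set_option autoImplicit false

open MeasureTheory Complex Filter Topology Metric
open scoped ContDiff InnerProductSpace ENNReal ComplexConjugate

namespace Pool.Agent.Y262

open BK BK.JB3 BK.JB6

variable {n : ℕ}

/-- the output of one patch -/
structure Out (Ω : Set (En n)) (t : ℝ) (ξ : En n → ℂ) (a : Fin n → En n → ℂ) (C Y Z : ℝ≥0∞)
    (g : En n → ℂ) (β q : Fin n → En n → ℂ) (Q : Fin n → Fin n → En n → ℂ) : Prop where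
  mg : MemLp g 2 (volume.restrict Ω)
  mβ : ∀ m, MemLp (β m) 2 (volume.restrict Ω)
  mq : ∀ k, MemLp (q k) 2 (volume.restrict Ω)
  mQ : ∀ m k, MemLp (Q m k) 2 (volume.restrict Ω)
  wβ : ∀ m ρ, IsTest Ω ρ → ∫ x in Ω, g x * dbar m ρ x = - ∫ x in Ω, β m x * ρ x
  wq : ∀ k ρ, IsTest Ω ρ → ∫ x in Ω, g x * dz k ρ x =
    (∫ x in Ω, q k x * ρ x) - ∫ x in Ω, (ξ x * a k x) * ρ x
  wQ : ∀ m k ρ, IsTest Ω ρ → ∫ x in Ω, q k x * dbar m ρ x = - ∫ x in Ω, Q m k x * ρ x
  ng : nt Ω t g ≤ C * Y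
  nβ : ∀ m, nt Ω t (β m) ≤ C * Y
  nq : ∀ k, nt Ω t (q k) ≤ C * (Z + ENNReal.ofReal t ^ 2 * Y)
  nQ : ∀ m k, nt Ω t (Q m k) ≤ C * (Z + ENNReal.ofReal t ^ 2 * Y)

/-- integration along the axis -/
noncomputable def KK (ν : En n) (s0 : ℝ) (h : En n → ℂ) (z : En n) : ℂ :=
  ∫ s in (0 : ℝ)..s0, h (z + s • ν)

theorem KK_meas {Ω V : Set (En n)} (hV : IsOpen V) {ν : En n} {s0 : ℝ}
    (hs0 : 0 < s0) (hseg : ∀ z ∈ V, ∀ s ∈ Set.Icc (0 : ℝ) s0, z + s • ν ∈ Ω) {h : En n → ℂ}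
    (hh : ContinuousOn h Ω) : AEStronglyMeasurable (KK ν s0 h) (volume.restrict V) := by
  unfold KK
  simp_rw [intervalIntegral.integral_of_le hs0.le]
  have h1 : AEStronglyMeasurable (fun p : En n × ℝ => h (p.1 + p.2 • ν))
      (((volume : Measure (En n)).restrict V).prod ((volume : Measure ℝ).restrict
        (Set.Ioc 0 s0))) := by
    rw [Measure.prod_restrict]
    apply ContinuousOn.aestronglyMeasurable
    · apply hh.comp
      · apply Continuous.continuousOn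
        fun_prop
      · rintro ⟨z, s⟩ ⟨hz, hs⟩
        exact hseg z hz s ⟨hs.1.le, hs.2⟩
    · exact hV.measurableSet.prod measurableSet_Ioc
  exact h1.integral_prod_right'

theorem KK_norm {ν : En n} {s0 : ℝ} (hs0 : 0 < s0) (h : En n → ℂ) (z : En n) :
    ‖KK ν s0 h z‖ₑ ≤ ∫⁻ s in Set.Ioc (0 : ℝ) s0, ‖h (z + s • ν)‖ₑ := by
  unfold KK
  rw [intervalIntegral.integral_of_le hs0.le]
  exact enorm_integral_le_lintegral_enorm _

theorem patch (Ω : Set (En n)) (ho : IsOpen Ω) (hb : Bornology.IsBounded Ω) (hHom : HomS Ω)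
    (hHardy : HardyS Ω) (U : Set (En n)) (hU : IsOpen U) (ν : En n) (κ s1 : ℝ) (hκ : 0 < κ)
    (hκ1 : κ ≤ 1) (hs1 : 0 < s1) (hcone : Cone Ω U ν κ s1) (χ : En n → ℝ) (hχ : ContDiff ℝ ∞ χ)
    (hχc : HasCompactSupport χ) (hχU : tsupport χ ⊆ U) :
    ∃ C : ℝ≥0∞, C ≠ ⊤ ∧ ∀ t : ℝ, 1 ≤ t → s1⁻¹ ≤ t →
      ∀ (a : Fin n → En n → ℂ) (b : Fin n → Fin n → En n → ℂ),
      (∀ k, DifferentiableOn ℂ (a k) Ω) → (∀ j k, DifferentiableOn ℂ (b j k) Ω) → IsDa Ω a b →
      ∀ Y Z : ℝ≥0∞, Y ≠ ⊤ → Z ≠ ⊤ → (∀ k, nd Ω t (a k) ≤ Y) → (∀ j k, nd Ω t (b j k) ≤ Z) →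
      ∃ (g : En n → ℂ) (β q : Fin n → En n → ℂ) (Q : Fin n → Fin n → En n → ℂ),
        Out Ω t (fun x => (χ x : ℂ)) a C Y Z g β q Q := by
  obtain ⟨CH, hCH, hH⟩ := hHardy U ν κ s1 hU hκ hκ1 hs1 hcone
  -- the cut off function and its derivatives
  obtain ⟨ξ, hξdef⟩ : ∃ ξ : En n → ℂ, ξ = fun x => (χ x : ℂ) := ⟨_, rfl⟩
  have hξ : ContDiff ℝ ∞ ξ := by
    rw [hξdef]
    exact Complex.ofRealCLM.contDiff.comp hχ
  have hξs : tsupport ξ ⊆ U := by
    refine (closure_mono ?_).trans hχU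
    intro x hx h0
    apply hx
    rw [hξdef]
    simp only
    rw [h0, Complex.ofReal_zero]
  have hξc : HasCompactSupport ξ := by
    refine hχc.mono ?_
    intro x hx h0
    apply hx
    rw [hξdef]
    simp only
    rw [h0, Complex.ofReal_zero]
  have hξt : IsTest U ξ := ⟨hξ, hξc, hξs⟩
  rw [← hξdef]
  obtain ⟨M, hM0, hM1, hM2, hM3, hM4⟩ : ∃ M : ℝ, 0 ≤ M ∧ (∀ x, ‖ξ x‖ ≤ M) ∧
      (∀ m x, ‖dbar m ξ x‖ ≤ M) ∧ (∀ k x, ‖dz k ξ x‖ ≤ M) ∧
      (∀ m k x, ‖dbar m (dz k ξ) x‖ ≤ M) := by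
    have hbd : ∀ f : En n → ℂ, IsTest U f → ∃ M : ℝ, 0 ≤ M ∧ ∀ x, ‖f x‖ ≤ M := by
      intro f hf
      obtain ⟨M, hM⟩ := hf.smooth.continuous.bounded_above_of_compact_support hf.compact
      exact ⟨M, (norm_nonneg _).trans (hM 0), hM⟩
    obtain ⟨M1, h10, h1⟩ := hbd ξ hξt
    choose M2 h20 h2 using fun m => hbd (dbar m ξ) (wd_isTest hξt m)
    choose M3 h30 h3 using fun k => hbd (dz k ξ) (dz_isTest hξt k)
    choose M4 h40 h4 using fun m k => hbd (dbar m (dz k ξ)) (wd_isTest (dz_isTest hξt k) m)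
    have p2 : 0 ≤ ∑ m, M2 m := Finset.sum_nonneg fun m _ => h20 m
    have p3 : 0 ≤ ∑ m, M3 m := Finset.sum_nonneg fun m _ => h30 m
    have p4 : 0 ≤ ∑ m, ∑ k, M4 m k := Finset.sum_nonneg fun m _ => Finset.sum_nonneg fun k _ =>
      h40 m k
    refine ⟨M1 + ∑ m, M2 m + ∑ m, M3 m + ∑ m, ∑ k, M4 m k, by positivity, ?_, ?_, ?_, ?_⟩
    · intro x
      have := h1 x
      linarith
    · intro m x
      have h5 := h2 m x
      have h6 := Finset.single_le_sum (f := M2) (fun i _ => h20 i) (Finset.mem_univ m)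
      linarith
    · intro m x
      have h5 := h3 m x
      have h6 := Finset.single_le_sum (f := M3) (fun i _ => h30 i) (Finset.mem_univ m)
      linarith
    · intro m k x
      have h5 := h4 m k x
      have h6 : M4 m k ≤ ∑ k, M4 m k := Finset.single_le_sum (f := fun k => M4 m k)
        (fun i _ => h40 m i) (Finset.mem_univ k)
      have h7 : ∑ k, M4 m k ≤ ∑ m, ∑ k, M4 m k :=
        Finset.single_le_sum (f := fun m => ∑ k, M4 m k) (fun i _ =>
        Finset.sum_nonneg fun k _ => h40 i k) (Finset.mem_univ m)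
      linarith
  have hen : ∀ (z : ℂ), ‖z‖ ≤ M → ‖z‖ₑ ≤ ENNReal.ofReal M := by
    intro z hz
    rw [← ofReal_norm]
    exact ENNReal.ofReal_le_ofReal hz
  have hMt : ENNReal.ofReal M ≠ ⊤ := ENNReal.ofReal_ne_top
  have z1 : ∀ x, x ∉ U → ξ x = 0 := fun x hx =>
    image_eq_zero_of_notMem_tsupport fun h => hx (hξs h)
  have z2 : ∀ m x, x ∉ U → dbar m ξ x = 0 := fun m x hx =>
    image_eq_zero_of_notMem_tsupport fun h => hx ((wd_isTest hξt m).supp h)
  have z3 : ∀ m x, x ∉ U → dz m ξ x = 0 := fun m x hx =>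
    image_eq_zero_of_notMem_tsupport fun h => hx ((dz_isTest hξt m).supp h)
  have z4 : ∀ m k x, x ∉ U → dbar m (dz k ξ) x = 0 := fun m k x hx =>
    image_eq_zero_of_notMem_tsupport fun h => hx ((wd_isTest (dz_isTest hξt k) m).supp h)
  set N : ℝ≥0∞ := (n : ℝ≥0∞) * ∑ j, ‖ν j‖ₑ ^ 2 * CH with hN
  have hNt : N ≠ ⊤ := by
    rw [hN]
    apply ENNReal.mul_ne_top (ENNReal.natCast_ne_top n)
    apply ENNReal.sum_ne_top.2
    intro j _
    exact ENNReal.mul_ne_top (ENNReal.pow_ne_top enorm_ne_top) hCH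
  refine ⟨2 * (ENNReal.ofReal M ^ 2 * (2 * (CH + N) + N)), ?_, ?_⟩
  · apply ENNReal.mul_ne_top (by norm_num)
    apply ENNReal.mul_ne_top (ENNReal.pow_ne_top hMt)
    exact ENNReal.add_ne_top.2 ⟨ENNReal.mul_ne_top (by norm_num) (ENNReal.add_ne_top.2 ⟨hCH, hNt⟩),
      hNt⟩
  intro t ht hts a b ha hbd hab Y Z hY hZ hYa hZb
  have ht0 : 0 < t := by linarith
  set s0 : ℝ := t⁻¹ with hs0d
  have hs0 : 0 < s0 := inv_pos.2 ht0
  have hs01 : s0 ≤ s1 := by
    rw [hs0d]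
    exact inv_le_of_inv_le₀ hs1 hts
  obtain ⟨V, hVdef⟩ : ∃ V, V = Ω ∩ U := ⟨_, rfl⟩
  have hVo : IsOpen V := by rw [hVdef]; exact ho.inter hU
  have hVb : Bornology.IsBounded V := by rw [hVdef]; exact hb.subset Set.inter_subset_left
  have hVΩ : V ⊆ Ω := by rw [hVdef]; exact Set.inter_subset_left
  have hseg : ∀ z ∈ V, ∀ s ∈ Set.Icc (0 : ℝ) s0, z + s • ν ∈ Ω := by
    intro z hz s hs
    rcases hs.1.eq_or_lt with h | h
    · rw [← h, zero_smul, add_zero]; exact hVΩ hz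
    · rw [hVdef] at hz
      exact hcone z hz s h (hs.2.trans hs01) (mem_ball_self (mul_pos hκ h))
  obtain ⟨hHom1, hHom2⟩ := hHom V ν s0 hVo hVΩ hs0 hseg
  have hH1 : ∀ h : En n → ℂ, ContinuousOn h Ω →
      nt V t (KK ν s0 h) ≤ CH * nd Ω t h ∧
      nt V t (fun z => h (z + s0 • ν)) ≤ CH * (ENNReal.ofReal t ^ 2 * nd Ω t h) := by
    intro h hh
    obtain ⟨e1, e2⟩ := hH t ht hts h hh
    rw [← hVdef] at e1 e2
    refine ⟨le_trans (lintegral_mono fun z => ?_) e1, e2⟩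
    have := KK_norm (ν := ν) hs0 h z
    gcongr
  have hac : ∀ k, ContinuousOn (a k) Ω := fun k => (ha k).continuousOn
  have hbc : ∀ j k, ContinuousOn (b j k) Ω := fun j k => (hbd j k).continuousOn
  have mK : ∀ h : En n → ℂ, ContinuousOn h Ω → nd Ω t h ≠ ⊤ →
      MemLp (KK ν s0 h) 2 (volume.restrict V) := by
    intro h hh hfin
    apply memLp_of_nt hVo hVb ht0.le (KK_meas hVo hs0 hseg hh)
    exact ((hH1 h hh).1.trans_lt (ENNReal.mul_lt_top hCH.lt_top hfin.lt_top)).ne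
  have mS : ∀ h : En n → ℂ, ContinuousOn h Ω → nd Ω t h ≠ ⊤ →
      MemLp (fun z => h (z + s0 • ν)) 2 (volume.restrict V) := by
    intro h hh hfin
    apply memLp_of_nt hVo hVb ht0.le
    · apply ContinuousOn.aestronglyMeasurable _ hVo.measurableSet
      apply hh.comp
      · apply Continuous.continuousOn
        fun_prop
      · intro z hz
        exact hseg z hz s0 ⟨hs0.le, le_rfl⟩
    · exact ((hH1 h hh).2.trans_lt (ENNReal.mul_lt_top hCH.lt_top
        (ENNReal.mul_lt_top (ENNReal.pow_lt_top ENNReal.ofReal_lt_top) hfin.lt_top))).ne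
  have faY : ∀ k, nd Ω t (a k) ≠ ⊤ := fun k => ((hYa k).trans_lt hY.lt_top).ne
  have fbZ : ∀ j k, nd Ω t (b j k) ≠ ⊤ := fun j k => ((hZb j k).trans_lt hZ.lt_top).ne
  -- the operators
  obtain ⟨kk, hkk⟩ : ∃ kk : En n → ℂ, kk = fun z => -∑ j, ν j * KK ν s0 (a j) z := ⟨_, rfl⟩
  obtain ⟨ll, hll⟩ : ∃ ll : Fin n → En n → ℂ, ll = fun k z => ∑ j, ν j * KK ν s0 (b j k) z :=
    ⟨_, rfl⟩
  obtain ⟨lt, hlt⟩ : ∃ lt : Fin n → En n → ℂ, lt = fun k z => a k (z + s0 • ν) - ll k z :=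
    ⟨_, rfl⟩
  have mkk : MemLp kk 2 (volume.restrict V) := by
    rw [hkk]
    apply MemLp.neg
    exact memLp_finsetSum _ fun j _ => (mK (a j) (hac j) (faY j)).const_mul _
  have mll : ∀ k, MemLp (ll k) 2 (volume.restrict V) := by
    intro k
    rw [hll]
    exact memLp_finsetSum _ fun j _ => (mK (b j k) (hbc j k) (fbZ j k)).const_mul _
  have mlt : ∀ k, MemLp (lt k) 2 (volume.restrict V) := by
    intro k
    rw [hlt]
    exact (mS (a k) (hac k) (faY k)).sub (mll k)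
  have nsum : ∀ (h : Fin n → En n → ℂ) (W : ℝ≥0∞), (∀ j, ContinuousOn (h j) Ω) →
      (∀ j, nd Ω t (h j) ≤ W) → nt V t (fun z => ∑ j, ν j * KK ν s0 (h j) z) ≤ N * W := by
    intro h W hh hW
    refine (nt_sum Finset.univ V t (fun j z => ν j * KK ν s0 (h j) z) fun j _ =>
      (KK_meas hVo hs0 hseg (hh j)).const_mul _).trans ?_
    rw [Finset.card_univ, Fintype.card_fin, hN, mul_assoc, Finset.sum_mul]
    gcongr with j _
    rw [nt_smul, mul_assoc]
    gcongr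
    exact ((hH1 (h j) (hh j)).1).trans (by gcongr; exact hW j)
  have nkk : nt V t kk ≤ N * Y := by
    rw [hkk, nt_neg]
    exact nsum a Y hac hYa
  have nll : ∀ k, nt V t (ll k) ≤ N * Z := by
    intro k
    rw [hll]
    exact nsum (fun j => b j k) Z (fun j => hbc j k) (fun j => hZb j k)
  have nlt : ∀ k, nt V t (lt k) ≤ (2 * (CH + N)) * (Z + ENNReal.ofReal t ^ 2 * Y) := by
    intro k
    have h1 : nt V t (lt k) ≤ 2 * (nt V t (fun z => a k (z + s0 • ν)) + nt V t (ll k)) := by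
      rw [hlt]
      exact nt_sub V t _ _ (mS (a k) (hac k) (faY k)).1
    refine h1.trans ?_
    rw [mul_assoc]
    gcongr
    calc nt V t (fun z => a k (z + s0 • ν)) + nt V t (ll k)
        ≤ CH * (ENNReal.ofReal t ^ 2 * Y) + N * Z := by
          gcongr
          · exact ((hH1 (a k) (hac k)).2).trans (by gcongr; exact hYa k)
          · exact nll k
      _ ≤ CH * (Z + ENNReal.ofReal t ^ 2 * Y) + N * (Z + ENNReal.ofReal t ^ 2 * Y) := by
          gcongr
          · exact le_add_self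
          · exact le_self_add
      _ = _ := by ring
  -- weak equations on `V`
  have wkk : ∀ m ρ, IsTest V ρ → ∫ x in V, kk x * dbar m ρ x = 0 := by
    intro m ρ hρ
    have h1 : ∀ x, kk x * dbar m ρ x = ∑ j, (-ν j) * (KK ν s0 (a j) x * dbar m ρ x) := by
      intro x
      rw [hkk]
      simp only
      rw [← Finset.sum_neg_distrib, Finset.sum_mul]
      apply Finset.sum_congr rfl
      intro j _
      ring
    simp_rw [h1]
    rw [integral_finsetSum _ fun j _ => (test_int (mK (a j) (hac j) (faY j))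
      (wd_isTest hρ m)).const_mul _]
    apply Finset.sum_eq_zero
    intro j _
    rw [integral_const_mul]
    have := (hHom1 (a j) (ha j) m ρ hρ).1
    unfold KK
    rw [this, mul_zero]
  have wlt : ∀ k m ρ, IsTest V ρ → ∫ x in V, lt k x * dbar m ρ x = 0 := by
    intro k m ρ hρ
    have h1 : ∀ x, lt k x * dbar m ρ x = a k (x + s0 • ν) * dbar m ρ x -
        ∑ j, ν j * (KK ν s0 (b j k) x * dbar m ρ x) := by
      intro x
      rw [hlt, hll]
      simp only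
      rw [sub_mul, Finset.sum_mul]
      congr 1
      apply Finset.sum_congr rfl
      intro j _
      ring
    have i2 : ∀ j, Integrable (fun x => ν j * (KK ν s0 (b j k) x * dbar m ρ x))
        (volume.restrict V) := fun j =>
      (test_int (mK (b j k) (hbc j k) (fbZ j k)) (wd_isTest hρ m)).const_mul _
    simp_rw [h1]
    rw [integral_sub (test_int (mS (a k) (hac k) (faY k)) (wd_isTest hρ m))
      (integrable_finsetSum _ fun j _ => i2 j), (hHom1 (a k) (ha k) m ρ hρ).2,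
      integral_finsetSum _ fun j _ => i2 j, zero_sub, neg_eq_zero]
    apply Finset.sum_eq_zero
    intro j _
    rw [integral_const_mul]
    have := (hHom1 (b j k) (hbd j k) m ρ hρ).1
    unfold KK
    rw [this, mul_zero]
  have haI : ∀ k ρ, IsTest V ρ → Integrable (fun x => a k x * ρ x) (volume.restrict V) := by
    intro k ρ hρ
    have h1 : IntegrableOn (fun x => a k x * ρ x) (tsupport ρ) volume :=
      (((hac k).mono (hρ.supp.trans hVΩ)).mul
        hρ.smooth.continuous.continuousOn).integrableOn_compact hρ.compact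
    exact h1.of_forall_sdiff_eq_zero hVo.measurableSet fun x hx => by
      rw [image_eq_zero_of_notMem_tsupport hx.2, mul_zero]
  have wz : ∀ k ρ, IsTest V ρ → ∫ x in V, kk x * dz k ρ x =
      (∫ x in V, lt k x * ρ x) - ∫ x in V, a k x * ρ x := by
    intro k ρ hρ
    have h1 := hHom2 a b ha hbd hab k ρ hρ
    have h2 : ∫ x in V, kk x * dz k ρ x =
        - ∫ z in V, (∑ j, ν j * ∫ s in (0 : ℝ)..s0, a j (z + s • ν)) * dz k ρ z := by
      rw [← integral_neg]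
      congr 1
      funext x
      rw [hkk]
      simp only [KK]
      ring
    rw [h2, h1, ← integral_sub (test_int (mlt k) hρ) (haI k ρ hρ), ← integral_neg]
    congr 1
    funext x
    rw [hlt, hll]
    simp only [KK]
    ring
  -- the output
  refine ⟨fun x => ξ x * kk x, fun m x => dbar m ξ x * kk x,
    fun k x => ξ x * lt k x - dz k ξ x * kk x,
    fun m k x => dbar m ξ x * lt k x - dbar m (dz k ξ) x * kk x, ?_⟩
  rw [hVdef] at mkk mlt
  have c1 : Continuous ξ := hξ.continuous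
  have c2 : ∀ m, Continuous (dbar m ξ) := fun m => (wd_isTest hξt m).smooth.continuous
  have c3 : ∀ m, Continuous (dz m ξ) := fun m => (dz_isTest hξt m).smooth.continuous
  have c4 : ∀ m k, Continuous (dbar m (dz k ξ)) := fun m k =>
    (wd_isTest (dz_isTest hξt k) m).smooth.continuous
  have m1 : MemLp (fun x => ξ x * kk x) 2 (volume.restrict Ω) := memLp_cut hU ξ kk c1 M hM1 z1 mkk
  have m2 : ∀ m, MemLp (fun x => dbar m ξ x * kk x) 2 (volume.restrict Ω) := fun m =>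
    memLp_cut hU _ kk (c2 m) M (hM2 m) (z2 m) mkk
  have m3 : ∀ m, MemLp (fun x => dz m ξ x * kk x) 2 (volume.restrict Ω) := fun m =>
    memLp_cut hU _ kk (c3 m) M (hM3 m) (z3 m) mkk
  have m4 : ∀ m k, MemLp (fun x => dbar m (dz k ξ) x * kk x) 2 (volume.restrict Ω) := fun m k =>
    memLp_cut hU _ kk (c4 m k) M (hM4 m k) (z4 m k) mkk
  have m5 : ∀ k, MemLp (fun x => ξ x * lt k x) 2 (volume.restrict Ω) := fun k =>
    memLp_cut hU _ (lt k) c1 M hM1 z1 (mlt k)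
  have m6 : ∀ m k, MemLp (fun x => dbar m ξ x * lt k x) 2 (volume.restrict Ω) := fun m k =>
    memLp_cut hU _ (lt k) (c2 m) M (hM2 m) (z2 m) (mlt k)
  rw [hVdef] at nkk wkk
  have n1 : nt Ω t (fun x => ξ x * kk x) ≤ ENNReal.ofReal M ^ 2 * (N * Y) :=
    (nt_cut hU t ξ kk _ hMt (fun x => hen _ (hM1 x)) z1).trans (by gcongr)
  have n2 : ∀ m, nt Ω t (fun x => dbar m ξ x * kk x) ≤ ENNReal.ofReal M ^ 2 * (N * Y) := fun m =>
    (nt_cut hU t _ kk _ hMt (fun x => hen _ (hM2 m x)) (z2 m)).trans (by gcongr)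
  have n3 : ∀ m, nt Ω t (fun x => dz m ξ x * kk x) ≤ ENNReal.ofReal M ^ 2 * (N * Y) := fun m =>
    (nt_cut hU t _ kk _ hMt (fun x => hen _ (hM3 m x)) (z3 m)).trans (by gcongr)
  have n4 : ∀ m k, nt Ω t (fun x => dbar m (dz k ξ) x * kk x) ≤
      ENNReal.ofReal M ^ 2 * (N * Y) := fun m k =>
    (nt_cut hU t _ kk _ hMt (fun x => hen _ (hM4 m k x)) (z4 m k)).trans (by gcongr)
  rw [hVdef] at nlt wlt
  have n5 : ∀ k, nt Ω t (fun x => ξ x * lt k x) ≤
      ENNReal.ofReal M ^ 2 * ((2 * (CH + N)) * (Z + ENNReal.ofReal t ^ 2 * Y)) := fun k =>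
    (nt_cut hU t _ (lt k) _ hMt (fun x => hen _ (hM1 x)) z1).trans (by gcongr; exact nlt k)
  have n6 : ∀ m k, nt Ω t (fun x => dbar m ξ x * lt k x) ≤
      ENNReal.ofReal M ^ 2 * ((2 * (CH + N)) * (Z + ENNReal.ofReal t ^ 2 * Y)) := fun m k =>
    (nt_cut hU t _ (lt k) _ hMt (fun x => hen _ (hM2 m x)) (z2 m)).trans (by gcongr; exact nlt k)
  have hY' : Y ≤ Z + ENNReal.ofReal t ^ 2 * Y := by
    have h1 : (1 : ℝ≥0∞) ≤ ENNReal.ofReal t ^ 2 := by
      apply one_le_pow₀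
      rw [ENNReal.one_le_ofReal]
      exact ht
    calc Y = 1 * Y := (one_mul Y).symm
      _ ≤ ENNReal.ofReal t ^ 2 * Y := by gcongr
      _ ≤ _ := le_add_self
  have hC1 : ENNReal.ofReal M ^ 2 * (N * Y) ≤
      2 * (ENNReal.ofReal M ^ 2 * (2 * (CH + N) + N)) * Y := by
    calc ENNReal.ofReal M ^ 2 * (N * Y) = 1 * (ENNReal.ofReal M ^ 2 * N) * Y := by ring
      _ ≤ 2 * (ENNReal.ofReal M ^ 2 * (2 * (CH + N) + N)) * Y := by
        gcongr
        · norm_num
        · exact le_add_self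
  have hC2 : 2 * (ENNReal.ofReal M ^ 2 * ((2 * (CH + N)) * (Z + ENNReal.ofReal t ^ 2 * Y)) +
      ENNReal.ofReal M ^ 2 * (N * Y)) ≤
      2 * (ENNReal.ofReal M ^ 2 * (2 * (CH + N) + N)) * (Z + ENNReal.ofReal t ^ 2 * Y) := by
    calc _ ≤ 2 * (ENNReal.ofReal M ^ 2 * ((2 * (CH + N)) * (Z + ENNReal.ofReal t ^ 2 * Y)) +
      ENNReal.ofReal M ^ 2 * (N * (Z + ENNReal.ofReal t ^ 2 * Y))) := by gcongr
      _ = _ := by ring
  refine ⟨m1, m2, fun k => (m5 k).sub (m3 k), fun m k => (m6 m k).sub (m4 m k), ?_, ?_, ?_,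
    n1.trans hC1, fun m => (n2 m).trans hC1, ?_, ?_⟩
  · intro m ρ hρ
    exact cut_dbar ho hξ hξs mkk m (wkk m) ρ hρ
  · intro k ρ hρ
    have t1 := test_cut hξ hξs hρ
    have t1' := t1
    rw [← hVdef] at t1'
    have h1 := wz k _ t1'
    rw [hVdef] at h1
    rw [int_cut (U := U) ho (fun x => ξ x * kk x * dz k ρ x) (fun x hx => by rw [z1 x hx]; ring),
      int_cut (U := U) ho (fun x => (ξ x * lt k x - dz k ξ x * kk x) * ρ x)
        (fun x hx => by rw [z1 x hx, z3 k x hx]; ring),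
      int_cut (U := U) ho (fun x => ξ x * a k x * ρ x) (fun x hx => by rw [z1 x hx]; ring)]
    have i1 : Integrable (fun x => kk x * (ξ x * dz k ρ x)) (volume.restrict (Ω ∩ U)) :=
      test_int mkk (test_cut hξ hξs (dz_isTest hρ k))
    have i2 : Integrable (fun x => kk x * (dz k ξ x * ρ x)) (volume.restrict (Ω ∩ U)) :=
      test_int mkk (test_cut (BK.JB1.JKI.dz_smooth hξ k) (dz_isTest hξt k).supp hρ)
    have i3 : Integrable (fun x => lt k x * (ξ x * ρ x)) (volume.restrict (Ω ∩ U)) :=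
      test_int (mlt k) t1
    have e1 : ∫ x in Ω ∩ U, kk x * dz k (fun y => ξ y * ρ y) x =
        (∫ x in Ω ∩ U, kk x * (dz k ξ x * ρ x)) + ∫ x in Ω ∩ U, kk x * (ξ x * dz k ρ x) := by
      rw [← integral_add i2 i1]
      congr 1
      funext x
      rw [dz_mul' hξ hρ.smooth]
      ring
    have e2 : ∫ x in Ω ∩ U, (ξ x * lt k x - dz k ξ x * kk x) * ρ x =
        (∫ x in Ω ∩ U, lt k x * (ξ x * ρ x)) - ∫ x in Ω ∩ U, kk x * (dz k ξ x * ρ x) := by
      rw [← integral_sub i3 i2]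
      congr 1
      funext x
      ring
    have e3 : ∫ x in Ω ∩ U, ξ x * kk x * dz k ρ x = ∫ x in Ω ∩ U, kk x * (ξ x * dz k ρ x) := by
      congr 1
      funext x
      ring
    have e4 : ∫ x in Ω ∩ U, ξ x * a k x * ρ x = ∫ x in Ω ∩ U, a k x * (ξ x * ρ x) := by
      congr 1
      funext x
      ring
    rw [e2, e3, e4]
    rw [e1] at h1
    linear_combination h1
  · intro m k ρ hρ
    have h1 := cut_dbar ho hξ hξs (mlt k) m (wlt k m) ρ hρ
    have h2 := cut_dbar ho (BK.JB1.JKI.dz_smooth hξ k) (dz_isTest hξt k).supp mkk m (wkk m) ρ hρ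
    have e1 : ∫ x in Ω, (ξ x * lt k x - dz k ξ x * kk x) * dbar m ρ x =
        (∫ x in Ω, ξ x * lt k x * dbar m ρ x) - ∫ x in Ω, dz k ξ x * kk x * dbar m ρ x := by
      rw [← integral_sub (test_int (m5 k) (wd_isTest hρ m)) (test_int (m3 k) (wd_isTest hρ m))]
      congr 1
      funext x
      ring
    have e2 : ∫ x in Ω, (dbar m ξ x * lt k x - dbar m (dz k ξ) x * kk x) * ρ x =
        (∫ x in Ω, dbar m ξ x * lt k x * ρ x) - ∫ x in Ω, dbar m (dz k ξ) x * kk x * ρ x := by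
      rw [← integral_sub (test_int (m6 m k) hρ) (test_int (m4 m k) hρ)]
      congr 1
      funext x
      ring
    rw [e1, e2, h1, h2]
    ring
  · intro k
    exact ((nt_sub Ω t _ _ (m5 k).1).trans (by gcongr; exacts [n5 k, n3 k])).trans hC2
  · intro m k
    exact ((nt_sub Ω t _ _ (m6 m k).1).trans (by gcongr; exacts [n6 m k, n4 m k])).trans hC2

end Pool.Agent.Y262
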