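import Pool.Agent.Y262.Sum

/-! The contraction step. -/

set_option autoImplicit false

open MeasureTheory Complex Filter Topology Metric
open scoped ContDiff InnerProductSpace ENNReal ComplexConjugate

namespace Pool.Agent.Y262

open BK BK.JB3 BK.JB6

variable {n : ℕ}

/-- the size of a pair -/
noncomputable def XX (Ω : Set (En n)) (t : ℝ) (c : En n → ℂ) (w : Fin n → En n → ℂ) : ℝ≥0∞ :=
  nt Ω t c + ENNReal.ofReal t⁻¹ ^ 2 * ∑ k, nt Ω t (w k)

theorem cb_sub {Ω : Set (En n)} {t : ℝ} {x : En n} (h : 0 < dd Ω t x) :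
    closedBall x (2 * (dd Ω t x / 4)) ⊆ Ω := by
  intro y hy
  by_contra hcon
  have h1 : infDist x Ωᶜ ≤ dist x y := infDist_le_dist_of_mem hcon
  rw [mem_closedBall, dist_comm] at hy
  have h2 : dd Ω t x ≤ infDist x Ωᶜ := min_le_left _ _
  linarith

theorem nd_of_pt {Ω : Set (En n)} (ho : IsOpen Ω) {CA CW : ℝ≥0∞} (hCW : CW ≠ ⊤) {t : ℝ}
    (hA : ∀ F : En n → ℝ≥0∞, AEMeasurable F (volume.restrict Ω) →
      ∫⁻ x in Ω, ((volume (ball x (dd Ω t x / 4)))⁻¹ *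
        ∫⁻ y in ball x (dd Ω t x / 4), F y) * wt t x ≤ CA * ∫⁻ y in Ω, F y * wt t y)
    (h : En n → ℂ) (F : En n → ℝ≥0∞) (hF : AEMeasurable F (volume.restrict Ω))
    (hpt : ∀ x, 0 < dd Ω t x → ENNReal.ofReal (dd Ω t x / 4) ^ 2 * ‖h x‖ₑ ^ 2 ≤
      CW * ((volume (ball x (dd Ω t x / 4)))⁻¹ * ∫⁻ y in ball x (dd Ω t x / 4), F y)) :
    nd Ω t h ≤ 16 * CW * CA * ∫⁻ y in Ω, F y * wt t y := by
  have h1 : nd Ω t h ≤ ∫⁻ x in Ω, (16 * CW) * (((volume (ball x (dd Ω t x / 4)))⁻¹ *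
        ∫⁻ y in ball x (dd Ω t x / 4), F y) * wt t x) := by
    unfold nd
    apply lintegral_mono
    intro x
    show ENNReal.ofReal (dd Ω t x) ^ 2 * ‖h x‖ₑ ^ 2 * wt t x ≤ _
    rcases le_or_gt (dd Ω t x) 0 with hx | hx
    · rw [ENNReal.ofReal_of_nonpos hx]
      simp
    · have h2 := hpt x hx
      have h3 : ENNReal.ofReal (dd Ω t x) ^ 2 = 16 * ENNReal.ofReal (dd Ω t x / 4) ^ 2 := by
        rw [← ENNReal.ofReal_pow hx.le, ← ENNReal.ofReal_pow (by positivity),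
          show (16 : ℝ≥0∞) = ENNReal.ofReal 16 by simp, ← ENNReal.ofReal_mul (by norm_num)]
        congr 1
        ring
      rw [h3]
      calc 16 * ENNReal.ofReal (dd Ω t x / 4) ^ 2 * ‖h x‖ₑ ^ 2 * wt t x
          = 16 * (ENNReal.ofReal (dd Ω t x / 4) ^ 2 * ‖h x‖ₑ ^ 2) * wt t x := by ring
        _ ≤ 16 * (CW * ((volume (ball x (dd Ω t x / 4)))⁻¹ *
            ∫⁻ y in ball x (dd Ω t x / 4), F y)) * wt t x := by gcongr
        _ = _ := by ring
  refine h1.trans ?_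
  rw [lintegral_const_mul' _ _ (ENNReal.mul_ne_top (by norm_num) hCW), mul_assoc (16 * CW)]
  gcongr
  exact hA F hF

theorem rep (Ω : Set (En n)) (ho : IsOpen Ω) (hW : WeyS Ω) (hA : AvgS Ω) :
    ∃ C : ℝ≥0∞, C ≠ ⊤ ∧ ∀ t : ℝ, 1 ≤ t →
      ∀ (c : En n → ℂ) (w : Fin n → En n → ℂ), MemLp c 2 (volume.restrict Ω) →
        (∀ k, MemLp (w k) 2 (volume.restrict Ω)) → WHol Ω c w →
        ∃ (a : Fin n → En n → ℂ) (b : Fin n → Fin n → En n → ℂ),
          (∀ k, DifferentiableOn ℂ (a k) Ω) ∧ (∀ j k, DifferentiableOn ℂ (b j k) Ω) ∧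
          IsDa Ω a b ∧
          (∀ k ρ, IsTest Ω ρ →
            ∫ x in Ω, (w k x * ρ x - c x * dz k ρ x) = ∫ x in Ω, a k x * ρ x) ∧
          (∀ k, nd Ω t (a k) ≤ C * XX Ω t c w) ∧
          (∀ j k, nd Ω t (b j k) ≤ C * (ENNReal.ofReal t ^ 2 * XX Ω t c w)) := by
  obtain ⟨CW, hCW, hW⟩ := hW
  obtain ⟨CA, hCA, hA⟩ := hA
  refine ⟨16 * CW * CA * 2, ?_, ?_⟩
  · exact ENNReal.mul_ne_top (ENNReal.mul_ne_top (ENNReal.mul_ne_top (by norm_num) hCW) hCA)
      (by norm_num)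
  intro t ht c w hc hw hcw
  obtain ⟨a, b, ha, hb, hab, hwk, hpa, hpb⟩ := hW c w hc hw hcw
  have ht0 : 0 < t := by linarith
  have hmc : AEMeasurable (fun y => ‖c y‖ₑ ^ 2) (volume.restrict Ω) := hc.1.enorm.pow_const 2
  have hmw : ∀ k, AEMeasurable (fun y => ‖w k y‖ₑ ^ 2) (volume.restrict Ω) := fun k =>
    (hw k).1.enorm.pow_const 2
  have hmwt : AEMeasurable (wt t : En n → ℝ≥0∞) (volume.restrict Ω) :=
    (wt_cont t).measurable.aemeasurable
  have hmww : ∀ k, AEMeasurable (fun y => ‖w k y‖ₑ ^ 2 * wt t y) (volume.restrict Ω) := fun k =>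
    (hmw k).mul hmwt
  have hmww2 : ∀ k, AEMeasurable (fun y => ENNReal.ofReal t⁻¹ ^ 2 * (‖w k y‖ₑ ^ 2 * wt t y))
      (volume.restrict Ω) := fun k => (hmww k).const_mul _
  refine ⟨a, b, ha, hb, hab, hwk, ?_, ?_⟩
  · intro k
    have h1 := nd_of_pt ho hCW (fun F hF => hA t ht F hF) (a k)
      (fun y => ENNReal.ofReal t⁻¹ ^ 2 * ‖w k y‖ₑ ^ 2 + ‖c y‖ₑ ^ 2)
      (((hmw k).const_mul _).add hmc) (by
        intro x hx
        refine (hpa k x (dd Ω t x / 4) (by linarith) (cb_sub hx)).trans ?_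
        gcongr
        have h2 : dd Ω t x ≤ t⁻¹ := min_le_right _ _
        linarith)
    refine h1.trans ?_
    have h2 : ∫⁻ y in Ω, (ENNReal.ofReal t⁻¹ ^ 2 * ‖w k y‖ₑ ^ 2 + ‖c y‖ₑ ^ 2) * wt t y =
        ENNReal.ofReal t⁻¹ ^ 2 * nt Ω t (w k) + nt Ω t c := by
      unfold nt
      rw [← lintegral_const_mul' _ _ (ENNReal.pow_ne_top ENNReal.ofReal_ne_top),
        ← lintegral_add_left' (hmww2 k)]
      congr 1
      funext y
      ring
    rw [h2]
    have h3 : ENNReal.ofReal t⁻¹ ^ 2 * nt Ω t (w k) + nt Ω t c ≤ XX Ω t c w := by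
      unfold XX
      rw [add_comm]
      gcongr
      exact Finset.single_le_sum (f := fun k => nt Ω t (w k)) (fun _ _ => zero_le) (Finset.mem_univ k)
    calc 16 * CW * CA * (ENNReal.ofReal t⁻¹ ^ 2 * nt Ω t (w k) + nt Ω t c)
        ≤ 16 * CW * CA * XX Ω t c w := by gcongr
      _ = 16 * CW * CA * 1 * XX Ω t c w := by ring
      _ ≤ 16 * CW * CA * 2 * XX Ω t c w := by
        gcongr
        norm_num
  · intro j k
    have h1 := nd_of_pt ho hCW (fun F hF => hA t ht F hF) (b j k)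
      (fun y => ‖w j y‖ₑ ^ 2 + ‖w k y‖ₑ ^ 2)
      ((hmw j).add (hmw k)) (by
        intro x hx
        exact hpb j k x (dd Ω t x / 4) (by linarith) (cb_sub hx))
    refine h1.trans ?_
    have h2 : ∫⁻ y in Ω, (‖w j y‖ₑ ^ 2 + ‖w k y‖ₑ ^ 2) * wt t y =
        nt Ω t (w j) + nt Ω t (w k) := by
      unfold nt
      rw [← lintegral_add_left' (hmww j)]
      congr 1
      funext y
      ring
    rw [h2]
    have h3 : ∀ k, nt Ω t (w k) ≤ ENNReal.ofReal t ^ 2 * XX Ω t c w := by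
      intro k
      have h4 : (1 : ℝ≥0∞) = ENNReal.ofReal t ^ 2 * ENNReal.ofReal t⁻¹ ^ 2 := by
        rw [← mul_pow, ← ENNReal.ofReal_mul ht0.le, mul_inv_cancel₀ ht0.ne']
        simp
      calc nt Ω t (w k) = 1 * nt Ω t (w k) := (one_mul _).symm
        _ = ENNReal.ofReal t ^ 2 * (ENNReal.ofReal t⁻¹ ^ 2 * nt Ω t (w k)) := by
          rw [h4]; ring
        _ ≤ ENNReal.ofReal t ^ 2 * XX Ω t c w := by
          gcongr
          unfold XX
          refine le_trans ?_ le_add_self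
          gcongr
          exact Finset.single_le_sum (f := fun k => nt Ω t (w k)) (fun _ _ => zero_le)
            (Finset.mem_univ k)
    calc 16 * CW * CA * (nt Ω t (w j) + nt Ω t (w k))
        ≤ 16 * CW * CA * (ENNReal.ofReal t ^ 2 * XX Ω t c w +
          ENNReal.ofReal t ^ 2 * XX Ω t c w) := by
          gcongr
          · exact h3 j
          · exact h3 k
      _ = _ := by ring

theorem step (Ω : Set (En n)) (ho : IsOpen Ω) (hb : Bornology.IsBounded Ω) (hW : WeyS Ω)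
    (hA : AvgS Ω) (hHom : HomS Ω) (hHardy : HardyS Ω) (hP : Patches Ω) (hHor : HorS Ω) :
    ∃ C : ℝ≥0∞, C ≠ ⊤ ∧ ∃ t0 : ℝ, 1 ≤ t0 ∧ ∀ t : ℝ, t0 ≤ t →
      ∀ (c : En n → ℂ) (w : Fin n → En n → ℂ), MemLp c 2 (volume.restrict Ω) →
        (∀ k, MemLp (w k) 2 (volume.restrict Ω)) → WHol Ω c w →
        ∃ (g : En n → ℂ) (η : Fin n → En n → ℂ) (c' : En n → ℂ) (w' : Fin n → En n → ℂ),
          MemLp g 2 (volume.restrict Ω) ∧ (∀ k, MemLp (η k) 2 (volume.restrict Ω)) ∧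
          MemLp c' 2 (volume.restrict Ω) ∧ (∀ k, MemLp (w' k) 2 (volume.restrict Ω)) ∧
          WHol Ω c' w' ∧
          (∀ j ρ, IsTest Ω ρ → ∫ x in Ω, g x * dbar j ρ x = 0) ∧
          (∀ k ρ, IsTest Ω ρ → ∫ x in Ω, (w k x * ρ x - c x * dz k ρ x) =
            (∫ x in Ω, (η k x * ρ x - g x * dz k ρ x)) +
              ∫ x in Ω, (w' k x * ρ x - c' x * dz k ρ x)) ∧
          XX Ω t c' w' ≤ C * ENNReal.ofReal t⁻¹ * XX Ω t c w ∧
          nt Ω t g ≤ C * XX Ω t c w ∧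
          (∀ k, nt Ω t (η k) ≤ C * (ENNReal.ofReal t ^ 2 * XX Ω t c w)) := by
  obtain ⟨C1, hC1, hrep⟩ := rep Ω ho hW hA
  obtain ⟨C2, hC2, t0, ht0, hps⟩ := psum Ω ho hb hHom hHardy hP
  have hAt : C1 * C2 ≠ ⊤ := ENNReal.mul_ne_top hC1 hC2
  refine ⟨4 * (C1 * C2 + 2 * n * (C1 * C2)) + 2 * (n * (C1 * C2) + 2 * n * n * (C1 * C2)), ?_,
    t0, ht0, ?_⟩
  · have hn : (n : ℝ≥0∞) ≠ ⊤ := ENNReal.natCast_ne_top n
    have h2 : (2 : ℝ≥0∞) ≠ ⊤ := by norm_num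
    have h4 : (4 : ℝ≥0∞) ≠ ⊤ := by norm_num
    exact ENNReal.add_ne_top.2 ⟨ENNReal.mul_ne_top h4 (ENNReal.add_ne_top.2 ⟨hAt,
      ENNReal.mul_ne_top (ENNReal.mul_ne_top h2 hn) hAt⟩), ENNReal.mul_ne_top h2
      (ENNReal.add_ne_top.2 ⟨ENNReal.mul_ne_top hn hAt, ENNReal.mul_ne_top (ENNReal.mul_ne_top
      (ENNReal.mul_ne_top h2 hn) hn) hAt⟩)⟩
  intro t htt c w hc hw hcw
  have ht1 : 1 ≤ t := ht0.trans htt
  have htp : 0 < t := by linarith
  obtain ⟨a, b, ha, hbd, hab, hwk, hna, hnb⟩ := hrep t ht1 c w hc hw hcw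
  obtain ⟨X, hX⟩ : ∃ X, X = XX Ω t c w := ⟨_, rfl⟩
  rw [← hX] at hna hnb ⊢
  have hXt : X ≠ ⊤ := by
    rw [hX]
    unfold XX
    exact ENNReal.add_ne_top.2 ⟨nt_ne_top hc htp.le, ENNReal.mul_ne_top
      (ENNReal.pow_ne_top ENNReal.ofReal_ne_top) (ENNReal.sum_ne_top.2 fun k _ =>
        nt_ne_top (hw k) htp.le)⟩
  have ht2t : ENNReal.ofReal t ^ 2 ≠ ⊤ := ENNReal.pow_ne_top ENNReal.ofReal_ne_top
  obtain ⟨g0, β, q, Q, hO⟩ := hps t htt a b ha hbd hab (C1 * X)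
    (C1 * (ENNReal.ofReal t ^ 2 * X)) (ENNReal.mul_ne_top hC1 hXt)
    (ENNReal.mul_ne_top hC1 (ENNReal.mul_ne_top ht2t hXt)) hna hnb
  -- solve for the corrections
  have hcl : ∀ (f : En n → ℂ) (γ : Fin n → En n → ℂ),
      (∀ m ρ, IsTest Ω ρ → ∫ x in Ω, f x * dbar m ρ x = - ∫ x in Ω, γ m x * ρ x) →
      ∀ j k ρ, IsTest Ω ρ → ∫ x in Ω, γ j x * dbar k ρ x = ∫ x in Ω, γ k x * dbar j ρ x := by
    intro f γ h j k ρ hρ
    have h1 := h j _ (wd_isTest hρ k)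
    have h2 := h k _ (wd_isTest hρ j)
    have h3 : ∀ x, dbar j (dbar k ρ) x = dbar k (dbar j ρ) x := wd_comm hρ.smooth j k
    simp_rw [h3] at h1
    rw [h1] at h2
    exact neg_injective h2
  obtain ⟨c0, mc0, wc0, nc0⟩ := hHor t htp β hO.mβ (hcl g0 β hO.wβ)
  choose c2 mc2 wc2 nc2 using fun k => hHor t htp (fun m => Q m k) (fun m => hO.mQ m k)
    (hcl (q k) (fun m => Q m k) (fun m ρ hρ => hO.wQ m k ρ hρ))
  have h2t : ENNReal.ofReal (2 / t) = 2 * ENNReal.ofReal t⁻¹ := by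
    rw [div_eq_mul_inv, ENNReal.ofReal_mul (by norm_num)]
    simp
  have hti : ENNReal.ofReal t⁻¹ ≤ 1 := by
    rw [ENNReal.ofReal_le_one]
    exact inv_le_one_of_one_le₀ ht1
  have htt1 : ENNReal.ofReal t⁻¹ ^ 2 * ENNReal.ofReal t ^ 2 = 1 := by
    rw [← mul_pow, ← ENNReal.ofReal_mul (inv_nonneg.2 htp.le), inv_mul_cancel₀ htp.ne']
    simp
  have bc0 : nt Ω t c0 ≤ ENNReal.ofReal t⁻¹ * (2 * n * (C1 * C2)) * X := by
    refine nc0.trans ?_
    rw [h2t]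
    calc 2 * ENNReal.ofReal t⁻¹ * ∑ m, nt Ω t (β m)
        ≤ 2 * ENNReal.ofReal t⁻¹ * ∑ _m : Fin n, C2 * (C1 * X) := by
          gcongr with m _
          exact hO.nβ m
      _ = _ := by
          rw [Finset.sum_const, Finset.card_univ, Fintype.card_fin, nsmul_eq_mul]
          ring
  have bc2 : ∀ k, nt Ω t (c2 k) ≤
      ENNReal.ofReal t⁻¹ * (2 * n * (2 * (C1 * C2))) * (ENNReal.ofReal t ^ 2 * X) := by
    intro k
    refine (nc2 k).trans ?_
    rw [h2t]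
    calc 2 * ENNReal.ofReal t⁻¹ * ∑ m, nt Ω t (Q m k)
        ≤ 2 * ENNReal.ofReal t⁻¹ * ∑ _m : Fin n, C2 * (C1 * (ENNReal.ofReal t ^ 2 * X) +
          ENNReal.ofReal t ^ 2 * (C1 * X)) := by
          gcongr with m _
          exact hO.nQ m k
      _ = _ := by
          rw [Finset.sum_const, Finset.card_univ, Fintype.card_fin, nsmul_eq_mul]
          ring
  -- weak identities
  have hid : ∀ k ρ, IsTest Ω ρ → ∫ x in Ω, (w k x * ρ x - c x * dz k ρ x) =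
      (∫ x in Ω, ((q k x - c2 k x) * ρ x - (g0 x - c0 x) * dz k ρ x)) +
        ∫ x in Ω, (c2 k x * ρ x - c0 x * dz k ρ x) := by
    intro k ρ hρ
    have i1 := test_int (hO.mq k) hρ
    have i2 := test_int (mc2 k) hρ
    have i3 := test_int hO.mg (dz_isTest hρ k)
    have i4 := test_int mc0 (dz_isTest hρ k)
    rw [hwk k ρ hρ]
    have e1 : ∫ x in Ω, ((q k x - c2 k x) * ρ x - (g0 x - c0 x) * dz k ρ x) =
        (∫ x in Ω, q k x * ρ x) - (∫ x in Ω, c2 k x * ρ x) -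
          ((∫ x in Ω, g0 x * dz k ρ x) - ∫ x in Ω, c0 x * dz k ρ x) := by
      have i5 : Integrable (fun x => q k x * ρ x - c2 k x * ρ x) (volume.restrict Ω) := i1.sub i2
      have i6 : Integrable (fun x => g0 x * dz k ρ x - c0 x * dz k ρ x) (volume.restrict Ω) :=
        i3.sub i4
      rw [← integral_sub i1 i2, ← integral_sub i3 i4, ← integral_sub i5 i6]
      congr 1
      funext x
      ring
    have e2 : ∫ x in Ω, (c2 k x * ρ x - c0 x * dz k ρ x) =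
        (∫ x in Ω, c2 k x * ρ x) - ∫ x in Ω, c0 x * dz k ρ x := integral_sub i2 i4
    have e3 := hO.wq k ρ hρ
    simp only [one_mul] at e3
    rw [e1, e2, e3]
    ring
  have hg : ∀ j ρ, IsTest Ω ρ → ∫ x in Ω, (g0 x - c0 x) * dbar j ρ x = 0 := by
    intro j ρ hρ
    have e1 : ∫ x in Ω, (g0 x - c0 x) * dbar j ρ x =
        (∫ x in Ω, g0 x * dbar j ρ x) - ∫ x in Ω, c0 x * dbar j ρ x := by
      rw [← integral_sub (test_int hO.mg (wd_isTest hρ j)) (test_int mc0 (wd_isTest hρ j))]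
      congr 1
      funext x
      ring
    rw [e1, hO.wβ j ρ hρ, wc0 j ρ hρ, sub_self]
  have hη : ∀ k j ρ, IsTest Ω ρ → ∫ x in Ω, (q k x - c2 k x) * dbar j ρ x = 0 := by
    intro k j ρ hρ
    have e1 : ∫ x in Ω, (q k x - c2 k x) * dbar j ρ x =
        (∫ x in Ω, q k x * dbar j ρ x) - ∫ x in Ω, c2 k x * dbar j ρ x := by
      rw [← integral_sub (test_int (hO.mq k) (wd_isTest hρ j)) (test_int (mc2 k) (wd_isTest hρ j))]
      congr 1
      funext x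
      ring
    rw [e1, hO.wQ j k ρ hρ, wc2 k j ρ hρ, sub_self]
  refine ⟨fun x => g0 x - c0 x, fun k x => q k x - c2 k x, c0, c2, hO.mg.sub mc0,
    fun k => (hO.mq k).sub (mc2 k), mc0, mc2, ?_, hg, hid, ?_, ?_, ?_⟩
  · intro j k ρ hρ
    have h1 := hid k _ (wd_isTest hρ j)
    rw [hcw j k ρ hρ] at h1
    have e1 : ∫ x in Ω, ((q k x - c2 k x) * dbar j ρ x - (g0 x - c0 x) * dz k (dbar j ρ) x) =
        (∫ x in Ω, (q k x - c2 k x) * dbar j ρ x) -
          ∫ x in Ω, (g0 x - c0 x) * dbar j (dz k ρ) x := by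
      have i5 : Integrable (fun x => (q k x - c2 k x) * dbar j ρ x) (volume.restrict Ω) :=
        test_int ((hO.mq k).sub (mc2 k)) (wd_isTest hρ j)
      have i6 : Integrable (fun x => (g0 x - c0 x) * dbar j (dz k ρ) x) (volume.restrict Ω) :=
        test_int (hO.mg.sub mc0) (wd_isTest (dz_isTest hρ k) j)
      rw [← integral_sub i5 i6]
      congr 1
      funext x
      rw [dz_dbar_comm hρ.smooth]
    rw [e1, hη k j ρ hρ, hg j _ (dz_isTest hρ k), sub_zero, zero_add] at h1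
    exact h1.symm
  · unfold XX
    calc nt Ω t c0 + ENNReal.ofReal t⁻¹ ^ 2 * ∑ k, nt Ω t (c2 k)
        ≤ ENNReal.ofReal t⁻¹ * (2 * n * (C1 * C2)) * X + ENNReal.ofReal t⁻¹ ^ 2 * ∑ _k : Fin n,
          ENNReal.ofReal t⁻¹ * (2 * n * (2 * (C1 * C2))) * (ENNReal.ofReal t ^ 2 * X) := by
          gcongr with k _
          exact bc2 k
      _ = (ENNReal.ofReal t⁻¹ ^ 2 * ENNReal.ofReal t ^ 2) *
          (ENNReal.ofReal t⁻¹ * (n * (2 * n * (2 * (C1 * C2))) * X)) +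
            ENNReal.ofReal t⁻¹ * (2 * n * (C1 * C2)) * X := by
          rw [Finset.sum_const, Finset.card_univ, Fintype.card_fin, nsmul_eq_mul]
          ring
      _ = (2 * (n * (C1 * C2) + 2 * n * n * (C1 * C2))) * ENNReal.ofReal t⁻¹ * X := by
          rw [htt1]
          ring
      _ ≤ _ := by
          gcongr
          exact le_add_self
  · refine (nt_sub Ω t g0 c0 hO.mg.1).trans ?_
    calc 2 * (nt Ω t g0 + nt Ω t c0)
        ≤ 2 * (C2 * (C1 * X) + 1 * (2 * n * (C1 * C2)) * X) := by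
          gcongr
          · exact hO.ng
          · refine bc0.trans ?_
            gcongr
      _ = (2 * (C1 * C2 + 2 * n * (C1 * C2))) * X := by ring
      _ ≤ (4 * (C1 * C2 + 2 * n * (C1 * C2))) * X := by
          gcongr
          norm_num
      _ ≤ _ := by
          gcongr
          exact le_self_add
  · intro k
    refine (nt_sub Ω t (q k) (c2 k) (hO.mq k).1).trans ?_
    calc 2 * (nt Ω t (q k) + nt Ω t (c2 k))
        ≤ 2 * (C2 * (C1 * (ENNReal.ofReal t ^ 2 * X) + ENNReal.ofReal t ^ 2 * (C1 * X)) +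
          1 * (2 * n * (2 * (C1 * C2))) * (ENNReal.ofReal t ^ 2 * X)) := by
          gcongr
          · exact hO.nq k
          · refine (bc2 k).trans ?_
            gcongr
      _ = (4 * (C1 * C2 + 2 * n * (C1 * C2))) * (ENNReal.ofReal t ^ 2 * X) := by ring
      _ ≤ _ := by
          gcongr
          exact le_self_add

end Pool.Agent.Y262
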