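import Pool.Agent.Y262.Patch

/-! Summation over the patches. -/

set_option autoImplicit false

open MeasureTheory Complex Filter Topology Metric
open scoped ContDiff InnerProductSpace ENNReal ComplexConjugate

namespace Pool.Agent.Y262

open BK BK.JB3 BK.JB6

variable {n : ℕ}

theorem a_int {Ω : Set (En n)} (ho : IsOpen Ω) {h : En n → ℂ} (hh : ContinuousOn h Ω)
    {ρ : En n → ℂ} (hρ : IsTest Ω ρ) : Integrable (fun x => h x * ρ x) (volume.restrict Ω) := by
  have h1 : IntegrableOn (fun x => h x * ρ x) (tsupport ρ) volume :=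
    ((hh.mono hρ.supp).mul hρ.smooth.continuous.continuousOn).integrableOn_compact hρ.compact
  exact h1.of_forall_sdiff_eq_zero ho.measurableSet fun x hx => by
    rw [image_eq_zero_of_notMem_tsupport hx.2, mul_zero]

theorem psum (Ω : Set (En n)) (ho : IsOpen Ω) (hb : Bornology.IsBounded Ω) (hHom : HomS Ω)
    (hHardy : HardyS Ω) (hP : Patches Ω) :
    ∃ C : ℝ≥0∞, C ≠ ⊤ ∧ ∃ t0 : ℝ, 1 ≤ t0 ∧ ∀ t : ℝ, t0 ≤ t →
      ∀ (a : Fin n → En n → ℂ) (b : Fin n → Fin n → En n → ℂ),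
      (∀ k, DifferentiableOn ℂ (a k) Ω) → (∀ j k, DifferentiableOn ℂ (b j k) Ω) → IsDa Ω a b →
      ∀ Y Z : ℝ≥0∞, Y ≠ ⊤ → Z ≠ ⊤ → (∀ k, nd Ω t (a k) ≤ Y) → (∀ j k, nd Ω t (b j k) ≤ Z) →
      ∃ (g : En n → ℂ) (β q : Fin n → En n → ℂ) (Q : Fin n → Fin n → En n → ℂ),
        Out Ω t (fun _ => 1) a C Y Z g β q Q := by
  obtain ⟨m, U, ν, χ, κ, s1, hκ, hκ1, hs1, hU, hcone, hχ, hχc, hχU, hχ01, hχ1⟩ := hP
  choose C hC hpatch using fun i => patch Ω ho hb hHom hHardy (U i) (hU i) (ν i) κ s1 hκ hκ1 hs1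
    (hcone i) (χ i) (hχ i) (hχc i) (hχU i)
  refine ⟨(m : ℝ≥0∞) * ∑ i, C i, ?_, max 1 s1⁻¹, le_max_left _ _, ?_⟩
  · exact ENNReal.mul_ne_top (ENNReal.natCast_ne_top m) (ENNReal.sum_ne_top.2 fun i _ => hC i)
  intro t ht a b ha hbd hab Y Z hY hZ hYa hZb
  have ht1 : 1 ≤ t := (le_max_left _ _).trans ht
  have ht2 : s1⁻¹ ≤ t := (le_max_right _ _).trans ht
  choose g β q Q hO using fun i => hpatch i t ht1 ht2 a b ha hbd hab Y Z hY hZ hYa hZb
  have hsum : ∀ (W : ℝ≥0∞) (f : Fin m → En n → ℂ),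
      (∀ i, MemLp (f i) 2 (volume.restrict Ω)) → (∀ i, nt Ω t (f i) ≤ C i * W) →
      nt Ω t (fun x => ∑ i, f i x) ≤ (m : ℝ≥0∞) * (∑ i, C i) * W := by
    intro W f hf hn
    refine (nt_sum Finset.univ Ω t f fun i _ => (hf i).1).trans ?_
    rw [Finset.card_univ, Fintype.card_fin, mul_assoc, Finset.sum_mul]
    gcongr with i _
    exact hn i
  have hint : ∀ (f : Fin m → En n → ℂ), (∀ i, MemLp (f i) 2 (volume.restrict Ω)) →
      ∀ ρ, IsTest Ω ρ → ∫ x in Ω, (∑ i, f i x) * ρ x = ∑ i, ∫ x in Ω, f i x * ρ x := by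
    intro f hf ρ hρ
    rw [← integral_finsetSum _ fun i _ => test_int (hf i) hρ]
    congr 1
    funext x
    rw [Finset.sum_mul]
  refine ⟨fun x => ∑ i, g i x, fun k x => ∑ i, β i k x, fun k x => ∑ i, q i k x,
    fun l k x => ∑ i, Q i l k x, ?_⟩
  constructor
  · exact memLp_finsetSum _ fun i _ => (hO i).mg
  · intro k; exact memLp_finsetSum _ fun i _ => (hO i).mβ k
  · intro k; exact memLp_finsetSum _ fun i _ => (hO i).mq k
  · intro l k; exact memLp_finsetSum _ fun i _ => (hO i).mQ l k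
  · intro k ρ hρ
    rw [hint _ (fun i => (hO i).mg) _ (wd_isTest hρ k), hint _ (fun i => (hO i).mβ k) _ hρ,
      ← Finset.sum_neg_distrib]
    exact Finset.sum_congr rfl fun i _ => (hO i).wβ k ρ hρ
  · intro k ρ hρ
    have hai : ∀ i, Integrable (fun x => ((χ i x : ℂ) * a k x) * ρ x) (volume.restrict Ω) := by
      intro i
      apply a_int ho _ hρ
      exact (Complex.continuous_ofReal.comp (hχ i).continuous).continuousOn.mul
        (ha k).continuousOn
    have h1 : ∫ x in Ω, (1 * a k x) * ρ x = ∑ i, ∫ x in Ω, ((χ i x : ℂ) * a k x) * ρ x := by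
      rw [← integral_finsetSum _ fun i _ => hai i]
      apply setIntegral_congr_fun ho.measurableSet
      intro x hx
      simp only
      have h2 : ∑ i, ((χ i x : ℂ) * a k x) * ρ x = ((∑ i, χ i x : ℝ) : ℂ) * (a k x * ρ x) := by
        rw [Complex.ofReal_sum, Finset.sum_mul]
        exact Finset.sum_congr rfl fun i _ => by ring
      rw [h2, hχ1 x hx, Complex.ofReal_one]
      ring
    rw [hint _ (fun i => (hO i).mg) _ (dz_isTest hρ k), hint _ (fun i => (hO i).mq k) _ hρ, h1,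
      ← Finset.sum_sub_distrib]
    exact Finset.sum_congr rfl fun i _ => (hO i).wq k ρ hρ
  · intro l k ρ hρ
    rw [hint _ (fun i => (hO i).mq k) _ (wd_isTest hρ l), hint _ (fun i => (hO i).mQ l k) _ hρ,
      ← Finset.sum_neg_distrib]
    exact Finset.sum_congr rfl fun i _ => (hO i).wQ l k ρ hρ
  · exact hsum Y g (fun i => (hO i).mg) (fun i => (hO i).ng)
  · intro k; exact hsum Y (fun i => β i k) (fun i => (hO i).mβ k) (fun i => (hO i).nβ k)
  · intro k; exact hsum _ (fun i => q i k) (fun i => (hO i).mq k) (fun i => (hO i).nq k)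
  · intro l k; exact hsum _ (fun i => Q i l k) (fun i => (hO i).mQ l k) (fun i => (hO i).nQ l k)

end Pool.Agent.Y262
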