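import Pool.Agent.Y262.Hor3

/-! Tools: weighted norms of sums and of cut off functions, product rules in weak form. -/

set_option autoImplicit false

open MeasureTheory Complex Filter Topology Metric
open scoped ContDiff InnerProductSpace ENNReal ComplexConjugate

namespace Pool.Agent.Y262

open BK BK.JB3 BK.JB6

variable {n : ℕ}

theorem enorm_sq_eq (z : ℂ) : ‖z‖ₑ ^ 2 = ENNReal.ofReal (‖z‖ ^ 2) := by
  rw [ENNReal.ofReal_pow (norm_nonneg _), ofReal_norm]

theorem enorm_sum_sq {ι : Type*} (s : Finset ι) (f : ι → ℂ) :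
    ‖∑ j ∈ s, f j‖ₑ ^ 2 ≤ (s.card : ℝ≥0∞) * ∑ j ∈ s, ‖f j‖ₑ ^ 2 := by
  simp only [enorm_sq_eq]
  rw [← ENNReal.ofReal_sum_of_nonneg fun j _ => by positivity, ← ENNReal.ofReal_natCast,
    ← ENNReal.ofReal_mul (by positivity)]
  apply ENNReal.ofReal_le_ofReal
  have h1 : ‖∑ j ∈ s, f j‖ ^ 2 ≤ (∑ j ∈ s, ‖f j‖) ^ 2 :=
    pow_le_pow_left₀ (norm_nonneg _) (norm_sum_le _ _) 2
  exact h1.trans (sq_sum_le_card_mul_sum_sq)

theorem nt_sum {ι : Type*} (s : Finset ι) (Ω : Set (En n)) (t : ℝ) (f : ι → En n → ℂ)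
    (hf : ∀ j ∈ s, AEStronglyMeasurable (f j) (volume.restrict Ω)) :
    nt Ω t (fun x => ∑ j ∈ s, f j x) ≤ (s.card : ℝ≥0∞) * ∑ j ∈ s, nt Ω t (f j) := by
  unfold nt
  rw [← lintegral_finset_sum', ← lintegral_const_mul' _ _ (ENNReal.natCast_ne_top _)]
  · apply lintegral_mono
    intro x
    have h1 := enorm_sum_sq s (fun j => f j x)
    calc ‖∑ j ∈ s, f j x‖ₑ ^ 2 * wt t x ≤ ((s.card : ℝ≥0∞) * ∑ j ∈ s, ‖f j x‖ₑ ^ 2) * wt t x := by
          gcongr
      _ = _ := by rw [mul_assoc, Finset.sum_mul]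
  · intro j hj
    exact ((hf j hj).enorm.pow_const 2).mul (wt_cont t).measurable.aemeasurable

theorem nt_add (Ω : Set (En n)) (t : ℝ) (f g : En n → ℂ)
    (hf : AEStronglyMeasurable f (volume.restrict Ω)) :
    nt Ω t (fun x => f x + g x) ≤ 2 * (nt Ω t f + nt Ω t g) := by
  unfold nt
  have hm : AEMeasurable (fun x => ‖f x‖ₑ ^ 2 * wt t x) ((volume : Measure (En n)).restrict Ω) :=
    (hf.enorm.pow_const 2).mul (wt_cont t).measurable.aemeasurable
  rw [← lintegral_add_left' hm, ← lintegral_const_mul' _ _ (by norm_num)]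
  apply lintegral_mono
  intro x
  have h1 : ‖f x + g x‖ₑ ^ 2 ≤ 2 * (‖f x‖ₑ ^ 2 + ‖g x‖ₑ ^ 2) := by
    simp only [enorm_sq_eq]
    rw [← ENNReal.ofReal_add (by positivity) (by positivity),
      show (2 : ℝ≥0∞) = ENNReal.ofReal 2 by simp, ← ENNReal.ofReal_mul (by norm_num)]
    apply ENNReal.ofReal_le_ofReal
    have h2 := norm_add_le (f x) (g x)
    have h3 : ‖f x + g x‖ ^ 2 ≤ (‖f x‖ + ‖g x‖) ^ 2 := pow_le_pow_left₀ (norm_nonneg _) h2 2
    nlinarith [sq_nonneg (‖f x‖ - ‖g x‖)]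
  calc ‖f x + g x‖ₑ ^ 2 * wt t x ≤ (2 * (‖f x‖ₑ ^ 2 + ‖g x‖ₑ ^ 2)) * wt t x := by gcongr
    _ = _ := by ring

theorem nt_neg (Ω : Set (En n)) (t : ℝ) (f : En n → ℂ) :
    nt Ω t (fun x => - f x) = nt Ω t f := by
  unfold nt
  simp only [enorm_neg]

theorem nt_sub (Ω : Set (En n)) (t : ℝ) (f g : En n → ℂ)
    (hf : AEStronglyMeasurable f (volume.restrict Ω)) :
    nt Ω t (fun x => f x - g x) ≤ 2 * (nt Ω t f + nt Ω t g) := by
  have h1 := nt_add Ω t f (fun x => - g x) hf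
  rw [nt_neg] at h1
  simpa only [← sub_eq_add_neg] using h1

theorem nt_smul (Ω : Set (En n)) (t : ℝ) (c : ℂ) (f : En n → ℂ) :
    nt Ω t (fun x => c * f x) = ‖c‖ₑ ^ 2 * nt Ω t f := by
  unfold nt
  rw [← lintegral_const_mul' _ _ (by
    apply ENNReal.pow_ne_top
    exact enorm_ne_top)]
  congr 1
  funext x
  rw [enorm_mul, mul_pow]
  ring

theorem nt_congr {Ω : Set (En n)} {t : ℝ} {f g : En n → ℂ}
    (h : f =ᵐ[volume.restrict Ω] g) : nt Ω t f = nt Ω t g := by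
  unfold nt
  apply lintegral_congr_ae
  filter_upwards [h] with x hx
  rw [hx]

/-- weighted norm of a cut off function -/
theorem nt_cut {Ω U : Set (En n)} (hU : IsOpen U) (t : ℝ) (ξ F : En n → ℂ) (M : ℝ≥0∞)
    (hM : M ≠ ⊤) (hξ : ∀ x, ‖ξ x‖ₑ ≤ M) (h0 : ∀ x, x ∉ U → ξ x = 0) :
    nt Ω t (fun x => ξ x * F x) ≤ M ^ 2 * nt (Ω ∩ U) t F := by
  unfold nt
  rw [← lintegral_const_mul' _ _ (ENNReal.pow_ne_top hM), Set.inter_comm,
    ← Measure.restrict_restrict hU.measurableSet, ← lintegral_indicator hU.measurableSet]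
  apply lintegral_mono
  intro x
  by_cases hx : x ∈ U
  · rw [Set.indicator_of_mem hx]
    show ‖ξ x * F x‖ₑ ^ 2 * wt t x ≤ M ^ 2 * (‖F x‖ₑ ^ 2 * wt t x)
    rw [enorm_mul, mul_pow, mul_assoc]
    gcongr
    exact hξ x
  · show ‖ξ x * F x‖ₑ ^ 2 * wt t x ≤ _
    rw [h0 x hx]
    simp

theorem memLp_cut {Ω U : Set (En n)} (hU : IsOpen U) (ξ F : En n → ℂ) (hc : Continuous ξ)
    (M : ℝ) (hξ : ∀ x, ‖ξ x‖ ≤ M) (h0 : ∀ x, x ∉ U → ξ x = 0)
    (hF : MemLp F 2 (volume.restrict (Ω ∩ U))) :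
    MemLp (fun x => ξ x * F x) 2 ((volume : Measure (En n)).restrict Ω) := by
  have hind : (fun x => ξ x * F x) = U.indicator (fun x => ξ x * F x) := by
    funext x
    by_cases hx : x ∈ U
    · rw [Set.indicator_of_mem hx]
    · rw [Set.indicator_of_notMem hx, h0 x hx, zero_mul]
  rw [hind, memLp_indicator_iff_restrict hU.measurableSet,
    Measure.restrict_restrict hU.measurableSet, Set.inter_comm]
  refine (hF.const_mul (M : ℂ)).mono (hc.aestronglyMeasurable.mul hF.1)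
    (Eventually.of_forall fun x => ?_)
  rw [norm_mul, norm_mul, Complex.norm_real]
  apply mul_le_mul_of_nonneg_right _ (norm_nonneg _)
  exact (hξ x).trans (le_abs_self _)

theorem test_cut {Ω U : Set (En n)} {ξ ρ : En n → ℂ} (hξ : ContDiff ℝ ∞ ξ)
    (hs : tsupport ξ ⊆ U) (hρ : IsTest Ω ρ) : IsTest (Ω ∩ U) (fun x => ξ x * ρ x) where
  smooth := hξ.mul hρ.smooth
  compact := hρ.compact.mul_left
  supp := Set.subset_inter
    ((tsupport_mul_subset_right (f := ξ) (g := ρ)).trans hρ.supp)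
    ((tsupport_mul_subset_left (f := ξ) (g := ρ)).trans hs)

theorem dbar_mul' {a b : En n → ℂ} (ha : ContDiff ℝ ∞ a) (hb : ContDiff ℝ ∞ b) (j : Fin n)
    (x : En n) : dbar j (fun y => a y * b y) x = dbar j a x * b x + a x * dbar j b x := by
  have h1 : fderiv ℝ (fun y => a y * b y) x = _ :=
    (((ha.differentiable (by simp)) x).hasFDerivAt.mul
    ((hb.differentiable (by simp)) x).hasFDerivAt).fderiv
  unfold dbar
  rw [h1]
  simp only [add_apply, smul_apply, smul_eq_mul]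
  ring

theorem dz_mul' {a b : En n → ℂ} (ha : ContDiff ℝ ∞ a) (hb : ContDiff ℝ ∞ b) (j : Fin n)
    (x : En n) : dz j (fun y => a y * b y) x = dz j a x * b x + a x * dz j b x := by
  have h1 : fderiv ℝ (fun y => a y * b y) x = _ :=
    (((ha.differentiable (by simp)) x).hasFDerivAt.mul
    ((hb.differentiable (by simp)) x).hasFDerivAt).fderiv
  unfold dz
  rw [h1]
  simp only [add_apply, smul_apply, smul_eq_mul]
  ring

theorem dz_supp {ψ : En n → ℂ} (j : Fin n) : Function.support (dz j ψ) ⊆ tsupport ψ := by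
  intro x hx
  by_contra h
  apply hx
  have h1 : fderiv ℝ ψ x = 0 := fderiv_of_notMem_tsupport (𝕜 := ℝ) h
  simp [dz, h1]

theorem dz_isTest {Ω : Set (En n)} {ψ : En n → ℂ} (h : IsTest Ω ψ) (j : Fin n) :
    IsTest Ω (dz j ψ) :=
  ⟨BK.JB1.JKI.dz_smooth h.smooth j, h.compact.mono' (dz_supp j),
    (closure_minimal (dz_supp j) (isClosed_tsupport _)).trans h.supp⟩

theorem dz_dbar_comm {φ : En n → ℂ} (h : ContDiff ℝ ∞ φ) (j k : Fin n) (x : En n) :
    dz k (dbar j φ) x = dbar j (dz k φ) x := by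
  have h1 : ContDiff ℝ ∞ (fderiv ℝ φ) := h.fderiv_right (by simp)
  have hd : DifferentiableAt ℝ (fderiv ℝ φ) x := (h1.differentiable (by simp)) x
  have h3 : ∀ w : En n, HasFDerivAt (fun y => fderiv ℝ φ y w)
      ((fderiv ℝ (fderiv ℝ φ) x).flip w) x := by
    intro w
    have := hd.hasFDerivAt.clm_apply (hasFDerivAt_const w x)
    refine this.congr_fderiv ?_
    ext v
    simp
  have key1 : ∀ (l : Fin n) (v : En n), fderiv ℝ (dbar l φ) x v =
      (1 / 2) * (fderiv ℝ (fderiv ℝ φ) x v (Pi.single l 1) +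
        I * fderiv ℝ (fderiv ℝ φ) x v (Pi.single l I)) := by
    intro l v
    have e : HasFDerivAt (dbar l φ) ((1 / 2 : ℂ) •
        (((fderiv ℝ (fderiv ℝ φ) x).flip (Pi.single l 1)) +
          I • ((fderiv ℝ (fderiv ℝ φ) x).flip (Pi.single l I)))) x :=
      ((h3 _).add ((h3 _).const_mul I)).const_mul (1 / 2 : ℂ)
    rw [e.fderiv]
    simp [smul_eq_mul]
    ring
  have key2 : ∀ (l : Fin n) (v : En n), fderiv ℝ (dz l φ) x v =
      (1 / 2) * (fderiv ℝ (fderiv ℝ φ) x v (Pi.single l 1) -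
        I * fderiv ℝ (fderiv ℝ φ) x v (Pi.single l I)) := by
    intro l v
    have e : HasFDerivAt (dz l φ) ((1 / 2 : ℂ) •
        (((fderiv ℝ (fderiv ℝ φ) x).flip (Pi.single l 1)) -
          I • ((fderiv ℝ (fderiv ℝ φ) x).flip (Pi.single l I)))) x :=
      ((h3 _).sub ((h3 _).const_mul I)).const_mul (1 / 2 : ℂ)
    rw [e.fderiv]
    simp [smul_eq_mul]
  have hsymm : IsSymmSndFDerivAt ℝ φ x := by
    apply ContDiffAt.isSymmSndFDerivAt (n := ∞) h.contDiffAt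
    rw [minSmoothness_of_isRCLikeNormedField]
    show ((2 : ℕ∞) : WithTop ℕ∞) ≤ ((⊤ : ℕ∞) : WithTop ℕ∞)
    exact WithTop.coe_le_coe.2 le_top
  have hs : ∀ v w : En n, fderiv ℝ (fderiv ℝ φ) x v w = fderiv ℝ (fderiv ℝ φ) x w v :=
    fun v w => hsymm v w
  have hu : ∀ (l : Fin n) (ψ : En n → ℂ), dbar l ψ x =
      (1 / 2) * (fderiv ℝ ψ x (Pi.single l 1) + I * fderiv ℝ ψ x (Pi.single l I)) := fun _ _ => rfl
  have hv : ∀ (l : Fin n) (ψ : En n → ℂ), dz l ψ x =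
      (1 / 2) * (fderiv ℝ ψ x (Pi.single l 1) - I * fderiv ℝ ψ x (Pi.single l I)) := fun _ _ => rfl
  rw [hu j, hv k, key1, key1, key2, key2, hs (Pi.single k 1) (Pi.single j 1),
    hs (Pi.single k 1) (Pi.single j I), hs (Pi.single k I) (Pi.single j 1),
    hs (Pi.single k I) (Pi.single j I)]
  ring

/-- integrals over `Ω` of functions vanishing off `U` -/
theorem int_cut {Ω U : Set (En n)} (ho : IsOpen Ω) (f : En n → ℂ) (h0 : ∀ x, x ∉ U → f x = 0) :
    ∫ x in Ω, f x = ∫ x in Ω ∩ U, f x := by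
  apply setIntegral_eq_of_subset_of_forall_sdiff_eq_zero ho.measurableSet Set.inter_subset_left
  intro x hx
  exact h0 x fun h => hx.2 ⟨hx.1, h⟩

/-- weak product rule for `∂̄` -/
theorem cut_dbar {Ω U : Set (En n)} (ho : IsOpen Ω) {ξ F : En n → ℂ}
    (hξ : ContDiff ℝ ∞ ξ) (hs : tsupport ξ ⊆ U)
    (hF : MemLp F 2 (volume.restrict (Ω ∩ U))) (m : Fin n)
    (hw : ∀ ρ, IsTest (Ω ∩ U) ρ → ∫ x in Ω ∩ U, F x * dbar m ρ x = 0)
    (ρ : En n → ℂ) (hρ : IsTest Ω ρ) :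
    ∫ x in Ω, (ξ x * F x) * dbar m ρ x = - ∫ x in Ω, (dbar m ξ x * F x) * ρ x := by
  have hξ0 : ∀ x, x ∉ U → ξ x = 0 := fun x hx =>
    image_eq_zero_of_notMem_tsupport fun h => hx (hs h)
  have hdξ0 : ∀ x, x ∉ U → dbar m ξ x = 0 := fun x hx => by
    by_contra h
    exact hx (hs (wd_dbar_supp m h))
  rw [int_cut (U := U) ho _ (fun x hx => by rw [hξ0 x hx]; ring),
    int_cut (U := U) ho _ (fun x hx => by rw [hdξ0 x hx]; ring)]
  have h1 := hw _ (test_cut hξ hs hρ)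
  have h2 : ∀ x, F x * dbar m (fun y => ξ y * ρ y) x =
      (ξ x * F x) * dbar m ρ x + (dbar m ξ x * F x) * ρ x := by
    intro x
    rw [dbar_mul' hξ hρ.smooth]
    ring
  simp_rw [h2] at h1
  have i1 : Integrable (fun x => (ξ x * F x) * dbar m ρ x) (volume.restrict (Ω ∩ U)) := by
    have := test_int hF (test_cut hξ hs (wd_isTest hρ m))
    refine this.congr (Eventually.of_forall fun x => ?_)
    simp only
    ring
  have i2 : Integrable (fun x => (dbar m ξ x * F x) * ρ x) (volume.restrict (Ω ∩ U)) := by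
    have hs' : tsupport (dbar m ξ) ⊆ U :=
      (closure_minimal (wd_dbar_supp m) (isClosed_tsupport _)).trans hs
    have := test_int hF (test_cut (wd_dbar_smooth hξ m) hs' hρ)
    refine this.congr (Eventually.of_forall fun x => ?_)
    simp only
    ring
  rw [integral_add i1 i2] at h1
  linear_combination h1

end Pool.Agent.Y262
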