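import Pool.Agent.Y262.Hom
import Pool.Agent.Y262.Geo
import Pool.Agent.Y262.Hardy

/-! Convolution with smooth complex kernels. -/

set_option autoImplicit false


open MeasureTheory Complex Filter Topology Metric
open scoped ContDiff ENNReal ComplexConjugate

namespace Pool.Agent.Y262

open BK BK.JC2 BK.JB6 BK.JB1.JKI

variable {n : ℕ}

section
open scoped Convolution

/-- convolution -/
noncomputable def cG (F K : En n → ℂ) (z : En n) : ℂ := ∫ w, F w * K (z - w)

theorem cG_eq (F K : En n → ℂ) :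
    cG F K = (F ⋆[(ContinuousLinearMap.mul ℝ ℂ), volume] K) := rfl

theorem cG_comm (F K : En n → ℂ) : cG F K = cG K F := by
  funext z
  unfold cG
  rw [← integral_sub_left_eq_self _ volume z]
  simp only [sub_sub_cancel]
  congr 1
  funext w
  exact mul_comm _ _

theorem cG_int {F K : En n → ℂ} (hF : Integrable F) (hK : Continuous K)
    (hc : HasCompactSupport K) (z : En n) : Integrable fun w => F w * K (z - w) := by
  have h1 := hc.convolutionExists_right (ContinuousLinearMap.mul ℝ ℂ)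
    hF.locallyIntegrable hK z
  exact h1

theorem cG_smooth {F K : En n → ℂ} (hF : Integrable F) (hK : ContDiff ℝ ∞ K)
    (hc : HasCompactSupport K) : ContDiff ℝ ∞ (cG F K) := by
  rw [cG_eq]
  exact hc.contDiff_convolution_right _ hF.locallyIntegrable hK

theorem cG_fderiv {F K : En n → ℂ} (hF : Integrable F) (hK : ContDiff ℝ ∞ K)
    (hc : HasCompactSupport K) (z v : En n) :
    fderiv ℝ (cG F K) z v = cG F (fun y => fderiv ℝ K y v) z := by
  have h1 := hc.hasFDerivAt_convolution_right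
    (ContinuousLinearMap.mul ℝ ℂ) hF.locallyIntegrable
    (hK.of_le (by exact_mod_cast le_top)) z
  have h2 : fderiv ℝ (cG F K) z = _ := h1.fderiv
  rw [h2, convolution_precompR_apply]
  · rfl
  · exact hF.locallyIntegrable
  · exact hc.fderiv (𝕜 := ℝ)
  · exact hK.continuous_fderiv (by simp)

theorem cG_dir {F K : En n → ℂ} (hF : Integrable F) (hK : ContDiff ℝ ∞ K)
    (hc : HasCompactSupport K) (z v : En n) :
    Integrable fun w => F w * fderiv ℝ K (z - w) v :=
  cG_int hF ((hK.continuous_fderiv (by simp)).clm_apply continuous_const)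
    (hc.fderiv_apply (𝕜 := ℝ) v) z

theorem cG_lin {F K : En n → ℂ} (hF : Integrable F) (hK : ContDiff ℝ ∞ K)
    (hc : HasCompactSupport K) (z v1 v2 : En n) (c1 c2 : ℂ) :
    c1 * fderiv ℝ (cG F K) z v1 + c2 * fderiv ℝ (cG F K) z v2 =
      cG F (fun y => c1 * fderiv ℝ K y v1 + c2 * fderiv ℝ K y v2) z := by
  have h1 := cG_dir hF hK hc z v1
  have h2 := cG_dir hF hK hc z v2
  rw [cG_fderiv hF hK hc, cG_fderiv hF hK hc]
  unfold cG
  rw [← integral_const_mul, ← integral_const_mul,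
    ← integral_add (h1.const_mul c1) (h2.const_mul c2)]
  congr 1
  funext w
  ring

theorem cG_dz {F K : En n → ℂ} (hF : Integrable F) (hK : ContDiff ℝ ∞ K)
    (hc : HasCompactSupport K) (j : Fin n) : dz j (cG F K) = cG F (dz j K) := by
  have e1 : ∀ (H : En n → ℂ), dz j H = fun z => (1 / 2) * fderiv ℝ H z (Pi.single j 1) +
      (-(1 / 2) * I) * fderiv ℝ H z (Pi.single j I) := by
    intro H
    funext z
    simp only [dz]
    ring
  rw [e1, e1]
  funext z
  exact cG_lin hF hK hc z _ _ _ _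

theorem cG_dbar {F K : En n → ℂ} (hF : Integrable F) (hK : ContDiff ℝ ∞ K)
    (hc : HasCompactSupport K) (j : Fin n) : dbar j (cG F K) = cG F (dbar j K) := by
  have e1 : ∀ (H : En n → ℂ), dbar j H = fun z => (1 / 2) * fderiv ℝ H z (Pi.single j 1) +
      ((1 / 2) * I) * fderiv ℝ H z (Pi.single j I) := by
    intro H
    funext z
    simp only [dbar]
    ring
  rw [e1, e1]
  funext z
  exact cG_lin hF hK hc z _ _ _ _

theorem cG_compact {F K : En n → ℂ} (hF : HasCompactSupport F) (hK : HasCompactSupport K) :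
    HasCompactSupport (cG F K) := by
  rw [cG_eq]
  exact HasCompactSupport.convolution (L := ContinuousLinearMap.mul ℝ ℂ) (μ := volume) hF hK

/-- reflected kernel -/
theorem fderiv_refl {K : En n → ℂ} (hK : ContDiff ℝ ∞ K) (z w v : En n) :
    fderiv ℝ (fun w => K (z - w)) w v = - fderiv ℝ K (z - w) v := by
  have h1 : HasFDerivAt K (fderiv ℝ K (z - w)) (z - w) :=
    (hK.differentiable (by simp) _).hasFDerivAt
  have h2 : HasFDerivAt (fun w : En n => z - w) (-(ContinuousLinearMap.id ℝ (En n))) w :=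
    (hasFDerivAt_id w).const_sub z
  have h5 : fderiv ℝ (fun w => K (z - w)) w = _ := (h1.comp w h2).fderiv
  rw [h5]
  simp

theorem dz_refl {K : En n → ℂ} (hK : ContDiff ℝ ∞ K) (z : En n) (j : Fin n) :
    dz j (fun w => K (z - w)) = fun w => - dz j K (z - w) := by
  funext w
  unfold dz
  rw [fderiv_refl hK, fderiv_refl hK]
  ring

theorem dbar_refl {K : En n → ℂ} (hK : ContDiff ℝ ∞ K) (z : En n) (j : Fin n) :
    dbar j (fun w => K (z - w)) = fun w => - dbar j K (z - w) := by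
  funext w
  unfold dbar
  rw [fderiv_refl hK, fderiv_refl hK]
  ring

theorem dz_neg (K : En n → ℂ) (j : Fin n) : dz j (fun w => - K w) = fun w => - dz j K w := by
  funext w
  unfold dz
  rw [fderiv_fun_neg]
  simp
  ring

theorem dz_comm {v : En n → ℂ} (hv : ContDiff ℝ ∞ v) (j k : Fin n) (x : En n) :
    dz k (dz j v) x = dz j (dz k v) x := by
  have h1 : ∀ j k, dz k (dz j v) x = (1 / 2) * (Dv (Pi.single k 1) (dz j v) x
      + (-I) * Dv (Pi.single k I) (dz j v) x) := fun j k => by rw [dz_eq]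
  rw [h1, h1, dz_eq, dz_eq]
  rw [Dv_lin (Dv_smooth hv _) (Dv_smooth hv _), Dv_lin (Dv_smooth hv _) (Dv_smooth hv _),
    Dv_lin (Dv_smooth hv _) (Dv_smooth hv _), Dv_lin (Dv_smooth hv _) (Dv_smooth hv _)]
  rw [Dv_comm hv (Pi.single k 1) (Pi.single j 1), Dv_comm hv (Pi.single k 1) (Pi.single j I),
    Dv_comm hv (Pi.single k I) (Pi.single j 1), Dv_comm hv (Pi.single k I) (Pi.single j I)]
  ring

/-- the complex mollifier -/
noncomputable def Pk (t : ℝ) (w : En n) : ℂ := ((rho t w : ℝ) : ℂ)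

theorem Pk_smooth (t : ℝ) : ContDiff ℝ ∞ (Pk t : En n → ℂ) :=
  ofRealCLM.contDiff.comp (rho_contDiff t)

theorem Pk_zero {t : ℝ} (ht : 0 < t) {w : En n} (h : t ≤ ‖w‖) : Pk t w = 0 := by
  unfold Pk
  rw [rho_zero_of ht w h, ofReal_zero]

theorem Pk_compact {t : ℝ} (ht : 0 < t) : HasCompactSupport (Pk t : En n → ℂ) := by
  apply HasCompactSupport.of_support_subset_isCompact (isCompact_closedBall (0 : En n) t)
  intro w hw
  by_contra h
  rw [mem_closedBall_zero_iff, not_le] at h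
  exact hw (Pk_zero ht h.le)

theorem Pk_integrable {t : ℝ} (ht : 0 < t) : Integrable (Pk t : En n → ℂ) :=
  (Pk_smooth t).continuous.integrable_of_hasCompactSupport (Pk_compact ht)

theorem wG_cG (F : En n → ℂ) (t : ℝ) : wG F t = cG F (Pk t) := by
  funext z
  rw [wG_apply]
  unfold cG Pk
  congr 1
  funext w
  rw [real_smul, mul_comm]

theorem wG_cG' (F : En n → ℂ) (t : ℝ) (z : En n) :
    ∫ w, (rho t w) • F (z - w) = cG (Pk t) F z := by
  unfold cG Pk
  congr 1

theorem cG_assoc {F : En n → ℂ} (hF : Integrable F) {s t : ℝ} (hs : 0 < s) (ht : 0 < t) :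
    cG (Pk s) (cG F (Pk t)) = cG (Pk t) (cG F (Pk s)) := by
  funext z
  have h := wG_comm F hF hs ht z
  rw [wG_cG, wG_cG, wG_cG', wG_cG'] at h
  exact h

theorem Pk_test {Ω : Set (En n)} {t : ℝ} (ht : 0 < t) {z : En n} (hz : closedBall z t ⊆ Ω) :
    IsTest Ω (fun w => Pk t (z - w)) := by
  have hsupp : Function.support (fun w => Pk t (z - w)) ⊆ closedBall z t := by
    intro w hw
    by_contra hcon
    apply hw
    rw [mem_closedBall, dist_comm, dist_eq_norm, not_le] at hcon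
    exact Pk_zero ht hcon.le
  refine ⟨?_, ?_, ?_⟩
  · exact (Pk_smooth t).comp (contDiff_const.sub contDiff_id)
  · exact HasCompactSupport.of_support_subset_isCompact (isCompact_closedBall z t) hsupp
  · exact (closure_minimal hsupp isClosed_closedBall).trans hz

theorem cG_bd (F : En n → ℂ) {K : En n → ℂ} {M r : ℝ} (x : En n) (h1 : ∀ y, ‖K y‖ ≤ M)
    (h0 : ∀ y, r ≤ ‖y‖ → K y = 0) :
    ‖cG F K x‖ₑ ≤ ENNReal.ofReal M * ∫⁻ y in ball x r, ‖F y‖ₑ := by
  unfold cG
  refine (enorm_integral_le_lintegral_enorm _).trans ?_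
  rw [← lintegral_const_mul' _ _ ENNReal.ofReal_ne_top, ← lintegral_indicator measurableSet_ball]
  apply lintegral_mono
  intro y
  by_cases hy : y ∈ ball x r
  · rw [Set.indicator_of_mem hy]
    simp only
    rw [enorm_mul, mul_comm]
    gcongr
    rw [← ofReal_norm]
    exact ENNReal.ofReal_le_ofReal (h1 _)
  · rw [Set.indicator_of_notMem hy]
    simp only
    rw [mem_ball, dist_comm, dist_eq_norm, not_lt] at hy
    rw [h0 _ hy, mul_zero, enorm_zero]

end

/-- pointwise bounds for the mollifier and its derivatives -/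
theorem Pk_bd (n : ℕ) : ∃ C : ℝ≥0∞, C ≠ ⊤ ∧ ∀ (r : ℝ), 0 < r → ∀ (x : En n) (F : En n → ℂ),
    ‖cG F (Pk r) x‖ₑ ≤ C * (((volume : Measure (En n)) (ball x r))⁻¹ *
      ∫⁻ y in ball x r, ‖F y‖ₑ) ∧
    ∀ k, ENNReal.ofReal r * ‖cG F (dz k (Pk r)) x‖ₑ ≤
      C * (((volume : Measure (En n)) (ball x r))⁻¹ * ∫⁻ y in ball x r, ‖F y‖ₑ) := by
  obtain ⟨M, hM⟩ := ((wP_contDiff (n := n)).continuous_fderiv
    (by simp)).bounded_above_of_compact_support (wP_compact.fderiv (𝕜 := ℝ))
  obtain ⟨Iw, hIw⟩ : ∃ Iw, Iw = ∫ x : En n, wP x := ⟨_, rfl⟩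
  have hIwp : 0 < Iw := by rw [hIw]; exact wP_int_pos
  have hM0 : 0 ≤ M := (norm_nonneg _).trans (hM 0)
  obtain ⟨N, hN⟩ : ∃ N, N = Module.finrank ℝ (En n) := ⟨_, rfl⟩
  have hV0 : (volume : Measure (En n)) (ball 0 1) ≠ 0 := (measure_ball_pos _ _ one_pos).ne'
  have hVt : (volume : Measure (En n)) (ball 0 1) ≠ ⊤ := measure_ball_lt_top.ne
  refine ⟨ENNReal.ofReal (Iw⁻¹ * (1 + M)) * (volume : Measure (En n)) (ball 0 1),
    ENNReal.mul_ne_top ENNReal.ofReal_ne_top hVt, ?_⟩
  intro r hr x F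
  have hrN : 0 < r ^ N := pow_pos hr N
  have hkey : ∀ B : ℝ, 0 ≤ B → ENNReal.ofReal ((r ^ N * Iw)⁻¹ * B) =
      (ENNReal.ofReal (Iw⁻¹ * B) * (volume : Measure (En n)) (ball 0 1)) *
      ((volume : Measure (En n)) (ball x r))⁻¹ := by
    intro B hB
    rw [vol_ball x hr, ← hN, ENNReal.mul_inv (Or.inl (by
      rw [Ne, ENNReal.ofReal_eq_zero, not_le]; exact hrN)) (Or.inl ENNReal.ofReal_ne_top),
      ← ENNReal.ofReal_inv_of_pos hrN]
    calc ENNReal.ofReal ((r ^ N * Iw)⁻¹ * B)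
        = ENNReal.ofReal (Iw⁻¹ * B) * ENNReal.ofReal ((r ^ N)⁻¹) := by
          rw [← ENNReal.ofReal_mul (by positivity)]
          congr 1
          rw [mul_inv]
          ring
      _ = ENNReal.ofReal (Iw⁻¹ * B) * ENNReal.ofReal ((r ^ N)⁻¹) *
          ((volume : Measure (En n)) (ball 0 1) * ((volume : Measure (En n)) (ball 0 1))⁻¹) := by
          rw [ENNReal.mul_inv_cancel hV0 hVt, mul_one]
      _ = _ := by ring
  have hmono : ∀ B : ℝ, 0 ≤ B → B ≤ 1 + M → ENNReal.ofReal ((r ^ N * Iw)⁻¹ * B) ≤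
      (ENNReal.ofReal (Iw⁻¹ * (1 + M)) * (volume : Measure (En n)) (ball 0 1)) *
      ((volume : Measure (En n)) (ball x r))⁻¹ := by
    intro B hB hB2
    rw [← hkey (1 + M) (by positivity)]
    apply ENNReal.ofReal_le_ofReal
    exact mul_le_mul_of_nonneg_left hB2 (by positivity)
  have hfd : ∀ y v : En n, fderiv ℝ (rho r) y v =
      (r ^ N * Iw)⁻¹ * (r⁻¹ * fderiv ℝ wP (r⁻¹ • y) v) := by
    intro y v
    have h1 : HasFDerivAt (wP : En n → ℝ) (fderiv ℝ wP (r⁻¹ • y)) (r⁻¹ • y) :=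
      (wP_contDiff.differentiable (by simp) _).hasFDerivAt
    have h2 : HasFDerivAt (fun y : En n => r⁻¹ • y) (r⁻¹ • (ContinuousLinearMap.id ℝ (En n))) y :=
      (hasFDerivAt_id y).const_smul r⁻¹
    have h3 := (h1.comp y h2).const_mul ((r ^ N * Iw)⁻¹)
    have h4 := h3.fderiv
    have h5 : (rho r : En n → ℝ) = fun y => (r ^ N * Iw)⁻¹ * ((wP ∘ fun y => r⁻¹ • y) y) := by
      funext y
      rw [hN, hIw]
      rfl
    rw [h5, h4]
    simp
  have hfdz : ∀ y v : En n, r ≤ ‖y‖ → fderiv ℝ (rho r) y v = 0 := by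
    intro y v hy
    have h1 : IsLocalMin (rho r) y := by
      apply Eventually.of_forall
      intro w
      show rho r y ≤ rho r w
      rw [rho_zero_of hr y hy]
      exact rho_nonneg hr w
    rw [h1.fderiv_eq_zero]
    rfl
  have hfdP : ∀ y v : En n, fderiv ℝ (Pk r) y v = ((fderiv ℝ (rho r) y v : ℝ) : ℂ) := by
    intro y v
    have h1 : HasFDerivAt (rho r) (fderiv ℝ (rho r) y) y :=
      ((rho_contDiff r).differentiable (by simp) _).hasFDerivAt
    have h5 : fderiv ℝ (Pk r) y = _ := (ofRealCLM.hasFDerivAt.comp y h1).fderiv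
    rw [h5]
    rfl
  constructor
  · refine (cG_bd F x (M := (r ^ N * Iw)⁻¹ * 1) (r := r) ?_ (fun y hy => Pk_zero hr hy)).trans ?_
    · intro y
      unfold Pk
      rw [norm_real, Real.norm_eq_abs, abs_of_nonneg (rho_nonneg hr y)]
      unfold rho
      rw [← hN, ← hIw]
      exact mul_le_mul_of_nonneg_left (wP_le_one _) (by positivity)
    · rw [← mul_assoc]
      gcongr
      exact hmono 1 zero_le_one (by linarith)
  · intro k
    have hb : ∀ y, ‖dz k (Pk r) y‖ ≤ (r ^ N * Iw)⁻¹ * (r⁻¹ * M) := by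
      intro y
      have h1 : ∀ v : En n, ‖v‖ ≤ 1 → ‖fderiv ℝ (Pk r) y v‖ ≤ (r ^ N * Iw)⁻¹ * (r⁻¹ * M) := by
        intro v hv
        rw [hfdP, norm_real, hfd, norm_mul, norm_mul, Real.norm_of_nonneg (by positivity),
          Real.norm_of_nonneg (inv_nonneg.2 hr.le)]
        gcongr
        calc ‖fderiv ℝ wP (r⁻¹ • y) v‖ ≤ ‖fderiv ℝ wP (r⁻¹ • y)‖ * ‖v‖ :=
              ContinuousLinearMap.le_opNorm _ _
          _ ≤ M * 1 := mul_le_mul (hM _) hv (norm_nonneg _) hM0
          _ = M := mul_one M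
      have e1 : ‖(Pi.single k (1 : ℂ) : En n)‖ ≤ 1 := by
        rw [Pi.norm_single, norm_one]
      have e2 : ‖(Pi.single k I : En n)‖ ≤ 1 := by
        rw [Pi.norm_single, norm_I]
      unfold dz
      calc ‖(1 / 2 : ℂ) * (fderiv ℝ (Pk r) y (Pi.single k 1) -
            I * fderiv ℝ (Pk r) y (Pi.single k I))‖
          ≤ (1 / 2) * (‖fderiv ℝ (Pk r) y (Pi.single k 1)‖ +
            ‖fderiv ℝ (Pk r) y (Pi.single k I)‖) := by
            rw [norm_mul]
            have h3 : ‖(1 / 2 : ℂ)‖ = 1 / 2 := by norm_num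
            rw [h3]
            gcongr
            refine (norm_sub_le _ _).trans ?_
            rw [norm_mul, norm_I, one_mul]
        _ ≤ (1 / 2) * ((r ^ N * Iw)⁻¹ * (r⁻¹ * M) + (r ^ N * Iw)⁻¹ * (r⁻¹ * M)) := by
            gcongr
            · exact h1 _ e1
            · exact h1 _ e2
        _ = _ := by ring
    have h2 := cG_bd F x (M := (r ^ N * Iw)⁻¹ * (r⁻¹ * M)) (r := r) hb (by
      intro y hy
      unfold dz
      rw [hfdP, hfdP, hfdz y _ hy, hfdz y _ hy]
      simp)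
    calc ENNReal.ofReal r * ‖cG F (dz k (Pk r)) x‖ₑ
        ≤ ENNReal.ofReal r * (ENNReal.ofReal ((r ^ N * Iw)⁻¹ * (r⁻¹ * M)) *
          ∫⁻ y in ball x r, ‖F y‖ₑ) := by gcongr
      _ = ENNReal.ofReal ((r ^ N * Iw)⁻¹ * M) * ∫⁻ y in ball x r, ‖F y‖ₑ := by
          rw [← mul_assoc, ← ENNReal.ofReal_mul hr.le]
          congr 2
          field_simp
      _ ≤ _ := by
          rw [← mul_assoc]
          gcongr
          exact hmono M hM0 (by linarith)

/-- Jensen's inequality on a ball -/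
theorem jensen_ball (x : En n) {r : ℝ} (hr : 0 < r) (g : En n → ℝ≥0∞)
    (hg : AEMeasurable g (volume.restrict (ball x r))) :
    (((volume : Measure (En n)) (ball x r))⁻¹ * ∫⁻ y in ball x r, g y) ^ 2 ≤
      ((volume : Measure (En n)) (ball x r))⁻¹ * ∫⁻ y in ball x r, g y ^ 2 := by
  have hV0 : (volume : Measure (En n)) (ball x r) ≠ 0 := (measure_ball_pos _ _ hr).ne'
  have hVt : (volume : Measure (En n)) (ball x r) ≠ ⊤ := measure_ball_lt_top.ne
  have h := cs_lint (volume.restrict (ball x r)) (fun _ => 1) g aemeasurable_const hg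
    (Eventually.of_forall fun _ => one_ne_zero) (Eventually.of_forall fun _ => ENNReal.one_ne_top)
  simp only [inv_one, one_mul, lintegral_one, Measure.restrict_apply_univ] at h
  calc (((volume : Measure (En n)) (ball x r))⁻¹ * ∫⁻ y in ball x r, g y) ^ 2
      = (((volume : Measure (En n)) (ball x r))⁻¹) ^ 2 * (∫⁻ y in ball x r, g y) ^ 2 := by ring
    _ ≤ (((volume : Measure (En n)) (ball x r))⁻¹) ^ 2 *
        ((volume : Measure (En n)) (ball x r) * ∫⁻ y in ball x r, g y ^ 2) := by gcongr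
    _ = (((volume : Measure (En n)) (ball x r))⁻¹ * (volume : Measure (En n)) (ball x r)) *
        (((volume : Measure (En n)) (ball x r))⁻¹ * ∫⁻ y in ball x r, g y ^ 2) := by ring
    _ = _ := by rw [ENNReal.inv_mul_cancel hV0 hVt, one_mul]

end Pool.Agent.Y262
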