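import Pool.Agent.Y262.Wey1

/-! The regularised one-form and its holomorphy. -/

set_option autoImplicit false


open MeasureTheory Complex Filter Topology Metric
open scoped ContDiff ENNReal ComplexConjugate

namespace Pool.Agent.Y262

open BK BK.JC2 BK.JB6 BK.JB1.JKI

variable {n : ℕ}

theorem dz_cpt {K : En n → ℂ} (hc : HasCompactSupport K) (k : Fin n) :
    HasCompactSupport (dz k K) := by
  apply hc.mono'
  intro x hx
  by_contra h
  apply hx
  have h1 : fderiv ℝ K x = 0 := fderiv_of_notMem_tsupport (𝕜 := ℝ) h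
  simp [dz, h1]

theorem dbar_cpt {K : En n → ℂ} (hc : HasCompactSupport K) (k : Fin n) :
    HasCompactSupport (dbar k K) := by
  apply hc.mono'
  intro x hx
  by_contra h
  apply hx
  have h1 : fderiv ℝ K x = 0 := fderiv_of_notMem_tsupport (𝕜 := ℝ) h
  simp [dbar, h1]

theorem dbar_add {f g : En n → ℂ} {z : En n} (hf : DifferentiableAt ℝ f z)
    (hg : DifferentiableAt ℝ g z) (j : Fin n) :
    dbar j (fun x => f x + g x) z = dbar j f z + dbar j g z := by
  unfold dbar
  rw [fderiv_fun_add hf hg]
  simp only [add_apply]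
  ring

theorem dz_add {f g : En n → ℂ} {z : En n} (hf : DifferentiableAt ℝ f z)
    (hg : DifferentiableAt ℝ g z) (j : Fin n) :
    dz j (fun x => f x + g x) z = dz j f z + dz j g z := by
  unfold dz
  rw [fderiv_fun_add hf hg]
  simp only [add_apply]
  ring

/-- the regularised form -/
noncomputable def Ak (W F : En n → ℂ) (k : Fin n) (t : ℝ) (z : En n) : ℂ :=
  cG W (Pk t) z + cG F (dz k (Pk t)) z

section
variable {W F : En n → ℂ}

theorem Ak_smooth (hW : Integrable W) (hF : Integrable F) (k : Fin n) {t : ℝ} (ht : 0 < t) :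
    ContDiff ℝ ∞ (Ak W F k t) :=
  (cG_smooth hW (Pk_smooth t) (Pk_compact ht)).add
    (cG_smooth hF (dz_smooth (Pk_smooth t) k) (dz_cpt (Pk_compact ht) k))

theorem Ak_hol {Ω : Set (En n)} (ho : IsOpen Ω) {w c : En n → ℂ} {k : Fin n}
    (hWi : Integrable (Ω.indicator w)) (hFi : Integrable (Ω.indicator c))
    (hyp : ∀ (j : Fin n) (ρ : En n → ℂ), IsTest Ω ρ →
      ∫ x in Ω, (w x * dbar j ρ x - c x * dz k (dbar j ρ) x) = 0)
    {t : ℝ} (ht : 0 < t) {z : En n} (hz : closedBall z t ⊆ Ω) :
    DifferentiableAt ℂ (Ak (Ω.indicator w) (Ω.indicator c) k t) z := by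
  have hPs := Pk_smooth (n := n) t
  have hPc := Pk_compact (n := n) ht
  apply diffAt_of_dbar
  · exact (Ak_smooth hWi hFi k ht).differentiable (by simp) z
  · intro j
    have e1 : dbar j (Ak (Ω.indicator w) (Ω.indicator c) k t) z =
        cG (Ω.indicator w) (dbar j (Pk t)) z + cG (Ω.indicator c) (dbar j (dz k (Pk t))) z := by
      have h1 := dbar_add (f := cG (Ω.indicator w) (Pk t)) (g := cG (Ω.indicator c) (dz k (Pk t)))
        (z := z) ((cG_smooth hWi hPs hPc).differentiable (by simp) z)
        ((cG_smooth hFi (dz_smooth hPs k) (dz_cpt hPc k)).differentiable (by simp) z) j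
      rw [cG_dbar hWi hPs hPc, cG_dbar hFi (dz_smooth hPs k) (dz_cpt hPc k)] at h1
      exact h1
    have e2 : dbar j (dz k (Pk t)) = (dz k (dbar j (Pk t)) : En n → ℂ) := by
      funext x
      exact dbar_dz_comm hPs k j x
    rw [e1, e2]
    have h := hyp j _ (Pk_test ht hz)
    have d1 : dbar j (fun w => Pk t (z - w)) = fun w => - dbar j (Pk t) (z - w) :=
      dbar_refl hPs z j
    have d2 : dz k (dbar j (fun w => Pk t (z - w))) = fun w => dz k (dbar j (Pk t)) (z - w) := by
      rw [d1, dz_neg, dz_refl (dbar_smooth hPs j)]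
      funext w
      rw [neg_neg]
    rw [d2, d1] at h
    have i1 := cG_int hWi (dbar_smooth hPs j).continuous (dbar_cpt hPc j) z
    have i2 := cG_int hFi (dz_smooth (dbar_smooth hPs j) k).continuous
      (dz_cpt (dbar_cpt hPc j) k) z
    unfold cG
    rw [← integral_add i1 i2]
    have e3 : ∀ x, Ω.indicator w x * dbar j (Pk t) (z - x) +
        Ω.indicator c x * dz k (dbar j (Pk t)) (z - x) =
        -(Ω.indicator (fun x => w x * -dbar j (Pk t) (z - x) -
          c x * dz k (dbar j (Pk t)) (z - x)) x) := by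
      intro x
      by_cases hx : x ∈ Ω
      · simp only [Set.indicator_of_mem hx]
        ring
      · simp only [Set.indicator_of_notMem hx]
        ring
    simp_rw [e3]
    rw [integral_neg, integral_indicator ho.measurableSet, h, neg_zero]

theorem cG_Pk_int {f : En n → ℂ} (hf : Continuous f) {s : ℝ} (hs : 0 < s) (z : En n) :
    Integrable fun w => Pk s w * f (z - w) := by
  apply Continuous.integrable_of_hasCompactSupport
  · exact (Pk_smooth s).continuous.mul (hf.comp (continuous_const.sub continuous_id))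
  · exact (Pk_compact hs).mul_right

theorem cG_Pk_add {f g : En n → ℂ} (hf : Continuous f) (hg : Continuous g) {s : ℝ} (hs : 0 < s)
    (z : En n) : cG (Pk s) (fun x => f x + g x) z = cG (Pk s) f z + cG (Pk s) g z := by
  unfold cG
  rw [← integral_add (cG_Pk_int hf hs z) (cG_Pk_int hg hs z)]
  congr 1
  funext w
  ring

theorem Ak_conv (hW : Integrable W) (hF : Integrable F) (hFc : HasCompactSupport F) (k : Fin n)
    {s t : ℝ} (hs : 0 < s) (ht : 0 < t) (z : En n) :
    cG (Pk s) (Ak W F k t) z = cG (Pk t) (Ak W F k s) z := by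
  have key : ∀ {s t : ℝ}, 0 < s → 0 < t → cG (Pk s) (Ak W F k t) z =
      cG (Pk s) (cG W (Pk t)) z + dz k (cG (Pk s) (cG F (Pk t))) z := by
    intro s t hs ht
    have hPs := Pk_smooth (n := n) t
    have hPc := Pk_compact (n := n) ht
    rw [cG_dz (Pk_integrable hs) (cG_smooth hF hPs hPc) (cG_compact hFc hPc),
      cG_dz hF hPs hPc, ← cG_Pk_add (cG_smooth hW hPs hPc).continuous
      (cG_smooth hF (dz_smooth hPs k) (dz_cpt hPc k)).continuous hs z]
    rfl
  rw [key hs ht, key ht hs, cG_assoc hW hs ht, cG_assoc hF hs ht]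

theorem Ak_const {Ω : Set (En n)} (hW : Integrable W) (hF : Integrable F)
    (hFc : HasCompactSupport F) (k : Fin n)
    (hol : ∀ t : ℝ, 0 < t → ∀ z, closedBall z t ⊆ Ω → DifferentiableAt ℂ (Ak W F k t) z)
    {s t : ℝ} (hs : 0 < s) (ht : 0 < t) (z : En n) (hz : closedBall z (s + t) ⊆ Ω) :
    Ak W F k s z = Ak W F k t z := by
  have h1 := wMV (Ak W F k t) z s hs (fun y hy => hol t ht y (by
    refine (closedBall_subset_closedBall' ?_).trans hz
    rw [mem_closedBall] at hy
    linarith))
  have h2 := wMV (Ak W F k s) z t ht (fun y hy => hol s hs y (by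
    refine (closedBall_subset_closedBall' ?_).trans hz
    rw [mem_closedBall] at hy
    linarith))
  rw [wG_cG'] at h1 h2
  rw [← h1, ← h2, Ak_conv hW hF hFc k ht hs]

end

theorem Pk_even (s : ℝ) (w : En n) : Pk s (-w) = Pk s w := by
  unfold Pk
  have h := rho_rot s (-1 : ℂ) (by simp) w
  rw [neg_smul, one_smul] at h
  rw [h]

theorem cG_sym {W φ : En n → ℂ} (hW : Integrable W) (hφ : Continuous φ)
    (hφc : HasCompactSupport φ) {s : ℝ} (hs : 0 < s) :
    ∫ z, cG W (Pk s) z * φ z = ∫ w, W w * cG φ (Pk s) w := by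
  have hφi : Integrable φ := hφ.integrable_of_hasCompactSupport hφc
  obtain ⟨M, hM⟩ := (Pk_smooth (n := n) s).continuous.bounded_above_of_compact_support
    (Pk_compact hs)
  have h1 : Integrable (fun p : En n × En n => W p.2 * φ p.1)
      ((volume : Measure (En n)).prod (volume : Measure (En n))) := by
    have h2 : Integrable (fun p : En n × En n => φ p.1 * W p.2)
      ((volume : Measure (En n)).prod (volume : Measure (En n))) := hφi.mul_prod hW
    refine h2.congr (Eventually.of_forall fun p => mul_comm _ _)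
  have h3 : Integrable (fun p : En n × En n => W p.2 * Pk s (p.1 - p.2) * φ p.1)
      ((volume : Measure (En n)).prod (volume : Measure (En n))) := by
    have h4 : Integrable (fun p : En n × En n => Pk s (p.1 - p.2) * (W p.2 * φ p.1))
      ((volume : Measure (En n)).prod (volume : Measure (En n))) := by
      apply h1.bdd_mul (c := M)
      · apply Continuous.aestronglyMeasurable
        exact (Pk_smooth s).continuous.comp (continuous_fst.sub continuous_snd)
      · exact Eventually.of_forall fun p => hM _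
    refine h4.congr (Eventually.of_forall fun p => ?_)
    simp only
    ring
  have e1 : ∀ z, cG W (Pk s) z * φ z = ∫ w, W w * Pk s (z - w) * φ z := by
    intro z
    unfold cG
    rw [integral_mul_const]
  have e2 : ∀ w, W w * cG φ (Pk s) w = ∫ z, W w * Pk s (z - w) * φ z := by
    intro w
    unfold cG
    rw [← integral_const_mul]
    congr 1
    funext z
    have : Pk s (w - z) = Pk s (z - w) := by rw [← neg_sub z w, Pk_even]
    rw [this]
    ring
  simp_rw [e1, e2]
  exact integral_integral_swap h3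

theorem cG_unif {φ : En n → ℂ} (hφ : ContDiff ℝ ∞ φ) (hφc : HasCompactSupport φ) :
    ∃ L : ℝ, 0 ≤ L ∧ ∀ s : ℝ, 0 < s → ∀ z, ‖cG φ (Pk s) z - φ z‖ ≤ L * s := by
  obtain ⟨L, hL⟩ := ContDiff.lipschitzWith_of_hasCompactSupport hφc hφ (by simp)
  refine ⟨L, L.2, ?_⟩
  intro s hs z
  have h1 : cG φ (Pk s) z - φ z = ∫ w, Pk s w * (φ (z - w) - φ z) := by
    have h2 : ∫ w : En n, Pk s w = 1 := by
      unfold Pk
      rw [integral_complex_ofReal, rho_integral hs, ofReal_one]
    have h3 : φ z = ∫ w : En n, Pk s w * φ z := by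
      rw [integral_mul_const, h2, one_mul]
    rw [cG_comm]
    conv_lhs => rw [h3]
    unfold cG
    rw [← integral_sub (cG_Pk_int hφ.continuous hs z) ((Pk_integrable hs).mul_const _)]
    congr 1
    funext w
    ring
  rw [h1]
  have h4 : ∀ w : En n, ‖Pk s w * (φ (z - w) - φ z)‖ ≤ rho s w * (L * s) := by
    intro w
    rw [norm_mul]
    unfold Pk
    rw [norm_real, Real.norm_of_nonneg (rho_nonneg hs w)]
    rcases lt_or_ge ‖w‖ s with h | h
    · apply mul_le_mul_of_nonneg_left _ (rho_nonneg hs w)
      rw [← dist_eq_norm]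
      refine (hL.dist_le_mul _ _).trans ?_
      apply mul_le_mul_of_nonneg_left _ L.2
      rw [dist_eq_norm, sub_sub_cancel_left, norm_neg]
      exact h.le
    · rw [rho_zero_of hs w h]
      simp
  have h5 : Integrable (rho s : En n → ℝ) :=
    (rho_contDiff s).continuous.integrable_of_hasCompactSupport (rho_compact hs)
  refine (norm_integral_le_of_norm_le (h5.mul_const _) (Eventually.of_forall h4)).trans ?_
  rw [integral_mul_const, rho_integral hs, one_mul]

/-- the weak identity -/
theorem Ak_weak {Ω : Set (En n)} (ho : IsOpen Ω) {w c a : En n → ℂ} {k : Fin n}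
    (hWi : Integrable (Ω.indicator w)) (hFi : Integrable (Ω.indicator c))
    (ha : ∀ (s : ℝ) (x : En n), 0 < s → closedBall x (2 * s) ⊆ Ω →
      a x = Ak (Ω.indicator w) (Ω.indicator c) k s x)
    {φ : En n → ℂ} (hφ : IsTest Ω φ) :
    ∫ x in Ω, (w x * φ x - c x * dz k φ x) = ∫ x in Ω, a x * φ x := by
  obtain ⟨W, hW⟩ : ∃ W, W = Ω.indicator w := ⟨_, rfl⟩
  obtain ⟨F, hF⟩ : ∃ F, F = Ω.indicator c := ⟨_, rfl⟩
  rw [← hW, ← hF] at ha
  rw [← hW] at hWi
  rw [← hF] at hFi
  have hdzs := dz_smooth hφ.smooth k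
  have hdzc := dz_cpt hφ.compact k
  obtain ⟨δ, hδ, hsub⟩ := hφ.compact.isCompact.exists_cthickening_subset_open ho hφ.supp
  obtain ⟨L1, hL1, hU1⟩ := cG_unif hφ.smooth hφ.compact
  obtain ⟨L2, hL2, hU2⟩ := cG_unif hdzs hdzc
  have i1 : Integrable fun x => W x * φ x := by
    obtain ⟨M, hM⟩ := hφ.smooth.continuous.bounded_above_of_compact_support hφ.compact
    have := hWi.bdd_mul (c := M) hφ.smooth.continuous.aestronglyMeasurable
      (Eventually.of_forall fun p => hM _)
    exact this.congr (Eventually.of_forall fun p => mul_comm _ _)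
  have i2 : Integrable fun x => F x * dz k φ x := by
    obtain ⟨M, hM⟩ := hdzs.continuous.bounded_above_of_compact_support hdzc
    have := hFi.bdd_mul (c := M) hdzs.continuous.aestronglyMeasurable
      (Eventually.of_forall fun p => hM _)
    exact this.congr (Eventually.of_forall fun p => mul_comm _ _)
  have e0 : ∫ x in Ω, (w x * φ x - c x * dz k φ x) = (∫ x, W x * φ x) - ∫ x, F x * dz k φ x := by
    rw [← integral_sub i1 i2, ← integral_indicator ho.measurableSet]
    congr 1
    funext x
    rw [hW, hF]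
    by_cases hx : x ∈ Ω
    · simp only [Set.indicator_of_mem hx]
    · simp only [Set.indicator_of_notMem hx]
      ring
  have key : ∀ s : ℝ, 0 < s → 2 * s ≤ δ → ‖(∫ x in Ω, (w x * φ x - c x * dz k φ x)) -
      ∫ x in Ω, a x * φ x‖ ≤ (L1 * ∫ x, ‖W x‖) * s + (L2 * ∫ x, ‖F x‖) * s := by
    intro s hs hsδ
    have hPs := Pk_smooth (n := n) s
    have hPc := Pk_compact (n := n) hs
    have hAs := Ak_smooth hWi hFi k hs
    have e1 : ∫ x in Ω, a x * φ x = ∫ x, Ak W F k s x * φ x := by
      rw [← integral_indicator ho.measurableSet]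
      congr 1
      funext x
      by_cases hx : x ∈ tsupport φ
      · rw [Set.indicator_of_mem (hφ.supp hx), ha s x hs]
        exact ((closedBall_subset_closedBall hsδ).trans
          (closedBall_subset_cthickening hx δ)).trans hsub
      · rw [image_eq_zero_of_notMem_tsupport hx, mul_zero]
        by_cases hxΩ : x ∈ Ω
        · rw [Set.indicator_of_mem hxΩ, image_eq_zero_of_notMem_tsupport hx, mul_zero]
        · rw [Set.indicator_of_notMem hxΩ]
    have j1 : Integrable fun x => cG W (Pk s) x * φ x :=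
      ((cG_smooth hWi hPs hPc).continuous.mul hφ.smooth.continuous).integrable_of_hasCompactSupport
        hφ.compact.mul_left
    have j2 : Integrable fun x => cG F (dz k (Pk s)) x * φ x :=
      ((cG_smooth hFi (dz_smooth hPs k) (dz_cpt hPc k)).continuous.mul
        hφ.smooth.continuous).integrable_of_hasCompactSupport hφ.compact.mul_left
    have e2 : ∫ x, Ak W F k s x * φ x =
        (∫ x, cG W (Pk s) x * φ x) - ∫ x, cG F (Pk s) x * dz k φ x := by
      have h1 : ∫ x, Ak W F k s x * φ x =
          (∫ x, cG W (Pk s) x * φ x) + ∫ x, cG F (dz k (Pk s)) x * φ x := by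
        rw [← integral_add j1 j2]
        congr 1
        funext x
        unfold Ak
        ring
      have h2 := ibp_dz (V := Set.univ) isOpen_univ (G := cG F (Pk s)) (ρ := φ)
        (cG_smooth hFi hPs hPc).contDiffOn ⟨hφ.smooth, hφ.compact, Set.subset_univ _⟩ k
      rw [Measure.restrict_univ, cG_dz hFi hPs hPc] at h2
      rw [h1, h2]
      ring
    have k1 : Integrable fun x => W x * cG φ (Pk s) x := by
      have hc := cG_smooth (hφ.smooth.continuous.integrable_of_hasCompactSupport hφ.compact) hPs hPc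
      obtain ⟨M, hM⟩ := hc.continuous.bounded_above_of_compact_support (cG_compact hφ.compact hPc)
      have := hWi.bdd_mul (c := M) hc.continuous.aestronglyMeasurable
        (Eventually.of_forall fun p => hM _)
      exact this.congr (Eventually.of_forall fun p => mul_comm _ _)
    have k2 : Integrable fun x => F x * cG (dz k φ) (Pk s) x := by
      have hc := cG_smooth (hdzs.continuous.integrable_of_hasCompactSupport hdzc) hPs hPc
      obtain ⟨M, hM⟩ := hc.continuous.bounded_above_of_compact_support (cG_compact hdzc hPc)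
      have := hFi.bdd_mul (c := M) hc.continuous.aestronglyMeasurable
        (Eventually.of_forall fun p => hM _)
      exact this.congr (Eventually.of_forall fun p => mul_comm _ _)
    rw [e0, e1, e2, cG_sym hWi hφ.smooth.continuous hφ.compact hs,
      cG_sym hFi hdzs.continuous hdzc hs]
    have e3 : (∫ x, W x * φ x) - (∫ x, F x * dz k φ x) -
        ((∫ x, W x * cG φ (Pk s) x) - ∫ x, F x * cG (dz k φ) (Pk s) x) =
        (∫ x, W x * (φ x - cG φ (Pk s) x)) -
          ∫ x, F x * (dz k φ x - cG (dz k φ) (Pk s) x) := by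
      have f1 : ∫ x, W x * (φ x - cG φ (Pk s) x) =
          (∫ x, W x * φ x) - ∫ x, W x * cG φ (Pk s) x := by
        rw [← integral_sub i1 k1]
        congr 1
        funext x
        ring
      have f2 : ∫ x, F x * (dz k φ x - cG (dz k φ) (Pk s) x) =
          (∫ x, F x * dz k φ x) - ∫ x, F x * cG (dz k φ) (Pk s) x := by
        rw [← integral_sub i2 k2]
        congr 1
        funext x
        ring
      rw [f1, f2]
      ring
    rw [e3]
    refine (norm_sub_le _ _).trans ?_
    apply add_le_add
    · have : ∀ x, ‖W x * (φ x - cG φ (Pk s) x)‖ ≤ ‖W x‖ * (L1 * s) := by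
        intro x
        rw [norm_mul, ← norm_neg (φ x - cG φ (Pk s) x), neg_sub]
        exact mul_le_mul_of_nonneg_left (hU1 s hs x) (norm_nonneg _)
      refine (norm_integral_le_of_norm_le (hWi.norm.mul_const _)
        (Eventually.of_forall this)).trans (le_of_eq ?_)
      rw [integral_mul_const]
      ring
    · have : ∀ x, ‖F x * (dz k φ x - cG (dz k φ) (Pk s) x)‖ ≤ ‖F x‖ * (L2 * s) := by
        intro x
        rw [norm_mul, ← norm_neg (dz k φ x - cG (dz k φ) (Pk s) x), neg_sub]
        exact mul_le_mul_of_nonneg_left (hU2 s hs x) (norm_nonneg _)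
      refine (norm_integral_le_of_norm_le (hFi.norm.mul_const _)
        (Eventually.of_forall this)).trans (le_of_eq ?_)
      rw [integral_mul_const]
      ring
  obtain ⟨D, hD⟩ : ∃ D : ℝ, D = ‖(∫ x in Ω, (w x * φ x - c x * dz k φ x)) -
      ∫ x in Ω, a x * φ x‖ := ⟨_, rfl⟩
  obtain ⟨E, hE⟩ : ∃ E : ℝ, E = (L1 * ∫ x, ‖W x‖) + (L2 * ∫ x, ‖F x‖) := ⟨_, rfl⟩
  have hE0 : 0 ≤ E := by
    rw [hE]
    have h1 : 0 ≤ ∫ x, ‖W x‖ := integral_nonneg fun x => norm_nonneg _
    have h2 : 0 ≤ ∫ x, ‖F x‖ := integral_nonneg fun x => norm_nonneg _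
    positivity
  have hle : D ≤ 0 := by
    by_contra hcon
    push Not at hcon
    obtain ⟨s, hs⟩ : ∃ s : ℝ, s = min (δ / 2) (D / (2 * (E + 1))) := ⟨_, rfl⟩
    have hs0 : 0 < s := by
      rw [hs]
      exact lt_min (by positivity) (by positivity)
    have h1 := key s hs0 (by
      have : s ≤ δ / 2 := by rw [hs]; exact min_le_left _ _
      linarith)
    rw [← hD] at h1
    have h2 : s ≤ D / (2 * (E + 1)) := by rw [hs]; exact min_le_right _ _
    rw [le_div_iff₀ (by positivity)] at h2
    rw [hE] at h2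
    have h3 : 0 ≤ s := hs0.le
    nlinarith
  have h0 : D = 0 := le_antisymm hle (by rw [hD]; exact norm_nonneg _)
  rw [h0] at hD
  exact sub_eq_zero.1 (norm_eq_zero.1 hD.symm)

end Pool.Agent.Y262
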